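import Pool.Agent.P.MP_b91a16_ag.Id.Stmt

/-! Ideals in two variables: basic tools for arcs, volumes and derivations. -/

set_option linter.unusedSectionVars false

open MvPolynomial

namespace Pool.Agent.P.MP_b91a16_ag.Id

noncomputable section

section Copy

variable {k σ τ K : Type} [Field k] [Fintype σ] [DecidableEq σ] [Fintype τ] [DecidableEq τ]
  [CommRing K] [Algebra k K]

/-- Arcs that start at the origin. -/
def Cen (γ : τ → PowerSeries K) : Prop := ∀ j, PowerSeries.X ∣ γ j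

theorem aeval_congr_dvd {S : Type} [CommRing S] [Algebra k S] {t : S} {γ γ' : σ → S}
    (h : ∀ j, t ∣ γ' j - γ j) (g : MvPolynomial σ k) : t ∣ aeval γ' g - aeval γ g := by
  induction g using MvPolynomial.induction_on with
  | C c => simp
  | add p q hp hq =>
    rw [map_add, map_add, add_sub_add_comm]
    exact dvd_add hp hq
  | mul_X p i hp =>
    rw [map_mul, map_mul, aeval_X, aeval_X,
      show aeval γ' p * γ' i - aeval γ p * γ i =
        (aeval γ' p - aeval γ p) * γ' i + aeval γ p * (γ' i - γ i) by ring]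
    exact dvd_add (hp.mul_right _) ((h i).mul_left _)

theorem dvd_aeval_sub_const {S : Type} [CommRing S] [Algebra k S] {t : S} {γ : σ → S}
    (h : ∀ j, t ∣ γ j) (g : MvPolynomial σ k) :
    t ∣ aeval γ g - algebraMap k S (constantCoeff g) := by
  simpa using aeval_congr_dvd (γ := 0) (γ' := γ) (by simpa using h) g

theorem dvd_succ_iff {F : PowerSeries K} {m : ℕ} :
    PowerSeries.X ^ (m + 1) ∣ F ↔ PowerSeries.X ^ m ∣ F ∧ PowerSeries.coeff m F = 0 := by
  simp only [PowerSeries.X_pow_dvd_iff]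
  exact ⟨fun h => ⟨fun p hp => h p (by omega), h m (by omega)⟩, fun h p hp =>
    (Nat.lt_succ_iff_lt_or_eq.1 hp).elim (h.1 p) fun e => e ▸ h.2⟩

theorem alg_ps (c : k) : algebraMap k (PowerSeries K) c = PowerSeries.C (algebraMap k K c) :=
  PowerSeries.algebraMap_apply

def arc {R : Type} [CommRing R] (x : τ × ℕ → R) (j : τ) : PowerSeries R :=
  PowerSeries.X * ser x j

theorem cen_arc {K : Type} [CommRing K] (x : τ × ℕ → K) : Cen (arc x) := fun _ => Dvd.intro _ rfl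

theorem coeff_arc {K : Type} [CommRing K] (x : τ × ℕ → K) (j : τ) (l : ℕ) :
    PowerSeries.coeff (l + 1) (arc x j) = x (j, l) := by
  simp [arc, ser, PowerSeries.coeff_succ_X_mul]

theorem dvd_arc_sub {K : Type} [CommRing K] {x : τ × ℕ → K} {j : τ} {γ : PowerSeries K}
    (h : PowerSeries.X ∣ γ) {M : ℕ} :
    PowerSeries.X ^ (M + 1) ∣ arc x j - γ ↔ ∀ l < M, x (j, l) = PowerSeries.coeff (l + 1) γ := by
  rw [PowerSeries.X_pow_dvd_iff]
  constructor
  · intro H l hl
    have := H (l + 1) (by omega)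
    rwa [map_sub, coeff_arc, sub_eq_zero] at this
  · rintro H (_ | l) hl
    · simpa [arc] using PowerSeries.X_dvd_iff.1 h
    · rw [map_sub, coeff_arc, H l (by omega), sub_self]

/-- Arcs along which `g` is congruent to `d t^m`. -/
def CP (g : MvPolynomial τ k) (m : ℕ) (d : k) : Pred k (τ × ℕ) := fun K _ _ x =>
  PowerSeries.X ^ (m + 1) ∣
    aeval (arc x) g - PowerSeries.C (algebraMap k K d) * PowerSeries.X ^ m

def cf (g : MvPolynomial τ k) (p : ℕ) : MvPolynomial (τ × ℕ) k :=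
  PowerSeries.coeff p (aeval (arc (X : τ × ℕ → MvPolynomial (τ × ℕ) k)) g)

theorem aeval_cf {K : Type} [CommRing K] [Algebra k K] (g : MvPolynomial τ k) (p : ℕ)
    (x : τ × ℕ → K) : aeval x (cf g p) = PowerSeries.coeff p (aeval (arc x) g) := by
  have h : aeval (arc x) g = PowerSeries.mapAlgHom (aeval x : MvPolynomial (τ × ℕ) k →ₐ[k] K)
      (aeval (arc X) g) := by
    refine (algHom_aeval _ _ _ (fun j => ?_) g).symm
    ext p
    rcases p with _ | p <;> simp [arc, ser, PowerSeries.mapAlgHom_apply,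
      PowerSeries.coeff_succ_X_mul]
  rw [h, cf, PowerSeries.mapAlgHom_apply, PowerSeries.coeff_map]
  rfl

theorem CP_iff {g : MvPolynomial τ k} {m : ℕ} {d : k} {K : Type} [Field K] [Algebra k K]
    {x : τ × ℕ → K} : CP g m d K x ↔ PowerSeries.X ^ m ∣ aeval (arc x) g ∧
      PowerSeries.coeff m (aeval (arc x) g) = algebraMap k K d := by
  rw [CP, dvd_succ_iff, map_sub, PowerSeries.coeff_C_mul, PowerSeries.coeff_X_pow_self, mul_one,
    sub_eq_zero, dvd_sub_left (Dvd.intro_left _ rfl)]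

theorem CP_zero {g : MvPolynomial τ k} {m : ℕ} {K : Type} [Field K] [Algebra k K]
    {x : τ × ℕ → K} : CP g m 0 K x ↔ PowerSeries.X ^ (m + 1) ∣ aeval (arc x) g := by
  simp [CP]

theorem CP_iff' {g : MvPolynomial τ k} {m : ℕ} {d : k} {K : Type} [Field K] [Algebra k K]
    {x : τ × ℕ → K} : CP g m d K x ↔ ∀ p ≤ m,
      PowerSeries.coeff p (aeval (arc x) g) = algebraMap k K (if p = m then d else 0) := by
  rw [CP_iff, PowerSeries.X_pow_dvd_iff]
  refine ⟨fun h p hp => ?_, fun h => ⟨fun p hp => ?_, by simpa using h m le_rfl⟩⟩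
  · split_ifs with e
    · rw [e, h.2]
    · rw [h.1 p (by omega), map_zero]
  · rw [h p hp.le, if_neg hp.ne, map_zero]

theorem exists_vol (g : MvPolynomial τ k) (m : ℕ) (d : k) : ∃ v, HasVol (CP g m d) v := by
  obtain ⟨v, h⟩ := (hasVol_true (k := k) (ι := τ × ℕ)).and_forall_eq (Finset.range (m + 1))
    fun p => cf g p - C (if p = m then d else 0)
  refine ⟨v, h.congr fun K _ _ x => ?_⟩
  simp only [CP_iff', true_and, map_sub, aeval_cf, aeval_C, sub_eq_zero, Finset.mem_range,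
    Nat.lt_succ_iff]

def vol (g : MvPolynomial τ k) (m : ℕ) (d : k) : Mot k := (exists_vol g m d).choose

theorem hasVol_vol (g : MvPolynomial τ k) (m : ℕ) (d : k) : HasVol (CP g m d) (vol g m d) :=
  (exists_vol g m d).choose_spec
theorem GG_zero {ι : Type} [Fintype ι] (u : ι → σ → ℕ) (a : ι → k) (y : σ → PowerSeries K) :
    GG u a 0 y = aeval y (fpoly u a) := by
  simp [GG, fpoly, alg_ps]

theorem coeff_zeta_vol {n : ℕ} (f : MvPolynomial (Fin n) k) (m : ℕ) :
    PowerSeries.coeff (m + 1) (zeta f) = vol f (m + 1) 1 := by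
  classical
  have e : fpoly (fun (v : f.support) j => v.1 j) (fun v => coeff v.1 f) = f := by
    conv_rhs => rw [f.as_sum, ← Finset.sum_coe_sort]
    exact Finset.sum_congr rfl fun v _ => by
      rw [monomial_eq, Finsupp.prod_fintype _ _ fun _ => pow_zero _]
  have h := hasVol_XP (fun v : f.support => coeff v.1 f) (fun v j => v.1 j) (m + 1)
  rw [e] at h
  rw [zeta, series, PowerSeries.coeff_mk, if_neg m.succ_ne_zero]
  refine (h.congr fun K _ _ x => ?_).unique (hasVol_vol f _ 1)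
  simp only [XP, GG_zero, e, CP_iff', apply_ite (algebraMap k K), map_one, map_zero]
  rfl

theorem dvd_ser_sub {K : Type} [CommRing K] {x : τ × ℕ → K} {j : τ} {γ : PowerSeries K} {M : ℕ} :
    PowerSeries.X ^ M ∣ ser x j - γ ↔ ∀ l < M, x (j, l) = PowerSeries.coeff l γ := by
  simp [PowerSeries.X_pow_dvd_iff, ser, sub_eq_zero]

theorem map_ser {K : Type} [CommRing K] [Algebra k K] (x : τ × ℕ → K) (j : τ) :
    PowerSeries.mapAlgHom (aeval x : MvPolynomial (τ × ℕ) k →ₐ[k] K) (ser X j) = ser x j := by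
  ext p
  simp [ser, PowerSeries.mapAlgHom_apply]

theorem aeval_coeff {K : Type} [CommRing K] [Algebra k K] (x : τ × ℕ → K) (g : MvPolynomial τ k)
    (p : ℕ) : aeval x (PowerSeries.coeff p (aeval (ser (X : τ × ℕ → MvPolynomial (τ × ℕ) k)) g)) =
      PowerSeries.coeff p (aeval (ser x) g) := by
  rw [← algHom_aeval _ _ _ (map_ser x) g, PowerSeries.mapAlgHom_apply, PowerSeries.coeff_map]
  rfl

theorem AV.cv {P Q : AP k τ} {m : ℕ} {v : Mot k} (hP : Lev P m) (hQ : Lev Q m)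
    (ψ : τ → MvPolynomial τ k)
    (h1 : ∀ (K : Type) [Field K] [Algebra k K] γ, P K γ → Q K fun j => aeval γ (ψ j))
    (h2 : ∀ (K : Type) [Field K] [Algebra k K] (γ γ' : τ → PowerSeries K) N, P K γ →
      (∀ j, PowerSeries.X ^ N ∣ aeval γ' (ψ j) - aeval γ (ψ j)) → ∀ j,
        PowerSeries.X ^ N ∣ γ' j - γ j)
    (h3 : ∀ (K : Type) [Field K] [Algebra k K] γ', Q K γ' →
      ∃ γ, P K γ ∧ ∀ j, aeval γ (ψ j) = γ' j) (h : AV P v) : AV Q v := by
  obtain ⟨F, c, hd, hc, e⟩ := h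
  obtain ⟨M, hM, hF⟩ : ∃ M, m ≤ M ∧ F ⊆ Finset.univ ×ˢ Finset.range M :=
    ⟨m + F.sup (·.2) + 1, by omega, fun p hp => by
      have := Finset.le_sup (f := (·.2)) hp
      simp only [Finset.mem_product, Finset.mem_univ, Finset.mem_range, true_and] at this ⊢
      omega⟩
  obtain ⟨c', hc', e'⟩ := hasClass_cut_mono hd hc hF
  have hm : ∀ (K : Type) [Field K] {z : PowerSeries K}, PowerSeries.X ^ M ∣ z →
      PowerSeries.X ^ m ∣ z := fun K _ z => (pow_dvd_pow _ hM).trans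
  refine ⟨Finset.univ ×ˢ Finset.range M, c', fun K _ _ x y hxy hx => ?_,
    hc'.map (fun p => if p.2 < M then PowerSeries.coeff p.2 (aeval (ser X) (ψ p.1)) else 0)
      fun K _ _ => ?_, e.trans e'⟩
  · exact hQ K _ _ (fun j => hm K (dvd_ser_sub.2 fun l hl => by
      rw [← hxy _ (by simpa using hl)]; simp [ser])) hx
  · have key : ∀ (x : τ × ℕ → K) (a : τ), PowerSeries.X ^ M ∣ ser (fun p : τ × ℕ =>
        aeval x (if p.2 < M then PowerSeries.coeff p.2 (aeval (ser X) (ψ p.1)) else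
          (0 : MvPolynomial (τ × ℕ) k))) a - aeval (ser x) (ψ a) :=
      fun x a => dvd_ser_sub.2 fun l hl => by simp [hl, aeval_coeff]
    refine ⟨fun x hx => ⟨hQ K _ _ (fun j => hm K (key x j)) (h1 K _ hx.1),
      fun p hp => by simp [show ¬p.2 < M by simpa using hp]⟩, fun x hx x' hx' e => ?_,
      fun y hy => ?_⟩
    · have h4 := h2 K _ (ser x') M hx.1 fun a => by
        have := dvd_sub (key x a) (key x' a)
        beta_reduce at e
        rwa [e, sub_sub_sub_cancel_left] at this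
      funext p
      by_cases hp : p.2 < M
      · rw [dvd_ser_sub.1 (h4 p.1) p.2 hp]
        simp [ser]
      · rw [hx.2 p (by simpa using hp), hx'.2 p (by simpa using hp)]
    · obtain ⟨γ, h4, h5⟩ := h3 K _ hy.1
      let x : τ × ℕ → K := fun p => if p.2 < M then PowerSeries.coeff p.2 (γ p.1) else 0
      have h6 : ∀ j, PowerSeries.X ^ M ∣ ser x j - γ j := fun j => dvd_ser_sub.2 fun l hl => if_pos hl
      refine ⟨x, ⟨hP K _ _ (fun j => hm K (h6 j)) h4, fun p hp => if_neg (by simpa using hp)⟩,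
        funext fun p => ?_⟩
      by_cases hp : p.2 < M
      · have := dvd_add (key x p.1) (aeval_congr_dvd h6 (ψ p.1))
        rw [sub_add_sub_cancel, h5] at this
        simpa [ser] using dvd_ser_sub.1 this p.2 hp
      · rw [hy.2 p (by simpa using hp)]
        simp [hp]

end Copy
section Tools

variable {k ι ρ Λ τ α : Type} [Field k] [Fintype ι] [Fintype ρ] [DecidableEq ρ] [Fintype Λ]
  [Fintype τ] [DecidableEq τ]

theorem aeval_aeval {S : Type} [CommRing S] [Algebra k S] (γ : Fin 2 → S) (π : Fin 2 → P2 k)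
    (G : P2 k) : aeval γ (aeval π G) = aeval (fun a => aeval γ (π a)) G :=
  algHom_aeval _ _ _ (fun _ => rfl) G

theorem pb_pb (χ π : Fin 2 → P2 k) (f : ι → P2 k) : pb χ (pb π f) = pb (pb χ π) f :=
  _root_.funext fun _ => aeval_aeval _ _ _

theorem aeval_mem (π : Fin 2 → P2 k) (lam : Λ → ι → k) (f : ι → P2 k) (l : Λ) :
    aeval π (mem lam f l) = mem lam (pb π f) l := by
  simp [mem, pb]

theorem Ord_pb (ψ : Fin 2 → P2 k) (g : ι → P2 k) (β : ι → ρ) (e : ρ →₀ ℕ) :
    Ord (pb ψ g) β e = Pb ψ (Ord g β e) := by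
  funext K _ _ γ
  simp only [Ord, Pb, pb, aeval_aeval]

@[simp] theorem ex_zero (a m : ℕ) : ex a m 0 = a := by simp [ex]

@[simp] theorem ex_one (a m : ℕ) : ex a m 1 = m := by simp [ex]

theorem ex_eta (v : Fin 2 →₀ ℕ) : ex (v 0) (v 1) = v := by
  ext j
  fin_cases j <;> simp

theorem monomial_ex (a m : ℕ) (c : k) : monomial (ex a m) c = C c * X 0 ^ a * X 1 ^ m := by
  simp [ex, X_pow_eq_monomial, monomial_mul, C_mul_monomial]

theorem dvd_iff_le_order {K : Type} [Field K] {s : PowerSeries K} {n : ℕ} :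
    PowerSeries.X ^ n ∣ s ↔ (n : ℕ∞) ≤ s.order :=
  PowerSeries.X_pow_dvd_iff.trans ⟨PowerSeries.nat_le_order _ _, fun h i hi =>
    PowerSeries.coeff_of_lt_order i (lt_of_lt_of_le (by exact_mod_cast hi) h)⟩

theorem lev_Ord (g : ι → P2 k) (β : ι → ρ) (e : ρ →₀ ℕ) : Lev (Ord g β e) (∑ j, e j + 1) := by
  intro K _ _ γ γ' h hγ j
  have h1 : ∀ i, ∀ n ≤ e j + 1, PowerSeries.X ^ n ∣ aeval γ' (g i) ↔
      PowerSeries.X ^ n ∣ aeval γ (g i) := fun i n hn => by
    have h2 : e j ≤ ∑ j, e j := Finset.single_le_sum (fun _ _ => Nat.zero_le _) (Finset.mem_univ j)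
    have h3 := (pow_dvd_pow _ (by omega : n ≤ _)).trans (aeval_congr_dvd h (g i))
    exact ⟨fun h => by simpa using dvd_sub h h3, fun h => by simpa using dvd_add h3 h⟩
  obtain ⟨h2, i, h3, h4⟩ := hγ j
  exact ⟨fun i hi => (h1 i _ (by omega)).2 (h2 i hi), i, h3, fun h => h4 ((h1 i _ le_rfl).1 h)⟩

variable {Ψ Ψ' : AP k τ} {v v' : Mot k}

theorem AV.congr (h : AV Ψ v)
    (e : ∀ (K : Type) [Field K] [Algebra k K] γ, Ψ K γ ↔ Ψ' K γ) : AV Ψ' v :=
  HasVol.congr h fun K _ _ _ => e K _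

theorem AV.unique (h : AV Ψ v) (h' : AV Ψ v') : v = v' := HasVol.unique h h'

theorem AV.union (h : AV Ψ v) (h' : AV Ψ' v')
    (hd : ∀ (K : Type) [Field K] [Algebra k K] γ, Ψ K γ → Ψ' K γ → False) :
    AV (k := k) (fun K _ _ γ => Ψ K γ ∨ Ψ' K γ) (v + v') :=
  HasVol.union h h' fun K _ _ _ => hd K _

theorem av_false (h : ∀ (K : Type) [Field K] [Algebra k K] γ, ¬Ψ K γ) : AV Ψ 0 :=
  hasVol_false.congr fun K _ _ _ => ⟨False.elim, h K _⟩

theorem av_sum (s : Finset α) (P : α → AP k τ) (w : α → Mot k) (h : ∀ a ∈ s, AV (P a) (w a))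
    (hd : ∀ (K : Type) [Field K] [Algebra k K] γ, ∀ a ∈ s, ∀ b ∈ s, P a K γ → P b K γ → a = b) :
    AV (k := k) (fun K _ _ γ => ∃ a ∈ s, P a K γ) (∑ a ∈ s, w a) :=
  hasVol_sum s (fun a K _ _ x => P a K (ser x)) w h fun K _ _ _ => hd K _

theorem ser_coeff {K : Type} [Field K] (γ : τ → PowerSeries K) :
    ser (fun p : τ × ℕ => PowerSeries.coeff p.2 (γ p.1)) = γ := by
  funext j
  ext l
  simp [ser]

theorem AV.lev (h : AV Ψ v) : ∃ M, Lev Ψ M := by
  obtain ⟨F, c, hd, -, -⟩ := h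
  refine ⟨F.sup (·.2) + 1, fun K _ _ γ γ' e hγ => ?_⟩
  rw [← ser_coeff γ']
  refine hd K (fun p => PowerSeries.coeff p.2 (γ p.1)) _ (fun p hp => ?_) (by
    beta_reduce
    rwa [ser_coeff])
  have := PowerSeries.X_pow_dvd_iff.1 (e p.1) p.2
    (Nat.lt_succ_of_le (Finset.le_sup (f := (·.2)) hp))
  rw [map_sub, sub_eq_zero] at this
  exact this.symm

theorem AV.aut {Q : AP k (Fin 2)} {ψ ψ' : Fin 2 → P2 k} (h1 : ∀ j, aeval ψ (ψ' j) = X j)
    (h2 : ∀ j, aeval ψ' (ψ j) = X j) (h : AV (Pb ψ Q) v) : AV Q v := by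
  obtain ⟨M, hM⟩ := h.lev
  have e1 : ∀ (K : Type) [Field K] [Algebra k K] (γ : Fin 2 → PowerSeries K) j,
      aeval (fun a => aeval γ (ψ' a)) (ψ j) = γ j := fun K _ _ γ j => by
    rw [← aeval_aeval, h2, aeval_X]
  have e2 : ∀ (K : Type) [Field K] [Algebra k K] (γ : Fin 2 → PowerSeries K) j,
      aeval (fun a => aeval γ (ψ a)) (ψ' j) = γ j := fun K _ _ γ j => by
    rw [← aeval_aeval, h1, aeval_X]
  refine h.cv hM (fun K _ _ γ γ' e hγ => ?_) ψ (fun K _ _ γ h => h) (fun K _ _ γ γ' N _ e j => ?_)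
    fun K _ _ γ' hγ => ⟨fun a => aeval γ' (ψ' a), ?_, e1 K γ'⟩
  · have := hM K (fun a => aeval γ (ψ' a)) (fun a => aeval γ' (ψ' a))
      (fun j => aeval_congr_dvd e _) (by simpa only [Pb, e1] using hγ)
    simpa only [Pb, e1] using this
  · simpa only [e2] using aeval_congr_dvd e (ψ' j)
  · simpa only [Pb, e1] using hγ

theorem av_ord_le (i t : ℕ) : AV (k := k) (τ := Fin 2)
    (fun _ _ _ γ => (γ 0).order = i ∧ (t : ℕ∞) ≤ (γ 1).order)
    ((1 - Linv k) * Linv k ^ (i + t)) := by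
  have h := ((hasVol_true (k := k) (ι := Fin 2 × ℕ)).and_forall_zero (lowSet ![i, t])
    fun _ _ _ _ _ _ _ h => h).and_ne (0, i) fun K _ _ x c hx => ⟨trivial, fun p hp => by
      rw [Function.update_of_ne (by rintro rfl; simp [mem_lowSet] at hp), hx.2 p hp]⟩
  rw [card_lowSet, Fin.sum_univ_two, mul_one] at h
  refine h.congr fun K _ _ x => ?_
  beta_reduce
  rw [PowerSeries.order_eq_nat, ← dvd_iff_le_order, PowerSeries.X_pow_dvd_iff]
  simp only [ser, PowerSeries.coeff_mk, mem_lowSet, Prod.forall, Fin.forall_fin_two, true_and]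
  simp only [Matrix.cons_val_zero, Matrix.cons_val_one]
  tauto

theorem av_ord (i j : ℕ) : AV (k := k) (τ := Fin 2)
    (fun _ _ _ γ => (γ 0).order = i ∧ (γ 1).order = j)
    ((1 - Linv k) ^ 2 * Linv k ^ (i + j)) := by
  obtain ⟨v₁, v₂, h₁, h₂, e⟩ := HasVol.split (av_ord_le (k := k) i j) (X (1, j))
  have key : ∀ (K : Type) [Field K] (s : PowerSeries K), ((j + 1 : ℕ) : ℕ∞) ≤ s.order ↔
      (j : ℕ∞) ≤ s.order ∧ PowerSeries.coeff j s = 0 := fun K _ s => by
    rw [← dvd_iff_le_order, ← dvd_iff_le_order, dvd_succ_iff]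
  have e₁ : v₁ = _ := h₁.unique (HasVol.congr (av_ord_le (k := k) i (j + 1)) fun K _ _ x => by
    beta_reduce
    rw [key]
    simp [ser, and_assoc])
  have e₂ : (1 - Linv k) ^ 2 * Linv k ^ (i + j) = v₂ := by
    rw [e₁] at e
    linear_combination e
  rw [e₂]
  refine h₂.congr fun K _ _ x => ?_
  beta_reduce
  rw [PowerSeries.order_eq_nat (n := j), ← dvd_iff_le_order, PowerSeries.X_pow_dvd_iff]
  simp only [ser, PowerSeries.coeff_mk, aeval_X]
  tauto

end Tools

section Weighted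

variable {k ι ρ α : Type} [Field k] [Fintype ι] [Fintype ρ] [DecidableEq ρ]
  {Ψ Ψ' : AP k (Fin 2)} {v v' : Mot k} {n : ℕ}

theorem WV.congr (h : WV Ψ n v)
    (e : ∀ (K : Type) [Field K] [Algebra k K] γ, Ψ K γ ↔ Ψ' K γ) : WV Ψ' n v := by
  obtain ⟨M, w, h1, h2, h3⟩ := h
  exact ⟨M, w, fun K _ _ γ h => h1 K γ ((e K γ).2 h),
    fun i hi => (h2 i hi).congr fun K _ _ γ => and_congr_left' (e K γ), h3⟩

theorem WV.large (h : WV Ψ n v) : ∃ (M : ℕ) (w : ℕ → Mot k),
    (∀ (K : Type) [Field K] [Algebra k K] γ, Ψ K γ → (γ 0).order < M) ∧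
    (∀ i, AV (k := k) (fun K _ _ γ => Ψ K γ ∧ (γ 0).order = (i : ℕ)) (w i)) ∧
    ∀ M', M ≤ M' → v = ∑ i ∈ Finset.range M', Linv k ^ (n * i) * w i := by
  obtain ⟨M, w, h1, h2, h3⟩ := h
  refine ⟨M, fun i => if i < M then w i else 0, h1, fun i => ?_, fun M' hM => ?_⟩
  · beta_reduce
    split_ifs with hi
    · exact h2 i hi
    · refine av_false fun K _ _ γ h => hi ?_
      have := h1 K γ h.1
      rw [h.2] at this
      exact_mod_cast this
  · rw [h3, ← Finset.sum_subset (Finset.range_mono hM) fun i _ hi => by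
      simp [show ¬i < M by simpa using hi]]
    exact Finset.sum_congr rfl fun i hi => by simp [show i < M by simpa using hi]

theorem WV.unique (h : WV Ψ n v) (h' : WV Ψ n v') : v = v' := by
  obtain ⟨M, w, -, h2, h3⟩ := h.large
  obtain ⟨M', w', -, h2', h3'⟩ := h'.large
  rw [h3 (M + M') (by omega), h3' (M + M') (by omega)]
  exact Finset.sum_congr rfl fun i _ => by rw [(h2 i).unique (h2' i)]

theorem WV.union (h : WV Ψ n v) (h' : WV Ψ' n v')
    (hd : ∀ (K : Type) [Field K] [Algebra k K] γ, Ψ K γ → Ψ' K γ → False) :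
    WV (k := k) (fun K _ _ γ => Ψ K γ ∨ Ψ' K γ) n (v + v') := by
  obtain ⟨M, w, h1, h2, h3⟩ := h.large
  obtain ⟨M', w', h1', h2', h3'⟩ := h'.large
  refine ⟨M + M', fun i => w i + w' i, fun K _ _ γ h => ?_, fun i _ => ?_, ?_⟩
  · exact h.elim (fun h => (h1 K γ h).trans_le (by exact_mod_cast Nat.le_add_right _ _))
      fun h => (h1' K γ h).trans_le (by exact_mod_cast Nat.le_add_left _ _)
  · exact ((h2 i).union (h2' i) fun K _ _ γ h h' => hd K γ h.1 h'.1).congr fun K _ _ γ =>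
      or_and_right.symm
  · rw [h3 (M + M') (by omega), h3' (M + M') (by omega), ← Finset.sum_add_distrib]
    simp only [mul_add]

theorem wv_false (h : ∀ (K : Type) [Field K] [Algebra k K] γ, ¬Ψ K γ) : WV Ψ n 0 :=
  ⟨0, 0, fun K _ _ γ h' => (h K γ h').elim, by simp, by simp⟩

theorem wv_single {i : ℕ} (h : AV Ψ v)
    (hi : ∀ (K : Type) [Field K] [Algebra k K] γ, Ψ K γ → (γ 0).order = i) :
    WV Ψ n (Linv k ^ (n * i) * v) := by
  refine ⟨i + 1, fun j => if j = i then v else 0, fun K _ _ γ h => ?_, fun j _ => ?_, by simp⟩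
  · rw [hi K γ h]
    exact_mod_cast i.lt_succ_self
  · beta_reduce
    split_ifs with hj
    · exact h.congr fun K _ _ γ => ⟨fun h => ⟨h, hj ▸ hi K γ h⟩, fun h => h.1⟩
    · exact av_false fun K _ _ γ h => hj (by exact_mod_cast h.2.symm.trans (hi K γ h.1))

theorem wv_sum (s : Finset α) (P : α → AP k (Fin 2)) (w : α → Mot k)
    (h : ∀ a ∈ s, WV (P a) n (w a))
    (hd : ∀ (K : Type) [Field K] [Algebra k K] γ, ∀ a ∈ s, ∀ b ∈ s, P a K γ → P b K γ → a = b) :
    WV (k := k) (fun K _ _ γ => ∃ a ∈ s, P a K γ) n (∑ a ∈ s, w a) := by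
  classical
  induction s using Finset.induction_on with
  | empty => simpa using wv_false (by simp)
  | insert a s ha ih =>
    rw [Finset.sum_insert ha]
    refine ((h a (by simp)).union (ih (fun b hb => h b (by simp [hb]))
      fun K _ _ γ b hb c hc => hd K γ b (by simp [hb]) c (by simp [hc])) ?_).congr (by simp)
    rintro K _ _ γ h1 ⟨b, hb, h2⟩
    exact ha (hd K γ a (by simp) b (by simp [hb]) h1 h2 ▸ hb)

theorem wv_of_fin (s : Finset α) (P : α → AP k (Fin 2)) (o : α → ℕ) (w : α → Mot k)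
    (h : ∀ a ∈ s, AV (P a) (w a))
    (ho : ∀ a ∈ s, ∀ (K : Type) [Field K] [Algebra k K] γ, P a K γ → (γ 0).order = o a)
    (hd : ∀ (K : Type) [Field K] [Algebra k K] γ, ∀ a ∈ s, ∀ b ∈ s, P a K γ → P b K γ → a = b) :
    WV (k := k) (fun K _ _ γ => ∃ a ∈ s, P a K γ) n (∑ a ∈ s, Linv k ^ (n * o a) * w a) :=
  wv_sum s P _ (fun a ha => wv_single (h a ha) (ho a ha)) hd

theorem WV.av (h : WV Ψ 0 v) : AV Ψ v := by
  obtain ⟨M, w, h1, h2, h3⟩ := h
  simp only [zero_mul, pow_zero, one_mul] at h3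
  refine h3 ▸ (av_sum _ _ w (fun i hi => h2 i (by simpa using hi)) fun K _ _ γ a _ b _ h h' =>
    by exact_mod_cast h.2.symm.trans h'.2).congr fun K _ _ γ => ⟨fun ⟨_, _, h⟩ => h.1, fun h => ?_⟩
  have := h1 K γ h
  obtain ⟨i, hi⟩ := ENat.ne_top_iff_exists.1 this.ne_top
  exact ⟨i, by rw [← hi] at this; exact Finset.mem_range.2 (by exact_mod_cast this), h, hi.symm⟩

theorem WV.aut {ψ ψ' : Fin 2 → P2 k} (h0 : ψ 0 = X 0) (h1 : ∀ j, aeval ψ (ψ' j) = X j)
    (h2 : ∀ j, aeval ψ' (ψ j) = X j) (h : WV (Pb ψ Ψ) n v) : WV Ψ n v := by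
  obtain ⟨M, w, h3, h4, h5⟩ := h
  refine ⟨M, w, fun K _ _ γ h => ?_, fun i hi => AV.aut h1 h2 ((h4 i hi).congr fun K _ _ γ => ?_),
    h5⟩
  · have e : ψ' 0 = X 0 := by simpa [h0] using h2 0
    simpa [e] using h3 K (fun a => aeval γ (ψ' a)) (by
      simpa only [Pb, ← aeval_aeval, h2, aeval_X] using h)
  · simp [Pb, h0]

variable {A : Set (ℕ × (ρ → ℕ))} {Θ Θ' : (ρ →₀ ℕ) → AP k (Fin 2)}

theorem InR.congr (h : InR A Θ n)
    (e : ∀ e (K : Type) [Field K] [Algebra k K] γ, Θ e K γ ↔ Θ' e K γ) : InR A Θ' n :=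
  h.imp fun _ h => ⟨h.1, fun e' => (h.2 e').congr (e e')⟩

theorem InR.union (h : InR A Θ n) (h' : InR A Θ' n)
    (hd : ∀ e (K : Type) [Field K] [Algebra k K] γ, Θ e K γ → Θ' e K γ → False) :
    InR (k := k) A (fun e K _ _ γ => Θ e K γ ∨ Θ' e K γ) n := by
  obtain ⟨Z, h1, h2⟩ := h
  obtain ⟨Z', h1', h2'⟩ := h'
  exact ⟨Z + Z', add_mem h1 h1', fun e => (h2 e).union (h2' e) (hd e)⟩

theorem InR.sum (s : Finset α) (P : α → (ρ →₀ ℕ) → AP k (Fin 2)) (h : ∀ a ∈ s, InR A (P a) n)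
    (hd : ∀ e (K : Type) [Field K] [Algebra k K] γ, ∀ a ∈ s, ∀ b ∈ s,
      P a e K γ → P b e K γ → a = b) :
    InR (k := k) A (fun e K _ _ γ => ∃ a ∈ s, P a e K γ) n := by
  choose! Z h1 h2 using h
  exact ⟨∑ a ∈ s, Z a, sum_mem h1, fun e => by
    rw [map_sum]
    exact wv_sum s (fun a => P a e) _ (fun a ha => h2 a ha e) (hd e)⟩

theorem mono_mem (c : Mot k) (N : ρ → ℕ) :
    MvPowerSeries.C c * ∏ j, MvPowerSeries.X j ^ N j ∈ PR k A :=
  mul_mem (Subalgebra.algebraMap_mem _ c) (prod_mem fun j _ => pow_mem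
    (show MvPowerSeries.X j ∈ PR k A from Algebra.subset_adjoin (Or.inl ⟨j, rfl⟩)) _)

theorem mono_eq {R : Type*} [CommRing R] (c : R) (N : ρ → ℕ) :
    MvPowerSeries.C c * ∏ j, MvPowerSeries.X j ^ N j =
      MvPowerSeries.monomial (Finsupp.equivFunOnFinite.symm N) c := by
  have : ∀ s : Finset ρ, ∏ j ∈ s, (MvPowerSeries.X j : MvPowerSeries ρ R) ^ N j =
      MvPowerSeries.monomial (∑ j ∈ s, Finsupp.single j (N j)) 1 := fun s => by
    induction s using Finset.induction_on with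
    | empty => simp
    | insert j s hj ih =>
      rw [Finset.prod_insert hj, Finset.sum_insert hj, ih, MvPowerSeries.X_pow_eq,
        MvPowerSeries.monomial_mul_monomial, one_mul]
  rw [this, ← MvPowerSeries.monomial_zero_eq_C_apply, MvPowerSeries.monomial_mul_monomial, zero_add,
    mul_one]
  congr 2
  ext j
  simp [Finsupp.finsetSum_apply, Finsupp.single_apply]

theorem mem_PR_inv {ν : ℕ} {N : ρ → ℕ} (hN : N ≠ 0) (h : (ν, N) ∈ A) : ∃ G ∈ PR k A,
    G * (1 - MvPowerSeries.C (Linv k ^ ν) * ∏ j, MvPowerSeries.X j ^ N j) = 1 := by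
  obtain ⟨j, hj⟩ := Function.ne_iff.1 hN
  have h1 := (mul_comm _ _).trans (MvPowerSeries.mul_invOfUnit
    (1 - MvPowerSeries.C (Linv k ^ ν) * ∏ j, MvPowerSeries.X j ^ N j) 1 (by
      rw [map_sub, map_mul, map_prod, Finset.prod_eq_zero (Finset.mem_univ j) (by
        simpa using zero_pow hj)]
      simp))
  exact ⟨_, Algebra.subset_adjoin (Or.inr ⟨_, h, h1⟩), h1⟩

end Weighted

/-- A derivation of a domain extends to its field of fractions. -/
theorem exists_der {k A K : Type} [Field k] [CommRing A] [IsDomain A] [Algebra k A] [Field K]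
    [Algebra A K] [IsFractionRing A K] [Algebra k K] [IsScalarTower k A K] (d : Derivation k A A) :
    ∃ D : Derivation k K K, ∀ a, D (algebraMap A K a) = algebraMap A K (d a) := by
  obtain ⟨φ, hφ⟩ : ∃ φ : A →+* K, φ = algebraMap A K := ⟨_, rfl⟩
  let g : A →+* TrivSqZeroExt K K :=
    { toFun := fun a => TrivSqZeroExt.inl (φ a) + TrivSqZeroExt.inr (φ (d a))
      map_one' := by ext <;> simp
      map_mul' := fun a b => by ext <;> simp [mul_comm]
      map_zero' := by simp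
      map_add' := fun a b => by ext <;> simp }
  have g1 : ∀ a, (g a).fst = algebraMap A K a := fun a => by rw [← hφ]; simp [g]
  have g2 : ∀ a, (g a).snd = algebraMap A K (d a) := fun a => by rw [← hφ]; simp [g]
  have hg : ∀ y : nonZeroDivisors A, IsUnit (g y) := fun y => by
    rw [TrivSqZeroExt.isUnit_iff_isUnit_fst, g1]
    exact IsLocalization.map_units K y
  obtain ⟨G, hG⟩ : ∃ G : K →+* TrivSqZeroExt K K, ∀ a, G (algebraMap A K a) = g a :=
    ⟨IsLocalization.lift (S := K) hg, IsLocalization.lift_eq hg⟩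
  have h1 : ∀ z, (G z).fst = z := fun z => RingHom.congr_fun (IsLocalization.ringHom_ext
    (nonZeroDivisors A) (j := (TrivSqZeroExt.fstHom K K K).toRingHom.comp G) (k := RingHom.id K)
    (RingHom.ext fun a => (congrArg TrivSqZeroExt.fst (hG a)).trans (g1 a))) z
  have h2 : ∀ z z', (G (z * z')).snd = z • (G z').snd + z' • (G z).snd := fun z z' => by
    rw [map_mul, TrivSqZeroExt.snd_mul, h1, h1, op_smul_eq_smul]
  refine ⟨Derivation.mk' ⟨⟨fun z => (G z).snd, fun z z' => by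
    rw [map_add, TrivSqZeroExt.snd_add]⟩, fun c z => ?_⟩ h2, fun a =>
    (congrArg TrivSqZeroExt.snd (hG a)).trans (g2 a)⟩
  change (G (c • z)).snd = c • (G z).snd
  rw [Algebra.smul_def, Algebra.smul_def, h2, IsScalarTower.algebraMap_apply k A K, hG, g2,
    d.map_algebraMap, map_zero, smul_zero, add_zero, smul_eq_mul]

end

end Pool.Agent.P.MP_b91a16_ag.Id
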