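import Pool.Agent.P.MP_b91a16_ag.Id.Ind

/-! Ideals in two variables: the first blow-up. -/

set_option linter.unusedSectionVars false

open MvPolynomial

namespace Pool.Agent.P.MP_b91a16_ag.Id

noncomputable section

variable {k ι ρ : Type} [Field k] [Fintype ι] [Fintype ρ] [DecidableEq ρ]
  {A : Set (ℕ × (ρ → ℕ))} {g f : ι → P2 k} {β : ι → ρ} {n p q p' q' : ℕ} {a m : ρ → ℕ}

theorem coeff_sw (x y : ℕ) (G : P2 k) : coeff (ex x y) (aeval (sw k) G) = coeff (ex y x) G := by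
  classical
  induction G using MvPolynomial.induction_on' with
  | add G G' h h' => rw [map_add, coeff_add, coeff_add, h, h']
  | monomial v c =>
    have : aeval (sw k) (monomial v c) = monomial (ex (v 1) (v 0)) c := by
      conv_lhs => rw [← ex_eta v]
      simp [monomial_ex, sw, mul_right_comm]
    rw [this, coeff_monomial, coeff_monomial]
    congr 1
    simp only [Finsupp.ext_iff, Fin.forall_fin_two, ex_zero, ex_one, and_comm]

theorem Nd.sw (h : Nd 1 1 g β a m) : St 1 1 (pb (sw k) g) β m a := by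
  have key : ∀ i, ∀ v ∈ (pb (Id.sw k) g i).support, ex (v 1) (v 0) ∈ (g i).support := fun i v hv => by
    rwa [mem_support_iff, ← ex_eta v, pb, coeff_sw, ← mem_support_iff] at hv
  refine ⟨fun j => (h.1 j).imp fun i hi => ⟨hi.1, by rw [pb, coeff_sw]; exact hi.2⟩,
    fun i v hv => ?_, fun i v hv h1 => ?_⟩
  all_goals
    have h2 := h.2.1 i _ (key i v hv)
    have h3 := h.2.2 i _ (key i v hv)
    simp only [wt, ex_zero, ex_one] at h2 h3 ⊢
    omega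

theorem av_sw {Θ Θ' : AP k (Fin 2)} {v : Mot k}
    (e : ∀ (K : Type) [Field K] [Algebra k K] γ, Θ' K γ ↔ Pb (sw k) Θ K γ)
    (h : WV (An (Cone k q' p' q p) Θ') 0 v) : AV (An (Cone k p q p' q') Θ) v :=
  AV.aut (ψ := sw k) (ψ' := sw k) (by simp [Fin.forall_fin_two, sw]) (by simp [Fin.forall_fin_two, sw])
    (h.av.congr fun K _ _ γ => and_congr (by simp [Cone, sw, and_comm]) (e K γ))

theorem mon_sw (e : ρ →₀ ℕ) (K : Type) [Field K] [Algebra k K] (γ : Fin 2 → PowerSeries K) :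
    Mon k m a e K γ ↔ Pb (sw k) (Mon k a m e) K γ := by
  simp [Pb, Mon, sw, add_comm]

theorem Hyp.tri (H : Hyp k ι ρ) {Θ : AP k (Fin 2)} (h1 : q < p) (h2 : p' < q')
    (hΘ : ∀ (K : Type) [Field K] [Algebra k K] γ, Θ K γ → (γ 0).order ≠ ⊤ ∨ (γ 1).order ≠ ⊤)
    {v₁ v₂ v₃ : Mot k} (h₁ : AV (An (Cone k p q 1 1) Θ) v₁) (h₂ : AV (An (Ray k 1 1) Θ) v₂)
    (h₃ : AV (An (Cone k 1 1 p' q') Θ) v₃) : AV (An (Cone k p q p' q') Θ) (v₁ + (v₂ + v₃)) := by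
  have hs := H.split p q 1 1 p' q' one_pos one_pos (by simp) (by simpa using h1) (by simpa using h2)
  refine (h₁.union (h₂.union h₃ fun K _ _ γ h h' => (hs K γ).2.2.2 ⟨h.1, h'.1⟩)
    fun K _ _ γ h h' => h'.elim (fun h' => (hs K γ).2.1 ⟨h.1, h'.1⟩)
      fun h' => (hs K γ).2.2.1 ⟨h.1, h'.1⟩).congr fun K _ _ γ => ?_
  have h2 := fun h => (hs K γ).1 (hΘ K γ h)
  simp only [An]
  tauto

theorem cen_iff {K : Type} [Field K] [Algebra k K] {γ : Fin 2 → PowerSeries K} :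
    Cone k 1 0 0 1 K γ ↔ ∀ j, PowerSeries.X ∣ γ j := by
  simp [Cone, Fin.forall_fin_two, pos_iff_ne_zero, PowerSeries.X_dvd_iff, and_comm,
    PowerSeries.order_ne_zero_iff_constCoeff_eq_zero]

theorem lin_lin (B B' : Matrix (Fin 2) (Fin 2) k) (j : Fin 2) :
    aeval (lin B) (lin B' j) = lin (B' * B) j := by
  simp [lin, Matrix.mul_apply, Fin.sum_univ_two]
  ring

theorem lin_one (j : Fin 2) : lin (1 : Matrix (Fin 2) (Fin 2) k) j = X j := by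
  fin_cases j <;> simp [lin, Matrix.one_apply]

theorem av_lin {B : Matrix (Fin 2) (Fin 2) k} (hB : B.det ≠ 0) {e : ρ →₀ ℕ} {v : Mot k}
    (h : AV (An (Cone k 1 0 0 1) (Ord (pb (lin B) f) β e)) v) :
    AV (An (Cone k 1 0 0 1) (Ord f β e)) v := by
  have h1 : ∀ j, aeval (lin B) (lin B⁻¹ j) = X j := fun j => by
    rw [lin_lin, Matrix.nonsing_inv_mul _ (Ne.isUnit hB), lin_one]
  have h2 : ∀ (B : Matrix (Fin 2) (Fin 2) k) (K : Type) [Field K] [Algebra k K]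
      (γ : Fin 2 → PowerSeries K), (∀ j, PowerSeries.X ∣ γ j) → ∀ j,
      PowerSeries.X ∣ aeval γ (lin B j) := fun B K _ _ γ h j => by
    simpa [lin] using dvd_aeval_sub_const h (lin B j)
  refine AV.aut (ψ := lin B) h1 (fun j => by
    rw [lin_lin, Matrix.mul_nonsing_inv _ (Ne.isUnit hB), lin_one]) (h.congr fun K _ _ γ => ?_)
  rw [Ord_pb]
  refine and_congr_left' (cen_iff.trans (Iff.trans ⟨h2 B K γ, fun h j => ?_⟩ cen_iff.symm))
  simpa only [← aeval_aeval, h1, aeval_X] using h2 B⁻¹ K _ h j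

theorem nv_comm (p q : ℕ) (a m : ρ → ℕ) : nv p q m a = nv q p a m := by
  ext
  simp [nv, add_comm]

theorem Hyp.real (H : Hyp k ι ρ) (hD : Nd 1 1 f β a m) (hN : nv 1 1 a m ≠ 0)
    (hF : Fam 1 1 f β a m 3 ∨ a ≠ 0 ∧ Fam 1 1 f β a m 2) : ∃ Z ∈ PR k (Alw f β),
      ∀ e, AV (An (Cone k 1 0 0 1) (Ord f β e)) (MvPowerSeries.coeff e Z) := by
  have e0 : pb (lin 1) f = f := by
    funext i
    rw [pb, _root_.funext lin_one, aeval_X_left_apply]
  have hπ : Ch (lin (1 : Matrix (Fin 2) (Fin 2) k)) 0 := H.chLin.1 1 (by simp)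
  have e1 : ∀ w : ρ → ℚ, ∑ j, w j * nv 1 1 a m j = (1 : ℕ) * ((0 : ℕ) + 1) + (1 : ℕ) →
      ∑ j, w j * a j + ∑ j, w j * m j = 2 := fun w e => by
    rw [← Finset.sum_add_distrib, show (2 : ℚ) = _ from (e.trans (by norm_num)).symm]
    exact Finset.sum_congr rfl fun j _ => by simp [nv, mul_add]
  have h0 : ∀ w : ρ → ℚ, (∀ j, 0 < w j) → ∀ j ∈ Finset.univ, 0 ≤ w j * a j := fun w hw j _ => by
    have := hw j
    positivity
  have hA : (1 * (0 + 1) + 1, nv 1 1 a m) ∈ Alw f β := by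
    rcases hF with h | ⟨h, h'⟩
    · exact H.rootA f β _ 0 1 1 3 a m hπ one_pos one_pos (e0.symm ▸ hD.2.1) hN (e0.symm ▸ h)
        fun w hw e => Or.inr ⟨by linarith [e1 w e, Finset.sum_nonneg (h0 w hw)], le_rfl⟩
    · obtain ⟨j, hj⟩ := Function.ne_iff.1 h
      exact H.rootA f β _ 0 1 1 2 a m hπ one_pos one_pos (e0.symm ▸ hD.2.1) hN (e0.symm ▸ h')
        fun w hw e => Or.inl ⟨by
          linarith [e1 w e, Finset.sum_pos' (h0 w hw) ⟨j, Finset.mem_univ j,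
            mul_pos (hw j) (by exact_mod_cast Nat.pos_of_ne_zero hj)⟩], le_rfl⟩
  obtain ⟨a₁, b, h1, h2, -⟩ := H.bottom 1 1 f β a m one_pos hD.1 hD.2.1
  obtain ⟨Z₃, h3, h4⟩ := (H.claim f β _ _ 0 1 1 a₁ b (Nat.lt_succ_self _) hπ one_pos (e0.symm ▸ h1)
    (h2.symm ▸ hN) (Or.inr ⟨rfl, le_rfl⟩)).inR H (h2.symm ▸ hN) (h2.symm ▸ hA)
  obtain ⟨Z₁, h5, h6⟩ := (H.claim f β _ _ 0 1 1 m a (Nat.lt_succ_self _) (H.chLin.2 _ hπ) one_pos
    (by rw [← pb_pb, e0]; exact hD.sw) (nv_comm 1 1 a m ▸ hN) (Or.inr ⟨rfl, le_rfl⟩)).inR H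
    (nv_comm 1 1 a m ▸ hN) (nv_comm 1 1 a m ▸ hA)
  obtain ⟨Z₂, h7, h8⟩ := H.ray_in one_pos one_pos (by simp) hπ (e0.symm ▸ hD) hN hA (Or.inr rfl)
    fun π' n' mc _ h' => H.claim f β _ π' n' 1 0 _ mc (Nat.lt_succ_self _) h' one_pos
  rw [← pb_pb, e0] at h6
  rw [e0] at h4 h8
  exact ⟨Z₁ + (Z₂ + Z₃), add_mem h5 (add_mem h7 h3), fun e => H.tri one_pos one_pos
    (H.fin 1 1 f β a m e hD.2.1 hN) (av_sw (fun K _ _ γ => by rw [Ord_pb]) (h6 e)) (h8 e).av (h4 e).av⟩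

theorem Hyp.big (H : Hyp k ι ρ) (hN : nv 1 1 a m ≠ 0) (hlt : q * p' < p * q')
    (h : Alt A 0 p' q' a m) (h' : Alt A 0 q p m a) : ∃ Z ∈ PR k A,
      ∀ e, AV (An (Cone k p q p' q') (Mon k a m e)) (MvPowerSeries.coeff e Z) := by
  rcases h' with h' | ⟨h1, h2⟩
  · rcases h with h | ⟨h1, h2⟩
    · exact (hN (by ext; simp [nv, h.1, h'.1])).elim
    obtain ⟨Z, h3, h4⟩ := H.cone_in (n := 0) (p := q') (q := p') (nv_comm q' p' a m ▸ h1)
      (by rw [nv_comm]; convert h2 using 2; omega) (by rwa [mul_comm p', mul_comm q']) (Or.inl h')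
    exact ⟨Z, h3, fun e => av_sw (mon_sw e) (h4 e)⟩
  · obtain ⟨Z, h3, h4⟩ := H.cone_in (nv_comm p q m a ▸ h1)
      (by rw [nv_comm]; convert h2 using 2; omega) hlt h
    exact ⟨Z, h3, fun e => (h4 e).av⟩

theorem av_ray (hN : nv 1 1 a m ≠ 0) (e : ρ →₀ ℕ) : ∃ v, AV (An (Ray k 1 1) (Mon k a m e)) v := by
  by_cases h : ∃ i, 0 < i ∧ ∀ j, a j * i + m j * i = e j
  · obtain ⟨i, h1, h2⟩ := h
    refine ⟨_, (av_ord i i).congr fun K _ _ γ => ⟨fun h => ⟨⟨i, h1, by simpa using h⟩, fun j => ?_⟩,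
      fun ⟨⟨i', _, h3, h4⟩, h5⟩ => ?_⟩⟩
    · rw [h.1, h.2]
      exact_mod_cast h2 j
    · obtain ⟨j, hj⟩ := Function.ne_iff.1 hN
      have h6 := h5 j
      rw [h3, h4, ← h2 j, one_mul] at h6
      have h7 : (a j + m j) * i' = (a j + m j) * i := by
        rw [add_mul, add_mul]
        exact_mod_cast h6
      rw [h3, h4, one_mul, mul_left_cancel₀ (by simpa [nv] using hj) h7]
      exact ⟨rfl, rfl⟩
  · refine ⟨0, av_false fun K _ _ γ ⟨⟨i, h1, h3, h4⟩, h5⟩ => h ⟨i, h1, fun j => ?_⟩⟩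
    have h6 := h5 j
    rw [h3, h4, one_mul] at h6
    exact_mod_cast h6

theorem Hyp.fake (H : Hyp k ι ρ) {π : Fin 2 → P2 k} (hπ : Ch π 0) (hH : Has (pb π f) β a m)
    (h : ∀ i, ∀ v ∈ (pb π f i).support, v ≠ ex (a (β i)) (m (β i)) →
      a (β i) + m (β i) < v 0 + v 1) : ∃ Z ∈ PR k (Alw f β),
      ∀ e, AV (An (Cone k 1 0 0 1) (Ord (pb π f) β e)) (MvPowerSeries.coeff e Z) := by
  have h0 : ∀ i, ∀ v ∈ (pb π f i).support, v 0 = a (β i) ∧ v 1 = m (β i) ∨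
      a (β i) + m (β i) < v 0 + v 1 := fun i v hv =>
    (em _).imp (fun e => by rw [e]; simp) (h i v hv)
  have hL : Lo 1 1 (pb π f) β a m := fun i v hv => by have := h0 i v hv; simp only [wt]; omega
  by_cases hN : nv 1 1 a m = 0
  · obtain ⟨v, hv⟩ := (hasVol_true (k := k) (ι := Fin 2 × ℕ)).and_forall_eq Finset.univ
      fun j : Fin 2 => X (j, 0)
    have ha : ∀ j, a j = 0 ∧ m j = 0 := fun j => by simpa [nv] using congrFun hN j
    have key : ∀ e (K : Type) [Field K] [Algebra k K] γ, Cone k 1 0 0 1 K γ →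
        (Ord (pb π f) β e K γ ↔ e = 0) := fun e K _ _ γ hγ => by
      refine (H.ordGen _ β a m e hH K γ fun i v hv hne => Or.inl ?_).trans (by
        simp [Mon, ha, Finsupp.ext_iff, eq_comm (a := (0 : ℕ∞))])
      have h1 := h i v hv hne
      simp only [Cone, Nat.cast_zero, zero_mul, Nat.cast_one, one_mul] at hγ
      simp only [ha, Nat.cast_zero, zero_mul, add_zero, add_pos_iff] at h1 ⊢
      exact h1.imp (fun h => CanonicallyOrderedAdd.mul_pos.2 ⟨by exact_mod_cast h, hγ.2⟩)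
        fun h => CanonicallyOrderedAdd.mul_pos.2 ⟨by exact_mod_cast h, hγ.1⟩
    refine ⟨algebraMap _ _ v, Subalgebra.algebraMap_mem _ _, fun e => ?_⟩
    change AV _ (MvPowerSeries.coeff e (MvPowerSeries.C v))
    rw [MvPowerSeries.coeff_C]
    split_ifs with he
    · refine hv.congr fun K _ _ x => Iff.trans ?_ (and_iff_left_of_imp fun h => (key e K _ h).2 he).symm
      simp [cen_iff, PowerSeries.X_dvd_iff, ser]
    · exact av_false fun K _ _ γ h => he ((key e K γ h.1).1 h.2)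
  have hD : Nd 1 1 (pb π f) β a m :=
    ⟨hH, hL, fun i v hv => by have := h0 i v hv; simp only [wt]; omega⟩
  obtain ⟨p', q', h1, h2, h3⟩ := H.claim f β _ π 0 1 1 a m (Nat.lt_succ_self _) hπ one_pos
    ⟨hH, hL, fun i v hv => by have := h0 i v hv; simp only [wt]; omega⟩ hN (Or.inr ⟨rfl, le_rfl⟩)
  obtain ⟨q, p, g1, g2, g3⟩ := H.claim f β _ _ 0 1 1 m a (Nat.lt_succ_self _) (H.chLin.2 _ hπ)
    one_pos (by rw [← pb_pb]; exact hD.sw) (nv_comm 1 1 a m ▸ hN) (Or.inr ⟨rfl, le_rfl⟩)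
  obtain ⟨Y₃, -, h4⟩ := H.cone_in (A := Set.univ) hN trivial h1 (h2.imp id fun h => ⟨h.1, trivial⟩)
  obtain ⟨Y₁, -, g4⟩ := H.cone_in (A := Set.univ) (nv_comm 1 1 a m ▸ hN) trivial g1
    (g2.imp id fun h => ⟨h.1, trivial⟩)
  obtain ⟨Z₃, h5, h6⟩ := h3 Y₃ h4
  obtain ⟨Z₁, g5, g6⟩ := g3 Y₁ g4
  rw [one_mul, one_mul] at h1 g1
  obtain ⟨Z, h7, h8⟩ := H.big hN (Nat.mul_lt_mul'' g1 h1) h2 g2
  rw [← pb_pb] at g6
  refine ⟨Z + (Z₁ + Z₃), add_mem h7 (add_mem g5 h5), fun e => ?_⟩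
  obtain ⟨v, hv⟩ := av_ray (k := k) hN e
  have e1 := (h8 e).unique (H.tri g1 h1 (fun K _ _ γ hγ => by
    obtain ⟨j, hj⟩ := Function.ne_iff.1 hN
    by_contra! h
    have h9 := hγ j
    rw [h.1, h.2, ← add_mul, ← Nat.cast_add, ENat.mul_top (by simpa [nv] using hj)] at h9
    exact ENat.top_ne_natCast _ h9) (av_sw (mon_sw e) (g4 e)) hv (h4 e).av)
  have hv' : AV (An (Ray k 1 1) (Ord (pb π f) β e)) v := hv.congr fun K _ _ γ =>
    and_congr_right fun ⟨i, h1, h3, h4⟩ => (H.ordGen _ β a m e hH K γ fun i' w hw hne => Or.inl (by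
      rw [h3, h4, one_mul, ← add_mul, ← add_mul]
      exact_mod_cast Nat.mul_lt_mul_of_pos_right (h i' w hw hne) h1)).symm
  convert H.tri one_pos one_pos (H.fin 1 1 _ β a m e hL hN)
    (av_sw (fun K _ _ γ => by rw [Ord_pb]) (g6 e)) hv' (h6 e).av using 1
  simp only [map_add, e1]
  ring

theorem Hyp.core (H : Hyp k ι ρ) (hf : ∀ j, ∃ i, β i = j ∧ f i ≠ 0) : ∃ Z ∈ PR k (Alw f β),
    ∀ e, AV (An (Cone k 1 0 0 1) (Ord f β e)) (MvPowerSeries.coeff e Z) := by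
  rcases H.r0 f β hf with ⟨B, a, m, h1, h2, h3⟩ | ⟨a, m, h1, h2, h3⟩
  · obtain ⟨Z, h4, h5⟩ := H.fake (H.chLin.1 B h1) h2 h3
    exact ⟨Z, h4, fun e => av_lin h1 (h5 e)⟩
  · exact H.real h1 h2 h3

end

end Pool.Agent.P.MP_b91a16_ag.Id
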