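import Pool.Agent.P.MP_b91a16_ag.Contact
import Pool.Agent.P.MP_b91a16_ag.DefsLoc

/-! Ideals in two variables: the objects of the Newton process (interface file). -/

open MvPolynomial

namespace Pool.Agent.P.MP_b91a16_ag.Id

noncomputable section

abbrev P2 (k : Type) [Field k] : Type := MvPolynomial (Fin 2) k

variable {k ι ρ Λ τ : Type} [Field k] [Fintype ι] [Fintype ρ] [DecidableEq ρ] [Fintype Λ]

/-! ### Newton data.  `g i` generate the ideal number `β i`. -/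

def ex (a m : ℕ) : Fin 2 →₀ ℕ := Finsupp.single 0 a + Finsupp.single 1 m

def wt (p q : ℕ) (v : Fin 2 →₀ ℕ) : ℕ := p * v 0 + q * v 1

def Has (g : ι → P2 k) (β : ι → ρ) (a m : ρ → ℕ) : Prop :=
  ∀ j, ∃ i, β i = j ∧ coeff (ex (a j) (m j)) (g i) ≠ 0

def Lo (p q : ℕ) (g : ι → P2 k) (β : ι → ρ) (a m : ρ → ℕ) : Prop :=
  ∀ i, ∀ v ∈ (g i).support, p * a (β i) + q * m (β i) ≤ wt p q v

/-- `(a, m)` is the lowest point of the face of weight `(p, q)`. -/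
def St (p q : ℕ) (g : ι → P2 k) (β : ι → ρ) (a m : ρ → ℕ) : Prop :=
  Has g β a m ∧ Lo p q g β a m ∧
    ∀ i, ∀ v ∈ (g i).support, v 1 < m (β i) → p * a (β i) + q * m (β i) < wt p q v

/-- `(a, m)` is the highest point of the face of weight `(p, q)`. -/
def Nd (p q : ℕ) (g : ι → P2 k) (β : ι → ρ) (a m : ρ → ℕ) : Prop :=
  Has g β a m ∧ Lo p q g β a m ∧
    ∀ i, ∀ v ∈ (g i).support, wt p q v = p * a (β i) + q * m (β i) → v 1 ≤ m (β i)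

/-- The face is not a pure power `(Y - c X^q)^m`, `c ≠ 0`. -/
def NF (p q : ℕ) (g : ι → P2 k) (β : ι → ρ) (a m : ρ → ℕ) : Prop :=
  ∃ i, 0 < m (β i) ∧ coeff (ex (a (β i)) (m (β i))) (g i) ≠ 0 ∧
    (p = 1 → coeff (ex (a (β i) + q) (m (β i) - 1)) (g i) = 0)

def nv (p q : ℕ) (a m : ρ → ℕ) : ρ → ℕ := fun j => p * a j + q * m j

/-- The terms of weight `N`, at `X = W^u`, `Y = W^w`. -/
def ini (p q N u w : ℕ) (G : P2 k) : Polynomial k :=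
  ∑ v ∈ G.support.filter fun v => wt p q v = N, Polynomial.monomial (wt u w v) (coeff v G)

def Ini (G : P2 k) (N : ℕ) (φ : Polynomial k) : Prop :=
  ∃ r, G = X 0 ^ N * (Polynomial.aeval (X 1) φ + X 0 * r)

/-! ### Polynomial maps of the plane -/

def pb (π : Fin 2 → P2 k) (g : ι → P2 k) : ι → P2 k := fun i => aeval π (g i)

def sh (φ : Polynomial k) : Fin 2 → P2 k := ![X 0, X 1 + Polynomial.aeval (X 0) φ]

variable (k) in
def tor (p q u w : ℕ) : Fin 2 → P2 k := ![X 0 ^ p * X 1 ^ u, X 0 ^ q * X 1 ^ w]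

def tr (c : k) : Fin 2 → P2 k := ![X 0, X 1 + C c]

def lin (A : Matrix (Fin 2) (Fin 2) k) : Fin 2 → P2 k := fun i => ∑ j, C (A i j) * X j

variable (k) in
def sw : Fin 2 → P2 k := ![X 1, X 0]

def Jac (π : Fin 2 → P2 k) : P2 k :=
  pderiv 0 (π 0) * pderiv 1 (π 1) - pderiv 1 (π 0) * pderiv 0 (π 1)

def Ch (π : Fin 2 → P2 k) (n : ℕ) : Prop :=
  (∀ i, constantCoeff (π i) = 0) ∧ ∃ u, constantCoeff u ≠ 0 ∧ Jac π = X 0 ^ n * u

/-- The formal shear `Y ↦ Y + φ(X)`. -/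
def Φs (φ : PowerSeries k) : P2 k →ₐ[k] Polynomial (PowerSeries k) :=
  aeval ![Polynomial.C PowerSeries.X, Polynomial.X + Polynomial.C φ]

/-! ### Arcs and volumes -/

abbrev AP (k : Type) [Field k] (τ : Type) : Type 1 :=
  ∀ (K : Type) [Field K] [Algebra k K], (τ → PowerSeries K) → Prop

def AV (Ψ : AP k τ) (v : Mot k) : Prop := HasVol (k := k) (fun K _ _ x => Ψ K (ser x)) v

def Lev (Ψ : AP k τ) (M : ℕ) : Prop := ∀ (K : Type) [Field K] [Algebra k K]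
  (γ γ' : τ → PowerSeries K), (∀ j, PowerSeries.X ^ M ∣ γ' j - γ j) → Ψ K γ → Ψ K γ'

def An (Ψ Ψ' : AP k τ) : AP k τ := fun K _ _ γ => Ψ K γ ∧ Ψ' K γ

/-- Pull-back of a set of arcs along a polynomial map. -/
def Pb (ψ : Fin 2 → P2 k) (Ψ : AP k (Fin 2)) : AP k (Fin 2) :=
  fun K _ _ γ => Ψ K fun j => aeval γ (ψ j)

/-- The ideal number `j` has order `e j` along the arc. -/
def Ord (g : ι → P2 k) (β : ι → ρ) (e : ρ →₀ ℕ) : AP k (Fin 2) := fun _ _ _ γ =>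
  ∀ j, (∀ i, β i = j → PowerSeries.X ^ e j ∣ aeval γ (g i)) ∧
    ∃ i, β i = j ∧ ¬PowerSeries.X ^ (e j + 1) ∣ aeval γ (g i)

variable (k) in
def Mon (a m : ρ → ℕ) (e : ρ →₀ ℕ) : AP k (Fin 2) := fun _ _ _ γ =>
  ∀ j, (a j : ℕ∞) * (γ 0).order + (m j : ℕ∞) * (γ 1).order = e j

variable (k) in
/-- `q₁/p₁ < ord Y / ord X < q₂/p₂`. -/
def Cone (p₁ q₁ p₂ q₂ : ℕ) : AP k (Fin 2) := fun _ _ _ γ =>
  (q₁ : ℕ∞) * (γ 0).order < p₁ * (γ 1).order ∧ (p₂ : ℕ∞) * (γ 1).order < q₂ * (γ 0).order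

variable (k) in
def Ray (p q : ℕ) : AP k (Fin 2) := fun _ _ _ γ =>
  ∃ i : ℕ, 0 < i ∧ (γ 0).order = (p * i : ℕ) ∧ (γ 1).order = (q * i : ℕ)

/-- Volume for the measure `|X|^n dX dY`. -/
def WV (Ψ : AP k (Fin 2)) (n : ℕ) (v : Mot k) : Prop :=
  ∃ (M : ℕ) (w : ℕ → Mot k),
    (∀ (K : Type) [Field K] [Algebra k K] γ, Ψ K γ → (γ 0).order < M) ∧
    (∀ i < M, AV (k := k) (fun K _ _ γ => Ψ K γ ∧ (γ 0).order = (i : ℕ)) (w i)) ∧
    v = ∑ i ∈ Finset.range M, Linv k ^ (n * i) * w i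

def Gen (Ψ : (ρ →₀ ℕ) → AP k (Fin 2)) (n : ℕ) (Z : MvPowerSeries ρ (Mot k)) : Prop :=
  ∀ e, WV (Ψ e) n (MvPowerSeries.coeff e Z)

variable (k) in
def PR (A : Set (ℕ × (ρ → ℕ))) : Subalgebra (Mot k) (MvPowerSeries ρ (Mot k)) :=
  Algebra.adjoin (Mot k) (Set.range MvPowerSeries.X ∪
    {G | ∃ p ∈ A, G * (1 - MvPowerSeries.C (Linv k ^ p.1) * ∏ j, MvPowerSeries.X j ^ p.2 j) = 1})

def InR (A : Set (ℕ × (ρ → ℕ))) (Ψ : (ρ →₀ ℕ) → AP k (Fin 2)) (n : ℕ) : Prop :=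
  ∃ Z ∈ PR k A, Gen Ψ n Z

/-! ### Bernstein-Sato equations in twisted form -/

def mem (lam : Λ → ι → k) (f : ι → P2 k) (l : Λ) : P2 k := ∑ i, C (lam l i) * f i

def bs (blk : Λ → ρ) (s : Λ → ℚ) : ρ → k := fun j => ((∑ l with blk l = j, s l : ℚ) : k)

/-- `b(s) h f^s` lies in the `D`-module generated by the sections `f^γ f^(s - α)`, where `γ` has
one more factor than `α` in each ideal. -/
def Tw (f : ι → P2 k) (β : ι → ρ) (h : P2 k) (b : MvPolynomial ρ k) : Prop :=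
  ∀ (Λ : Type) [Fintype Λ] (blk : Λ → ρ) (lam : Λ → ι → k) (s : Λ → ℚ)
    (K : Type) [Field K] [Algebra k K] (π : P2 k →ₐ[k] K) (D : Fin 2 → Derivation k K K)
    (V : Submodule k K), (∀ l i, lam l i ≠ 0 → β i = blk l) →
    (∀ i j, D i (π (X j)) = if i = j then 1 else 0) → (∀ l, π (mem lam f l) ≠ 0) →
    (∀ (α : Λ → ℕ) (γ : ι → ℕ), (∀ j, ∑ i with β i = j, γ i = ∑ l with blk l = j, α l + 1) →
      (∏ i, π (f i) ^ γ i) / ∏ l, π (mem lam f l) ^ α l ∈ V) →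
    (∀ z ∈ V, ∀ j, π (X j) * z ∈ V) →
    (∀ z ∈ V, ∀ i, D i z + (∑ l, (s l : K) * (D i (π (mem lam f l)) / π (mem lam f l))) * z ∈ V) →
    eval (bs blk s) b • π h ∈ V

/-- The admissible pairs `(ν, N)`. -/
def Alw (f : ι → P2 k) (β : ι → ρ) : Set (ℕ × (ρ → ℕ)) :=
  {p | 0 < p.1 ∧ p.2 ≠ 0 ∧ ∀ h b, constantCoeff h ≠ 0 → Tw f β h b → ∀ s : ρ → ℚ,
    (∀ j, s j < 0) → ∑ j, (p.2 j : ℚ) * s j + p.1 = 0 → eval (fun j => (s j : k)) b = 0}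

open Classical in
/-- The form `∏ φ_l^(s_l) dW` is exact: `β' + (∑ s_l φ_l'/φ_l) β = 1` for `β = P/Q`. -/
def Exact (φ : Λ → Polynomial k) (s : Λ → ℚ) : Prop :=
  ∃ P Q : Polynomial k, Q ≠ 0 ∧
    (∏ l, φ l) * (P.derivative * Q - P * Q.derivative) +
      (∑ l, Polynomial.C (s l : k) * (φ l).derivative * ∏ l' ∈ Finset.univ.erase l, φ l') * P * Q =
      (∏ l, φ l) * Q ^ 2

/-- The hypersurface `∑ y_i f_i(x_1, x_2)`. -/
def gI {r : ℕ} (f : Fin r → P2 k) : MvPolynomial (Fin (2 + r)) k :=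
  ∑ i, X (Fin.natAdd 2 i) * rename (Fin.castAdd r) (f i)

end

end Pool.Agent.P.MP_b91a16_ag.Id
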