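import Pool.Agent.P.MP_b91a16_ag.Id.Core
import Pool.Agent.P.MP_b91a16_ag.BernLoc

/-! Ideals in two variables: from the ideal to the hypersurface. -/

set_option linter.unusedSectionVars false

open MvPolynomial

namespace Pool.Agent.P.MP_b91a16_ag.Id

noncomputable section

variable {k : Type} [Field k]

theorem PR_fin {A : Set (ℕ × (Unit → ℕ))} {Z : MvPowerSeries Unit (Mot k)} (h : Z ∈ PR k A) :
    ∃ S : Finset (ℕ × ℕ), (∀ p ∈ S, (p.1, fun _ => p.2) ∈ A) ∧ Z ∈ poleRing k S := by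
  have two : ∀ {Z Z' : MvPowerSeries Unit (Mot k)},
      (∃ S : Finset (ℕ × ℕ), (∀ p ∈ S, (p.1, fun _ => p.2) ∈ A) ∧ Z ∈ poleRing k S) →
      (∃ S : Finset (ℕ × ℕ), (∀ p ∈ S, (p.1, fun _ => p.2) ∈ A) ∧ Z' ∈ poleRing k S) →
      ∃ S : Finset (ℕ × ℕ), (∀ p ∈ S, (p.1, fun _ => p.2) ∈ A) ∧ Z ∈ poleRing k S ∧
        Z' ∈ poleRing k S := fun ⟨S, h1, h2⟩ ⟨S', h1', h2'⟩ =>
    ⟨S ∪ S', fun p hp => (Finset.mem_union.1 hp).elim (h1 p) (h1' p),
      poleRing_mono Finset.subset_union_left h2, poleRing_mono Finset.subset_union_right h2'⟩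
  induction h using Algebra.adjoin_induction with
  | mem G h =>
    rcases h with ⟨_, rfl⟩ | ⟨p, h1, h2⟩
    · exact ⟨∅, by simp, X_mem_poleRing _⟩
    · exact ⟨{(p.1, p.2 ())}, by simpa using h1, Algebra.subset_adjoin (Or.inr
        ⟨_, Finset.mem_singleton_self _, by rw [Fintype.prod_unique] at h2; exact h2⟩)⟩
  | algebraMap c => exact ⟨∅, by simp, Subalgebra.algebraMap_mem _ c⟩
  | add _ _ _ _ h h' => exact (two h h').imp fun S h => ⟨h.1, add_mem h.2.1 h.2.2⟩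
  | mul _ _ _ _ h h' => exact (two h h').imp fun S h => ⟨h.1, mul_mem h.2.1 h.2.2⟩

theorem gI_ne {r : ℕ} {f : Fin r → P2 k} (hf : f ≠ 0) : gI f ≠ 0 := fun h => hf (by
  funext i
  have := congrArg (aeval (Fin.addCases (motive := fun _ => P2 k) X (Pi.single i 1))) h
  simp only [gI, map_sum, map_mul, aeval_rename, Function.comp_def, aeval_X, Fin.addCases_left,
    Fin.addCases_right, aeval_X_left_apply] at this
  simpa [Pi.single_apply] using this)

theorem main_of [CharZero k] {r : ℕ} (H : Hyp k (Fin r) Unit) (htw : S_tw k) (hlin : S_lin k)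
    (f : Fin r → P2 k) (hf : f ≠ 0) :
    ∃ S : Finset (ℕ × ℕ), zeta (gI f) ∈ poleRing k S ∧ ∀ p ∈ S, 0 < p.1 ∧ 0 < p.2 ∧
      ∀ b, LocalBernsteinEq (gI f) b → b.eval (-(p.1 : k) / p.2) = 0 := by
  obtain ⟨Z, h1, h2⟩ := H.core (f := f) (β := fun _ => ()) fun _ =>
    (Function.ne_iff.1 hf).imp fun i hi => ⟨rfl, hi⟩
  obtain ⟨S, h3, h4⟩ := PR_fin h1
  have h5 := hlin r f Z fun e => h2 _
  let D : PowerSeries (Mot k) := 1 - PowerSeries.C (Linv k ^ 1) * PowerSeries.X ^ 1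
  have h6 : PowerSeries.invOfUnit D 1 * D = 1 :=
    (mul_comm _ _).trans (PowerSeries.mul_invOfUnit D 1 (by simp [D]))
  refine ⟨insert (1, 1) S, ?_, fun p hp => ?_⟩
  · rw [← mul_one (zeta _), ← h6, mul_left_comm, h5]
    exact mul_mem (Algebra.subset_adjoin (Or.inr ⟨(1, 1), Finset.mem_insert_self _ _, h6⟩))
      (mul_mem (mul_mem (Subalgebra.algebraMap_mem _ _) (X_mem_poleRing _))
        (poleRing_mono (Finset.subset_insert _ _) h4))
  rcases Finset.mem_insert.1 hp with rfl | hp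
  · exact ⟨one_pos, one_pos, fun b hb => by
      simpa using root_neg_one_loc (gI_ne hf) (by simp [gI]) hb⟩
  obtain ⟨h7, h8, h9⟩ := h3 p hp
  have h10 : 0 < p.2 := Nat.pos_of_ne_zero fun h => h8 (by ext; exact h)
  refine ⟨h7, h10, fun b hb => ?_⟩
  obtain ⟨h, h11, h12⟩ := htw r f b hb
  have h13 : (0 : ℚ) < p.2 := by exact_mod_cast h10
  have := h9 h _ h11 h12 (fun _ => -(p.1 : ℚ) / p.2)
    (fun _ => div_neg_of_neg_of_pos (by simpa using h7) h13) (by simp; field_simp; ring)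
  rw [← coe_aeval_eq_eval, RingHom.coe_coe, ← Polynomial.aeval_algHom_apply] at this
  simpa using this

end

end Pool.Agent.P.MP_b91a16_ag.Id
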