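import Pool.Agent.P.MP_b91a16_ag.Id.Base

/-! Ideals in two variables: the induction along the Newton process. -/

set_option linter.unusedSectionVars false

open MvPolynomial

namespace Pool.Agent.P.MP_b91a16_ag.Id

noncomputable section

structure Hyp (k ι ρ : Type) [Field k] [Fintype ι] [Fintype ρ] [DecidableEq ρ] : Prop where
  shSt : S_shSt k ι ρ
  shSt1 : S_shSt k Unit Unit
  shCone : S_shCone k
  ordGen : S_ordGen k ι ρ
  ordCone : S_ordCone k ι ρ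
  ordTerm : S_ordTerm k ι ρ
  fin : S_fin k ι ρ
  split : S_split k
  tsch : S_tsch k
  trunc : S_trunc k
  bottom : S_bottom k ι ρ
  next : S_next k ι ρ
  child : S_child k ι ρ
  two : S_two k ι ρ
  r0 : S_r0 k ι ρ
  chSh : S_chSh k
  chCh : S_chCh k
  chLin : S_chLin k
  rootA : S_rootA k ι ρ
  rootC : S_rootC k ι ρ
  cone : S_cone k ρ
  strip : S_strip k ρ
  ray : S_ray k ι ρ

variable {k ι ρ : Type} [Field k] [Fintype ι] [Fintype ρ] [DecidableEq ρ]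
  {A : Set (ℕ × (ρ → ℕ))} {g : ι → P2 k} {β : ι → ρ} {n p q p' q' : ℕ} {a m : ρ → ℕ}

def Inv (n p q : ℕ) (a m : ρ → ℕ) : Prop := (∀ j, (n + 1) * m j ≤ 2 * a j) ∨ n = 0 ∧ p ≤ q

def Alt (A : Set (ℕ × (ρ → ℕ))) (n p q : ℕ) (a m : ρ → ℕ) : Prop :=
  m = 0 ∧ p = 0 ∧ q = 1 ∨ nv p q a m ≠ 0 ∧ (p * (n + 1) + q, nv p q a m) ∈ A

def Clm (A : Set (ℕ × (ρ → ℕ))) (g : ι → P2 k) (β : ι → ρ) (n p q : ℕ) (a m : ρ → ℕ) : Prop :=
  ∃ p' q', q * p' < p * q' ∧ Alt A n p' q' a m ∧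
    ∀ Z₁, Gen (fun e => An (Cone k p q p' q') (Mon k a m e)) n Z₁ →
      ∃ Z₂ ∈ PR k A, Gen (fun e => An (Cone k p q 0 1) (Ord g β e)) n (Z₁ + Z₂)

theorem Hyp.cone_in (H : Hyp k ι ρ) (hN : nv p q a m ≠ 0) (hA : (p * (n + 1) + q, nv p q a m) ∈ A)
    (hlt : q * p' < p * q') (h : Alt A n p' q' a m) :
    InR A (fun e => An (Cone k p q p' q') (Mon k a m e)) n := by
  rcases h with ⟨rfl, rfl, rfl⟩ | ⟨h1, h2⟩
  · exact H.strip A n p q a (by simpa using hlt) (by rintro rfl; exact hN (by ext; simp [nv])) hA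
  · exact H.cone A n p q p' q' a m hlt hN h1 hA h2

theorem Clm.inR (H : Hyp k ι ρ) (h : Clm A g β n p q a m) (hN : nv p q a m ≠ 0)
    (hA : (p * (n + 1) + q, nv p q a m) ∈ A) :
    InR A (fun e => An (Cone k p q 0 1) (Ord g β e)) n := by
  obtain ⟨p', q', h1, h2, h3⟩ := h
  obtain ⟨Z₁, h4, h5⟩ := H.cone_in hN hA h1 h2
  obtain ⟨Z₂, h6, h7⟩ := h3 Z₁ h5
  exact ⟨_, add_mem h4 h6, h7⟩

theorem Inv.lt_two (h : Inv n p q a m) (hp' : 0 < p') (hlt : q * p' < p * q') (w : ρ → ℚ)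
    (hw : ∀ j, 0 < w j) (e : ∑ j, w j * nv p' q' a m j = p' * (n + 1) + q') :
    ∑ j, w j * m j < 2 := by
  have e1 : p' * ∑ j, w j * a j + q' * ∑ j, w j * m j = p' * (n + 1) + q' := by
    rw [← e, Finset.mul_sum, Finset.mul_sum, ← Finset.sum_add_distrib]
    exact Finset.sum_congr rfl fun j _ => by simp only [nv]; push_cast; ring
  have h0 : 0 ≤ ∑ j, w j * a j := Finset.sum_nonneg fun j _ => by have := hw j; positivity
  have hq : (0 : ℚ) < q' := by exact_mod_cast Nat.pos_of_mul_pos_left (Nat.zero_lt_of_lt hlt)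
  have hp : (0 : ℚ) < p' := by exact_mod_cast hp'
  by_contra! h2
  rcases h with h | ⟨rfl, h⟩
  · have h3 : (n + 1) * ∑ j, w j * m j ≤ 2 * ∑ j, w j * a j := by
      rw [Finset.mul_sum, Finset.mul_sum]
      refine Finset.sum_le_sum fun j _ => ?_
      have h4 : ((n + 1) * m j : ℚ) ≤ 2 * a j := by exact_mod_cast h j
      nlinarith [hw j]
    have h5 : (n + 1 : ℚ) ≤ ∑ j, w j * a j := by nlinarith [Nat.cast_nonneg (α := ℚ) n]
    nlinarith
  · have h3 : (p' : ℚ) < q' := by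
      exact_mod_cast lt_of_mul_lt_mul_left ((Nat.mul_le_mul_right p' h).trans_lt hlt) (Nat.zero_le p)
    push_cast at e1
    nlinarith

theorem exists_bezout (h : p.Coprime q) (hp : 0 < p) (hq : 0 < q) :
    ∃ u w, p * w = q * u + 1 ∧ (p = 1 → u = 0) := by
  rcases eq_or_ne p 1 with rfl | h1
  · exact ⟨0, 1, by simp, fun _ => rfl⟩
  rcases eq_or_ne q 1 with rfl | h2
  · exact ⟨p - 1, 1, by omega, fun h => (h1 h).elim⟩
  obtain ⟨w, -, hw⟩ := Nat.exists_mul_mod_eq_one_of_coprime h (by omega)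
  exact ⟨p * w / q, w, by rw [← hw, Nat.div_add_mod], fun h => (h1 h).elim⟩

theorem sh_neg (φ : Polynomial k) (j : Fin 2) : aeval (sh φ) (sh (-φ) j) = X j := by
  fin_cases j <;> simp [sh, ← Polynomial.aeval_algHom_apply]

theorem Hyp.back (H : Hyp k ι ρ) {φ : Polynomial k} (hφ : ∀ n ∈ φ.support, q < p * n) {e : ρ →₀ ℕ}
    {v : Mot k} (h : WV (An (Cone k p q 0 1) (Ord (pb (sh φ) g) β e)) n v) :
    WV (An (Cone k p q 0 1) (Ord g β e)) n v :=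
  WV.aut (ψ := sh φ) rfl (sh_neg φ) (by simpa using sh_neg (-φ)) (h.congr fun K _ _ γ => by
    rw [Ord_pb]
    exact and_congr_left' (H.shCone p q φ hφ K γ).symm)

theorem Hyp.term (H : Hyp k ι ρ) (hp : 0 < p) (hS : St p q g β a m) (hN : nv p q a m ≠ 0)
    {e : ρ →₀ ℕ} (h : ∀ i, ∀ v ∈ (g i).support, v 1 < m (β i) → ∑ j, e j + 1 ≤ v 0) {v : Mot k}
    (hv : WV (An (Cone k p q 0 1) (Mon k a m e)) n v) :
    WV (An (Cone k p q 0 1) (Ord g β e)) n v :=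
  hv.congr fun K _ _ γ => and_congr_right fun hγ => (H.ordTerm p q _ g β a m e hS.1 hS.2.1 hp hN h
    (fun j => Nat.lt_succ_of_le
      (Finset.single_le_sum (f := e) (fun _ _ => Nat.zero_le _) (Finset.mem_univ j))) K γ hγ).symm

theorem Hyp.glue (H : Hyp k ι ρ) (hH : Has g β a m) (hL : Lo p q g β a m) (hL' : Lo p' q' g β a m)
    (hN : nv p q a m ≠ 0) (hp' : 0 < p') (hq' : 0 < q') (hc : p'.Coprime q') (hlt : q * p' < p * q')
    {e : ρ →₀ ℕ} {v₁ v₂ v₃ : Mot k} (h₁ : WV (An (Cone k p q p' q') (Mon k a m e)) n v₁)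
    (h₂ : WV (An (Ray k p' q') (Ord g β e)) n v₂)
    (h₃ : WV (An (Cone k p' q' 0 1) (Ord g β e)) n v₃) :
    WV (An (Cone k p q 0 1) (Ord g β e)) n (v₁ + (v₂ + v₃)) := by
  have hs := H.split p q p' q' 0 1 hp' hq' hc hlt (by simpa using hp')
  refine (h₁.union (h₂.union h₃ fun K _ _ γ h h' => (hs K γ).2.2.2 ⟨h.1, h'.1⟩)
    fun K _ _ γ h h' => h'.elim (fun h' => (hs K γ).2.1 ⟨h.1, h'.1⟩)
      fun h' => (hs K γ).2.2.1 ⟨h.1, h'.1⟩).congr fun K _ _ γ => ?_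
  have h1 := H.ordCone p q p' q' g β a m e hH hL hL' hp' hlt hN K γ
  have h2 := fun h => (hs K γ).1 (H.fin p q g β a m e hL hN K γ h)
  simp only [An]
  tauto

theorem Hyp.ray_in (H : Hyp k ι ρ) {f : ι → P2 k} {π : Fin 2 → P2 k} (hp : 0 < p) (hq : 0 < q)
    (hc : p.Coprime q) (hπ : Ch π n) (hD : Nd p q (pb π f) β a m) (hN : nv p q a m ≠ 0)
    (hA : (p * (n + 1) + q, nv p q a m) ∈ Alw f β)
    (hI : (∀ j, (n + 1) * m j ≤ 2 * a j) ∨ n = 0)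
    (ih : ∀ π' n' mc, (NF p q (pb π f) β a m → ∑ j, mc j < ∑ j, m j) → Ch π' n' →
      St 1 0 (pb π' f) β (nv p q a m) mc → nv 1 0 (nv p q a m) mc ≠ 0 → Inv n' 1 0 (nv p q a m) mc →
      Clm (Alw f β) (pb π' f) β n' 1 0 (nv p q a m) mc) :
    InR (Alw f β) (fun e => An (Ray k p q) (Ord (pb π f) β e)) n := by
  obtain ⟨u, w, h1, h2⟩ := exists_bezout hc hp hq
  refine H.ray _ n p q u w _ β a m hp hq h1 hD.1 hD.2.1 hN hA fun c hc => ?_
  obtain ⟨mc, h3, h4, h5⟩ := H.child p q u w _ β a m c hp h1 h2 hD hc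
  have e1 : nv 1 0 (nv p q a m) mc = nv p q a m := by ext; simp [nv]
  have e2 : p * (n + 1) + q - 1 + 1 = p * (n + 1) + q := by omega
  rw [pb_pb, pb_pb, ← pb_pb (tr c)] at h3 ⊢
  refine (ih _ _ mc h5 (H.chCh π n p q u w c hπ hp hq h1 hc) h3 (e1.symm ▸ hN)
    (Or.inl fun j => ?_)).inR H (e1.symm ▸ hN) (by rwa [e1, e2, one_mul, add_zero])
  have h6 := h4 j
  have h7 : mc j ≤ m j := (Nat.le_mul_of_pos_left _ hp).trans h6
  rw [e2, nv]
  rcases hI with hI | rfl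
  · nlinarith [hI j, Nat.mul_le_mul_left (n + 1) h6, Nat.mul_le_mul_left q h7,
      Nat.le_mul_of_pos_left (a j) hp]
  · nlinarith [Nat.mul_le_mul_left q h7, Nat.le_mul_of_pos_left (m j) hq]

theorem Hyp.claim (H : Hyp k ι ρ) (f : ι → P2 k) (β : ι → ρ) (μ : ℕ) :
    ∀ (π : Fin 2 → P2 k) (n p q : ℕ) (a m : ρ → ℕ), ∑ j, m j < μ → Ch π n → 0 < p →
      St p q (pb π f) β a m → nv p q a m ≠ 0 → Inv n p q a m →
      Clm (Alw f β) (pb π f) β n p q a m := by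
  induction μ with
  | zero => exact fun _ _ _ _ _ _ h => by omega
  | succ μ ih =>
  intro π n p q a m hμ hπ hp hS hN hI
  by_cases hm : m = 0
  · exact ⟨0, 1, by simpa using hp, Or.inl ⟨hm, rfl, rfl⟩, fun Z₁ h => ⟨0, zero_mem _, fun e => by
      rw [add_zero]
      exact H.term hp hS hN (by simp [hm]) (h e)⟩⟩
  obtain ⟨j₀, hj⟩ := Function.ne_iff.1 hm
  obtain ⟨i₀, rfl, hi⟩ := hS.1 j₀
  have hj' : 0 < m (β i₀) := Nat.pos_of_ne_zero hj
  obtain ⟨φ, hφ, hT⟩ := H.tsch p q _ _ _ hp hj' hi (hS.2.1 i₀) (hS.2.2 i₀)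
  have hφD : ∀ D, ∀ n ∈ (φ.trunc D).support, q < p * n := fun D n hn => hφ n fun h => by
    simp [PowerSeries.coeff_trunc, h] at hn
  have hSD := fun D => H.shSt p q _ β a m _ hS (hφD D)
  have h0 : PowerSeries.coeff 0 φ = 0 := by
    by_contra h
    simpa using hφ 0 h
  by_cases hd : ∀ i, Polynomial.X ^ m (β i) ∣ Φs φ (pb π f i)
  · have e1 : nv 0 1 a m = m := by ext; simp [nv]
    refine ⟨0, 1, by simpa using hp, Or.inr ⟨e1.symm ▸ hm, ?_⟩, fun Z₁ h => ⟨0, zero_mem _, fun e => ?_⟩⟩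
    · rw [e1, zero_mul, zero_add]
      refine H.rootC f β π n m φ hπ (by simpa using h0) hm hd fun j => ?_
      obtain ⟨i, h1, h2⟩ := (hSD (a j + 1)).1 j
      refine ⟨i, h1, fun h => h2 ?_⟩
      rw [pb, H.trunc _ _ _ _ _ (Nat.lt_succ_self _), h, map_zero]
    · rw [add_zero]
      refine H.back (hφD _) (H.term hp (hSD (∑ j, e j + 1)) hN (fun i v hv h1 => ?_) (h e))
      by_contra! h2
      rw [mem_support_iff, ← ex_eta v, pb, H.trunc _ _ _ _ _ h2,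
        Polynomial.X_pow_dvd_iff.1 (hd i) _ h1, map_zero] at hv
      exact hv rfl
  simp only [Polynomial.X_pow_dvd_iff, not_forall] at hd
  obtain ⟨i, m', h1, h2⟩ := hd
  obtain ⟨a', h3⟩ : ∃ a', PowerSeries.coeff a' ((Φs φ (pb π f i)).coeff m') ≠ 0 := by
    by_contra! h
    exact h2 (PowerSeries.ext h)
  obtain ⟨D, hD⟩ : ∃ D, D = a' + a (β i₀) + 1 := ⟨_, rfl⟩
  obtain ⟨p', q', hp', hc, hlt, hle, hNd, i', v', hv', hw', hm'⟩ := H.next p q _ β a m i (ex a' m')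
    hp (hSD D) (by rwa [mem_support_iff, pb, H.trunc _ _ _ _ _ (by omega)]) (by simpa using h1)
  have hq' : 0 < q' := Nat.pos_of_mul_pos_left (Nat.zero_lt_of_lt hlt)
  have hF : NF p' q' (pb (sh (φ.trunc D)) (pb π f)) β a m := ⟨i₀, hj', by
    obtain ⟨_, -, h⟩ := (H.shSt1 p q (fun _ => pb π f i₀) id (fun _ => a (β i₀)) (fun _ => m (β i₀)) _
      ⟨fun _ => ⟨(), rfl, hi⟩, fun _ => hS.2.1 i₀, fun _ => hS.2.2 i₀⟩ (hφD D)).1 ()
    exact h, by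
      rintro rfl
      rw [pb, H.trunc _ _ _ _ _ (by simp at hle; omega), hT, map_zero]⟩
  have hN' : nv p' q' a m ≠ 0 := fun h => by
    have := congrFun h (β i₀)
    simp only [nv, Pi.zero_apply, add_eq_zero, mul_eq_zero] at this
    omega
  have hπ' := H.chSh π n (φ.trunc D) hπ (by simp [PowerSeries.coeff_trunc, h0])
  have hG := fun e v₁ v₂ v₃ => H.glue (n := n) (e := e) (v₁ := v₁) (v₂ := v₂) (v₃ := v₃) hNd.1
    (hSD D).2.1 hNd.2.1 hN hp' hq' hc hlt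
  have hB := fun e v => H.back (n := n) (g := pb π f) (β := β) (e := e) (v := v) (hφD D)
  rw [pb_pb] at hNd hF hv' hG hB
  have hA := H.rootA f β _ n p' q' 2 a m hπ' hp' hq' hNd.2.1 hN'
    (H.two p' q' _ β a m hp' hc hNd hF ⟨i', v', hv', hw', hm'⟩)
    fun w hw e => Or.inl ⟨hI.lt_two hp' hlt w hw e, le_rfl⟩
  obtain ⟨a₁, b, h4, h5, h6⟩ := H.bottom p' q' _ β a m hp' hNd.1 hNd.2.1
  have h7 : ∑ j, b j < ∑ j, m j := Finset.sum_lt_sum (fun j _ => (h6 j).1) ⟨β i', by simp, by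
    by_contra! h
    have := h4.2.2 i' v' hv' (hm'.trans_le h)
    rw [hw', ← h5] at this
    exact lt_irrefl _ this⟩
  obtain ⟨Za, h8, h9⟩ := (ih _ n p' q' a₁ b (by omega) hπ' hp' h4 (h5.symm ▸ hN') (hI.imp
    (fun h j => ((Nat.mul_le_mul_left _ (h6 j).1).trans (h j)).trans (Nat.mul_le_mul_left _ (h6 j).2))
    fun h => ⟨h.1, (lt_of_mul_lt_mul_left ((Nat.mul_le_mul_right p' h.2).trans_lt hlt)
      (Nat.zero_le p)).le⟩)).inR H (h5.symm ▸ hN') (h5.symm ▸ hA)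
  obtain ⟨Zr, h10, h11⟩ := H.ray_in hp' hq' hc hπ' hNd hN' hA (hI.imp id And.left)
    fun π' n' mc h h' => ih π' n' 1 0 _ mc (by have := h hF; omega) h' one_pos
  exact ⟨p', q', hlt, Or.inr ⟨hN', hA⟩, fun Z₁ h => ⟨Zr + Za, add_mem h10 h8, fun e =>
    hB e _ (hG e _ _ _ (h e) (h11 e) (h9 e))⟩⟩

end

end Pool.Agent.P.MP_b91a16_ag.Id
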