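import Pool.Agent.P.MP_b91a16_ag.Id.Base

/-! Ideals in two variables, package A: initial forms and shears. -/

set_option linter.unusedSectionVars false

open MvPolynomial

namespace Pool.Agent.P.MP_b91a16_ag.Id

noncomputable section

variable {k ι ρ : Type} [Field k] [Fintype ι] [Fintype ρ] [DecidableEq ρ]

namespace PA

theorem mono_eq' (v : Fin 2 →₀ ℕ) (c : k) :
    (monomial v c : P2 k) = C c * X 0 ^ v 0 * X 1 ^ v 1 := by
  conv_lhs => rw [← ex_eta v]
  exact monomial_ex _ _ _

theorem tor_mono (p q u w : ℕ) (v : Fin 2 →₀ ℕ) (c : k) :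
    aeval (tor k p q u w) (monomial v c : P2 k) =
      C c * X 0 ^ wt p q v * X 1 ^ wt u w v := by
  rw [mono_eq']
  simp only [map_mul, map_pow, aeval_X, aeval_C, tor, wt, Matrix.cons_val_zero,
    Matrix.cons_val_one, algebraMap_eq, mul_pow, ← pow_mul, pow_add]
  ring

/-- All terms have weight at least `N`. -/
def F (p q N : ℕ) (G : P2 k) : Prop := ∀ v ∈ G.support, N ≤ wt p q v

variable {p q N M : ℕ} {G H : P2 k}

theorem F_zero : F p q N (0 : P2 k) := by simp [F]

theorem F_mono (h : F p q N G) (hM : M ≤ N) : F p q M G := fun v hv => hM.trans (h v hv)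

theorem F_add (h : F p q N G) (h' : F p q N H) : F p q N (G + H) := by
  classical
  intro v hv
  rcases Finset.mem_union.1 (support_add hv) with e | e
  exacts [h v e, h' v e]

theorem F_mul (h : F p q N G) (h' : F p q M H) : F p q (N + M) (G * H) := by
  classical
  intro v hv
  obtain ⟨a, ha, b, hb, rfl⟩ := Finset.mem_add.1 (support_mul G H hv)
  have h1 := h a ha
  have h2 := h' b hb
  simp only [wt, Finsupp.add_apply, mul_add] at *
  omega

theorem F_sum {α : Type} (s : Finset α) (f : α → P2 k) (h : ∀ a ∈ s, F p q N (f a)) :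
    F p q N (∑ a ∈ s, f a) :=
  Finset.sum_induction f (F p q N) (fun _ _ => F_add) F_zero h

theorem F_any : F p q 0 G := fun _ _ => Nat.zero_le _

theorem F_pow (h : F p q N G) (n : ℕ) : F p q (N * n) (G ^ n) := by
  induction n with
  | zero => simpa using F_any
  | succ n ih => rw [pow_succ, Nat.mul_succ]; exact F_mul ih h

theorem F_X0 : F p q p (X 0 : P2 k) := by
  intro v hv
  rw [support_X, Finset.mem_singleton] at hv
  simp [hv, wt]

theorem F_X1 : F p q q (X 1 : P2 k) := by
  intro v hv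
  rw [support_X, Finset.mem_singleton] at hv
  simp [hv, wt]

theorem F_phi {φ : Polynomial k} (hφ : ∀ n ∈ φ.support, q < p * n) :
    F p q (q + 1) (Polynomial.aeval (X 0 : P2 k) φ) := by
  rw [Polynomial.aeval_def, Polynomial.eval₂_eq_sum, Polynomial.sum_def]
  refine F_sum _ _ fun n hn => ?_
  refine F_mono (F_mul F_any (F_pow F_X0 n)) ?_
  have := hφ n hn
  omega

theorem F_diff {δ : P2 k} (h : F p q (q + 1) δ) (m : ℕ) :
    F p q (q * m + 1) ((X 1 + δ) ^ m - X 1 ^ m) := by
  induction m with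
  | zero => simpa using F_zero
  | succ m ih =>
    rw [show (X 1 + δ) ^ (m + 1) - X 1 ^ (m + 1) =
      ((X 1 + δ) ^ m - X 1 ^ m) * (X 1 + δ) + X 1 ^ m * δ by ring]
    refine F_add (F_mono (F_mul ih (F_add F_X1 (F_mono h (Nat.le_succ q)))) ?_)
      (F_mono (F_mul (F_pow F_X1 m) h) ?_) <;> rw [Nat.mul_succ] <;> omega

theorem F_sh {φ : Polynomial k} (hφ : ∀ n ∈ φ.support, q < p * n) (h : F p q N G) :
    F p q (N + 1) (aeval (sh φ) G - G) := by
  have e : aeval (sh φ) G - G = ∑ v ∈ G.support, C (coeff v G) * X 0 ^ v 0 *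
      ((X 1 + Polynomial.aeval (X 0 : P2 k) φ) ^ v 1 - X 1 ^ v 1) := by
    conv_lhs => rw [G.as_sum]
    rw [map_sum, ← Finset.sum_sub_distrib]
    refine Finset.sum_congr rfl fun v _ => ?_
    rw [mono_eq']
    simp only [map_mul, map_pow, aeval_X, aeval_C, sh, Matrix.cons_val_zero,
      Matrix.cons_val_one, algebraMap_eq]
    ring
  rw [e]
  refine F_sum _ _ fun v hv => ?_
  refine F_mono (F_mul (F_mul F_any (F_pow F_X0 _)) (F_diff (F_phi hφ) _)) ?_
  have := h v hv
  simp only [wt] at this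
  omega

theorem coeff_sh {φ : Polynomial k} (hφ : ∀ n ∈ φ.support, q < p * n) (h : F p q N G)
    {v : Fin 2 →₀ ℕ} (hv : wt p q v ≤ N) : coeff v (aeval (sh φ) G) = coeff v G := by
  by_contra hne
  have := F_sh hφ h v (by rwa [mem_support_iff, coeff_sub, sub_ne_zero])
  omega

section Ord

variable {K : Type} [Field K]

theorem lt_add {x : ℕ∞} {s t : PowerSeries K} (hs : x < p * s.order) (ht : x < p * t.order) :
    x < p * (s + t).order := by
  have h := PowerSeries.min_order_le_order_add s t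
  rcases min_le_iff.1 h with e | e
  · exact hs.trans_le (by gcongr)
  · exact ht.trans_le (by gcongr)

theorem lt_delta [Algebra k K] {φ : Polynomial k} (hφ : ∀ n ∈ φ.support, q < p * n)
    {s : PowerSeries K} (hs : 0 < s.order) :
    Polynomial.aeval s φ = 0 ∨ (q : ℕ∞) * s.order < p * (Polynomial.aeval s φ).order := by
  by_cases h0 : s = 0
  · left
    have : φ.coeff 0 = 0 := by
      by_contra hne
      simpa using hφ 0 (Polynomial.mem_support_iff.2 hne)
    rw [h0, Polynomial.aeval_def, Polynomial.eval₂_at_zero, this, map_zero]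
  by_cases h1 : φ = 0
  · left
    rw [h1, map_zero]
  right
  obtain ⟨o, ho⟩ := ENat.ne_top_iff_exists.1 (mt PowerSeries.order_eq_top.1 h0)
  have hp : p ≠ 0 := by
    rintro rfl
    obtain ⟨n, hn⟩ := Polynomial.nonempty_support_iff.2 h1
    simpa using hφ n hn
  have ho' : 0 < o := by
    rw [← ho] at hs
    exact_mod_cast hs
  rw [Polynomial.aeval_def, Polynomial.eval₂_eq_sum, Polynomial.sum_def]
  refine Finset.sum_induction _ (fun t : PowerSeries K => (q : ℕ∞) * s.order < p * t.order)
    (fun _ _ => lt_add) ?_ fun n hn => ?_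
  · rw [PowerSeries.order_zero, ENat.mul_top (by exact_mod_cast hp), ← ho, ← Nat.cast_mul]
    exact ENat.natCast_lt_top _
  · have h2 : (n : ℕ∞) * s.order ≤ (algebraMap k (PowerSeries K) (φ.coeff n) * s ^ n).order := by
      refine le_trans ?_ (PowerSeries.le_order_mul _ _)
      rw [PowerSeries.order_pow, nsmul_eq_mul]
      exact le_add_self
    refine lt_of_lt_of_le ?_ (mul_le_mul_right h2 _)
    rw [← ho, ← mul_assoc]
    exact_mod_cast Nat.mul_lt_mul_of_pos_right (hφ n hn) ho'

end Ord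

end PA

open PA

theorem ini_ok : S_ini k := by
  intro G p q N u w h
  refine ⟨∑ v ∈ G.support.filter fun v => ¬wt p q v = N,
    C (coeff v G) * X 0 ^ (wt p q v - N - 1) * X 1 ^ wt u w v, ?_⟩
  conv_lhs => rw [G.as_sum]
  rw [map_sum, ← Finset.sum_filter_add_sum_filter_not _ fun v => wt p q v = N, Id.ini, map_sum,
    mul_add, Finset.mul_sum, Finset.mul_sum, Finset.mul_sum]
  congr 1
  · refine Finset.sum_congr rfl fun v hv => ?_
    rw [tor_mono, (Finset.mem_filter.1 hv).2, Polynomial.aeval_monomial, algebraMap_eq]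
    ring
  · refine Finset.sum_congr rfl fun v hv => ?_
    obtain ⟨h1, h2⟩ := Finset.mem_filter.1 hv
    have h3 := h v h1
    rw [tor_mono]
    obtain ⟨d, hd⟩ : ∃ d, wt p q v = N + 1 + d := ⟨wt p q v - N - 1, by omega⟩
    rw [hd, show N + 1 + d - N - 1 = d by omega]
    ring

theorem shSt_ok : S_shSt k ι ρ := by
  intro p q g β a m φ ⟨h1, h2, h3⟩ hφ
  refine ⟨fun j => ?_, fun i v hv => ?_, fun i v hv hlt => ?_⟩
  · obtain ⟨i, rfl, hi⟩ := h1 j
    refine ⟨i, rfl, ?_⟩
    rwa [pb, coeff_sh hφ (h2 i) (by simp [wt])]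
  · by_contra! hc
    rw [mem_support_iff, pb, coeff_sh hφ (h2 i) hc.le, ← mem_support_iff] at hv
    exact absurd (h2 i v hv) hc.not_ge
  · by_contra! hc
    rw [mem_support_iff, pb, coeff_sh hφ (h2 i) hc, ← mem_support_iff] at hv
    exact absurd (h3 i v hv hlt) hc.not_gt

theorem shCone_ok : S_shCone k := by
  intro p q φ hφ K _ _ γ
  have e0 : aeval γ (sh φ 0) = γ 0 := by simp [sh]
  have e1 : aeval γ (sh φ 1) = γ 1 + Polynomial.aeval (γ 0) φ := by
    simp [sh, ← Polynomial.aeval_algHom_apply]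
  simp only [Pb, Cone, e0, e1, Nat.cast_zero, zero_mul, Nat.cast_one, one_mul]
  refine and_congr_left fun h0 => ?_
  rcases lt_delta hφ h0 with h | h
  · rw [h, add_zero]
  · refine ⟨fun h' => ?_, fun h' => lt_add h' h⟩
    have := lt_add h' (t := -Polynomial.aeval (γ 0) φ) (by rwa [PowerSeries.order_neg])
    simpa using this

end

end Pool.Agent.P.MP_b91a16_ag.Id
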