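import Pool.Agent.P.MP_b91a16_ag.Id.Base

/-! Ideals in two variables: orders of the generators along an arc. -/

open MvPolynomial

namespace Pool.Agent.P.MP_b91a16_ag.Id

variable {k ι ρ : Type} [Field k] [Fintype ι] [Fintype ρ] [DecidableEq ρ]

namespace PB

variable {K : Type} [Field K] [Algebra k K]

theorem order_term (γ : Fin 2 → PowerSeries K) (v : Fin 2 →₀ ℕ) {c : k} (hc : c ≠ 0) :
    (aeval γ (monomial v c : P2 k)).order =
      (v 0 : ℕ∞) * (γ 0).order + (v 1 : ℕ∞) * (γ 1).order := by
  have h : (monomial v c : P2 k) = C c * X 0 ^ v 0 * X 1 ^ v 1 := by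
    rw [← monomial_ex, ex_eta]
  have hu : IsUnit (algebraMap k (PowerSeries K) c) := (Ne.isUnit hc).map _
  rw [h]
  simp only [map_mul, map_pow, aeval_C, aeval_X, PowerSeries.order_mul, PowerSeries.order_pow,
    PowerSeries.order_zero_of_unit hu, zero_add, nsmul_eq_mul]

theorem dvd_part (γ : Fin 2 → PowerSeries K) (G : P2 k) (s : Finset (Fin 2 →₀ ℕ))
    (hs : s ⊆ G.support) {n : ℕ}
    (h : ∀ v ∈ s, (n : ℕ∞) ≤ (v 0 : ℕ∞) * (γ 0).order + (v 1 : ℕ∞) * (γ 1).order) :
    PowerSeries.X ^ n ∣ ∑ v ∈ s, aeval γ (monomial v (coeff v G) : P2 k) := by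
  refine Finset.dvd_sum fun v hv => dvd_iff_le_order.2 ?_
  rw [order_term γ v (mem_support_iff.1 (hs hv))]
  exact h v hv

theorem aeval_sum (γ : Fin 2 → PowerSeries K) (G : P2 k) :
    aeval γ G = ∑ v ∈ G.support, aeval γ (monomial v (coeff v G) : P2 k) := by
  rw [← map_sum, ← G.as_sum]

theorem dvd_of_le (γ : Fin 2 → PowerSeries K) (G : P2 k) {n : ℕ}
    (h : ∀ v ∈ G.support, (n : ℕ∞) ≤ (v 0 : ℕ∞) * (γ 0).order + (v 1 : ℕ∞) * (γ 1).order) :
    PowerSeries.X ^ n ∣ aeval γ G := by
  rw [aeval_sum]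
  exact dvd_part γ G _ subset_rfl h

theorem not_dvd (γ : Fin 2 → PowerSeries K) (G : P2 k) {n : ℕ} {w : Fin 2 →₀ ℕ}
    (hw : coeff w G ≠ 0) (ho : (w 0 : ℕ∞) * (γ 0).order + (w 1 : ℕ∞) * (γ 1).order = n)
    (h : ∀ v ∈ G.support, v ≠ w →
      (n : ℕ∞) < (v 0 : ℕ∞) * (γ 0).order + (v 1 : ℕ∞) * (γ 1).order) :
    ¬PowerSeries.X ^ (n + 1) ∣ aeval γ G := by
  classical
  intro hd
  rw [aeval_sum, ← Finset.add_sum_erase _ _ (mem_support_iff.2 hw)] at hd
  have h1 := dvd_part γ G (G.support.erase w) (Finset.erase_subset _ _) (n := n + 1)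
    fun v hv => by
      have := h v (Finset.mem_of_mem_erase hv) (Finset.ne_of_mem_erase hv)
      exact_mod_cast Order.add_one_le_of_lt this
  have h2 := dvd_iff_le_order.1 ((dvd_add_left h1).1 hd)
  rw [order_term γ w hw, ho] at h2
  have h3 : n + 1 ≤ n := by exact_mod_cast h2
  omega

theorem ne_ex {v : Fin 2 →₀ ℕ} {a m : ℕ} (h : v ≠ ex a m) : v 0 ≠ a ∨ v 1 ≠ m := by
  by_contra hc
  push Not at hc
  exact h (by rw [← hc.1, ← hc.2, ex_eta])

theorem top_l {a : ℕ} (ha : a ≠ 0) (z : ℕ∞) : (a : ℕ∞) * ⊤ + z = ⊤ := by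
  rw [ENat.mul_top (by exact_mod_cast ha), top_add]

theorem top_r {a : ℕ} (ha : a ≠ 0) (z : ℕ∞) : z + (a : ℕ∞) * ⊤ = ⊤ := by
  rw [add_comm, top_l ha]

theorem cone_int {p q p' q' d0 d1 x y : ℤ} (h1 : 0 ≤ p * d0 + q * d1) (h2 : 0 ≤ p' * d0 + q' * d1)
    (hd : q * p' < p * q') (hv : d0 ≠ 0 ∨ d1 ≠ 0) (c1 : q * x < p * y) (c2 : p' * y < q' * x) :
    0 < d0 * x + d1 * y := by
  have id : (p * q' - q * p') * (d0 * x + d1 * y) =
      (q' * x - p' * y) * (p * d0 + q * d1) + (p * y - q * x) * (p' * d0 + q' * d1) := by ring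
  have hΔ : 0 < p * q' - q * p' := sub_pos.2 hd
  refine (mul_pos_iff_of_pos_left hΔ).1 ?_
  rw [id]
  have n1 := mul_nonneg (sub_pos.2 c2).le h1
  have n2 := mul_nonneg (sub_pos.2 c1).le h2
  rcases h1.lt_or_eq with g1 | g1
  · have := mul_pos (sub_pos.2 c2) g1
    linarith
  rcases h2.lt_or_eq with g2 | g2
  · have := mul_pos (sub_pos.2 c1) g2
    linarith
  exfalso
  have e0 : (p * q' - q * p') * d0 = 0 := by linear_combination q * g2 - q' * g1
  have e1 : (p * q' - q * p') * d1 = 0 := by linear_combination p' * g1 - p * g2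
  rcases hv with hv | hv
  · exact hv ((mul_eq_zero.1 e0).resolve_left hΔ.ne')
  · exact hv ((mul_eq_zero.1 e1).resolve_left hΔ.ne')

theorem cone_nat {p q p' q' a m v0 v1 x y : ℕ} (h1 : p * a + q * m ≤ p * v0 + q * v1)
    (h2 : p' * a + q' * m ≤ p' * v0 + q' * v1) (hd : q * p' < p * q') (hv : v0 ≠ a ∨ v1 ≠ m)
    (c1 : q * x < p * y) (c2 : p' * y < q' * x) : a * x + m * y < v0 * x + v1 * y := by
  zify at *
  have := cone_int (d0 := v0 - a) (d1 := v1 - m) (by linarith) (by linarith) hd
    (hv.imp sub_ne_zero.2 sub_ne_zero.2) c1 c2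
  linarith

theorem cone_key {p q p' q' a m v0 v1 : ℕ} (e : ℕ) {x y : ℕ∞}
    (h1 : p * a + q * m ≤ p * v0 + q * v1) (h2 : p' * a + q' * m ≤ p' * v0 + q' * v1)
    (hp : 0 < p') (hd : q * p' < p * q') (hv : v0 ≠ a ∨ v1 ≠ m)
    (c1 : (q : ℕ∞) * x < p * y) (c2 : (p' : ℕ∞) * y < q' * x) :
    (a : ℕ∞) * x + m * y < v0 * x + v1 * y ∨ (e : ℕ∞) < v0 * x + v1 * y := by
  induction y using ENat.recTopCoe with
  | top =>
    rw [ENat.mul_top (by exact_mod_cast hp.ne')] at c2
    exact absurd c2 not_top_lt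
  | coe y =>
    induction x using ENat.recTopCoe with
    | coe x =>
      left
      exact_mod_cast cone_nat h1 h2 hd hv (by exact_mod_cast c1) (by exact_mod_cast c2)
    | top =>
      by_cases h0 : v0 = 0
      · have hq : q = 0 := by
          by_contra hq
          rw [ENat.mul_top (by exact_mod_cast hq)] at c1
          exact absurd c1 not_top_lt
        subst hq h0
        have c3 : 0 < p * y := by
          rw [Nat.cast_zero, zero_mul] at c1
          exact_mod_cast c1
        have hp0 : 0 < p := Nat.pos_of_mul_pos_right c3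
        have hy : 0 < y := Nat.pos_of_mul_pos_left c3
        have hq' : 0 < q' := Nat.pos_of_mul_pos_left (lt_of_le_of_lt (Nat.zero_le _) hd)
        have ha : a = 0 := by
          have : p * a = 0 := by omega
          exact (Nat.mul_eq_zero.1 this).resolve_left hp0.ne'
        subst ha
        have hm : m ≤ v1 := Nat.le_of_mul_le_mul_left (by omega) hq'
        have hm' : m < v1 := by omega
        left
        simp only [Nat.cast_zero, zero_mul, zero_add]
        exact_mod_cast Nat.mul_lt_mul_of_pos_right hm' hy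
      · right
        rw [top_l h0]
        exact ENat.natCast_lt_top e

theorem term_key {p q D a m v0 v1 e : ℕ} {x y : ℕ∞} (h1 : p * a + q * m ≤ p * v0 + q * v1)
    (hp : 0 < p) (hD : v1 < m → D ≤ v0) (he : e < D) (hv : v0 ≠ a ∨ v1 ≠ m)
    (c1 : (q : ℕ∞) * x < p * y) (c2 : 0 < x) :
    (a : ℕ∞) * x + m * y < v0 * x + v1 * y ∨ (e : ℕ∞) < v0 * x + v1 * y := by
  by_cases hm : v1 < m
  · right
    have h2 : (e : ℕ∞) < v0 := by exact_mod_cast he.trans_le (hD hm)
    refine h2.trans_le (le_trans ?_ le_self_add)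
    exact le_mul_of_one_le_right' (Order.one_le_iff_pos.2 c2)
  induction x using ENat.recTopCoe with
  | top =>
    by_cases h0 : v0 = 0
    · have hq : q = 0 := by
        by_contra hq
        rw [ENat.mul_top (by exact_mod_cast hq)] at c1
        exact absurd c1 not_top_lt
      subst hq h0
      have ha : a = 0 := by
        have : p * a = 0 := by omega
        exact (Nat.mul_eq_zero.1 this).resolve_left hp.ne'
      subst ha
      have hm' : m < v1 := by omega
      induction y using ENat.recTopCoe with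
      | top =>
        right
        rw [top_r (by omega)]
        exact ENat.natCast_lt_top e
      | coe y =>
        have c3 : 0 < p * y := by
          rw [Nat.cast_zero, zero_mul] at c1
          exact_mod_cast c1
        left
        simp only [Nat.cast_zero, zero_mul, zero_add]
        exact_mod_cast Nat.mul_lt_mul_of_pos_right hm' (Nat.pos_of_mul_pos_left c3)
    · right
      rw [top_l h0]
      exact ENat.natCast_lt_top e
  | coe x =>
    have hx : 0 < x := by exact_mod_cast c2
    induction y using ENat.recTopCoe with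
    | top =>
      by_cases h0 : v1 = 0
      · have hm0 : m = 0 := by omega
        subst h0 hm0
        have ha : a ≤ v0 := Nat.le_of_mul_le_mul_left (by omega) hp
        have ha' : a < v0 := by omega
        left
        simp only [Nat.cast_zero, zero_mul, add_zero]
        exact_mod_cast Nat.mul_lt_mul_of_pos_right ha' hx
      · right
        rw [top_r h0]
        exact ENat.natCast_lt_top e
    | coe y =>
      left
      have c3 : q * x < p * y := by exact_mod_cast c1
      exact_mod_cast cone_nat (p' := 0) (q' := 1) h1 (by omega) (by omega) hv c3 (by omega)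

theorem lt_trans_slope {p q p' q' : ℕ} {x y : ℕ∞} (hq : 0 < q') (hd : q * p' < p * q')
    (h : (q' : ℕ∞) * x < p' * y) : (q : ℕ∞) * x < p * y := by
  have hp : 0 < p := Nat.pos_of_mul_pos_right (lt_of_le_of_lt (Nat.zero_le _) hd)
  induction x using ENat.recTopCoe with
  | top =>
    rw [ENat.mul_top (by exact_mod_cast hq.ne')] at h
    exact absurd h not_top_lt
  | coe x =>
    induction y using ENat.recTopCoe with
    | top =>
      rw [ENat.mul_top (by exact_mod_cast hp.ne')]
      exact_mod_cast ENat.natCast_lt_top (q * x)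
    | coe y =>
      have h' : q' * x < p' * y := by exact_mod_cast h
      have hy : 0 < y := Nat.pos_of_mul_pos_left (lt_of_le_of_lt (Nat.zero_le _) h')
      have h1 : q * (q' * x) ≤ q * (p' * y) := Nat.mul_le_mul_left _ h'.le
      have h2 : q * p' * y < p * q' * y := Nat.mul_lt_mul_of_pos_right hd hy
      have h3 : q' * (q * x) < q' * (p * y) := by nlinarith
      exact_mod_cast Nat.lt_of_mul_lt_mul_left h3

end PB

open PB

omit [Fintype ι] [Fintype ρ] [DecidableEq ρ] in
theorem ordGen_ok : S_ordGen k ι ρ := by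
  intro g β a m e hH K _ _ γ h
  refine forall_congr' fun j => ?_
  obtain ⟨i0, rfl, hi0⟩ := hH j
  constructor
  · rintro ⟨h1, i, hi, h2⟩
    rcases lt_trichotomy ((a (β i0) : ℕ∞) * (γ 0).order + (m (β i0) : ℕ∞) * (γ 1).order)
      (e (β i0)) with ho | ho | ho
    · exfalso
      obtain ⟨n, hn⟩ := ENat.ne_top_iff_exists.1 (ne_top_of_lt ho)
      have hne : n < e (β i0) := by
        rw [← hn] at ho
        exact_mod_cast ho
      refine not_dvd γ (g i0) (n := n) hi0 (by simpa using hn.symm) (fun v hv hw => ?_)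
        ((pow_dvd_pow _ hne).trans (h1 i0 rfl))
      rw [hn]
      exact (h i0 v hv hw).elim id ho.trans
    · exact ho
    · exfalso
      refine h2 (dvd_of_le γ _ fun v hv => ?_)
      have : (e (β i0) : ℕ∞) < (v 0 : ℕ∞) * (γ 0).order + (v 1 : ℕ∞) * (γ 1).order := by
        by_cases hw : v = ex (a (β i)) (m (β i))
        · rw [hw, hi]
          simpa using ho
        · have := h i v hv hw
          rw [hi] at this
          exact this.elim ho.trans id
      exact_mod_cast Order.add_one_le_of_lt this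
  · intro ho
    refine ⟨fun i hi => dvd_of_le γ _ fun v hv => ?_, i0, rfl,
      not_dvd γ (g i0) hi0 (by simpa using ho) fun v hv hw => ?_⟩
    · by_cases hw : v = ex (a (β i)) (m (β i))
      · rw [hw, hi]
        simpa using ho.ge
      · have := h i v hv hw
        rw [hi, ho] at this
        exact (this.elim id id).le
    · have := h i0 v hv hw
      rw [ho] at this
      exact this.elim id id

omit [Fintype ι] [Fintype ρ] [DecidableEq ρ] in
theorem ordCone_ok : S_ordCone k ι ρ := by
  intro p q p' q' g β a m e hH h1 h2 hp hd _ K _ _ γ hC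
  exact ordGen_ok g β a m e hH K γ fun i v hv hw =>
    cone_key _ (h1 i v hv) (h2 i v hv) hp hd (ne_ex hw) hC.1 hC.2

omit [Fintype ι] [Fintype ρ] [DecidableEq ρ] in
theorem ordTerm_ok : S_ordTerm k ι ρ := by
  intro p q D g β a m e hH h1 hp _ hD he K _ _ γ hC
  refine ordGen_ok g β a m e hH K γ fun i v hv hw =>
    term_key (h1 i v hv) hp (hD i v hv) (he _) (ne_ex hw) hC.1 ?_
  simpa using hC.2

omit [Fintype ι] [Fintype ρ] [DecidableEq ρ] in
theorem fin_ok : S_fin k ι ρ := by
  intro p q g β a m e h1 hN K _ _ γ hO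
  by_contra hc
  push Not at hc
  obtain ⟨j, hj⟩ := Function.ne_iff.1 hN
  obtain ⟨-, i, rfl, hi⟩ := hO j
  refine hi (dvd_of_le γ _ fun v hv => ?_)
  have h2 := h1 i v hv
  have h3 : p * a (β i) + q * m (β i) ≠ 0 := hj
  rw [hc.1, hc.2]
  by_cases h0 : v 0 = 0
  · have h4 : v 1 ≠ 0 := by
      intro h4
      simp only [wt, h0, h4, mul_zero, add_zero] at h2
      omega
    rw [top_r h4]
    exact le_top
  · rw [top_l h0]
    exact le_top

theorem split_ok : S_split k := by
  intro p q p' q' p'' q'' hp hq hc h1 h2 K _ _ γ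
  have hr : Ray k p' q' K γ → (p' : ℕ∞) * (γ 1).order = q' * (γ 0).order := by
    rintro ⟨i, -, e0, e1⟩
    rw [e0, e1]
    push_cast
    ring
  refine ⟨fun hf => ⟨fun h => ?_, ?_⟩, fun h => h.1.2.ne (hr h.2), fun h => lt_asymm h.1.2 h.2.1,
    fun h => h.2.1.ne' (hr h.1)⟩
  · rcases lt_trichotomy ((p' : ℕ∞) * (γ 1).order) (q' * (γ 0).order) with ho | ho | ho
    · exact Or.inl ⟨h.1, ho⟩
    · refine Or.inr (Or.inl ?_)
      have hp' : (p' : ℕ∞) ≠ 0 := by exact_mod_cast hp.ne'
      have hq' : (q' : ℕ∞) ≠ 0 := by exact_mod_cast hq.ne'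
      have c1 := h.1
      unfold Ray
      generalize (γ 0).order = x at *
      generalize (γ 1).order = y at *
      induction x using ENat.recTopCoe with
      | top =>
        induction y using ENat.recTopCoe with
        | top => simp at hf
        | coe y =>
          rw [ENat.mul_top hq'] at ho
          exact absurd ho (by exact_mod_cast ENat.natCast_ne_top (p' * y))
      | coe x =>
        induction y using ENat.recTopCoe with
        | top =>
          rw [ENat.mul_top hp'] at ho
          exact absurd ho.symm (by exact_mod_cast ENat.natCast_ne_top (q' * x))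
        | coe y =>
          have ho' : p' * y = q' * x := by exact_mod_cast ho
          have c2 : q * x < p * y := by exact_mod_cast c1
          obtain ⟨i, rfl⟩ : p' ∣ x := hc.dvd_of_dvd_mul_left ⟨y, ho'.symm⟩
          have hy : y = q' * i := Nat.eq_of_mul_eq_mul_left hp (by rw [ho']; ring)
          subst hy
          refine ⟨i, Nat.pos_of_ne_zero ?_, rfl, rfl⟩
          rintro rfl
          simp at c2
    · exact Or.inr (Or.inr ⟨ho, h.2⟩)
  · rintro (h | ⟨i, hi, e0, e1⟩ | h)
    · exact ⟨h.1, lt_trans_slope hp (by rwa [mul_comm p'', mul_comm q'']) h.2⟩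
    · unfold Cone
      rw [e0, e1]
      have g1 := Nat.mul_lt_mul_of_pos_right h1 hi
      have g2 := Nat.mul_lt_mul_of_pos_right h2 hi
      have g3 : q * (p' * i) < p * (q' * i) := by nlinarith
      have g4 : p'' * (q' * i) < q'' * (p' * i) := by nlinarith
      exact ⟨by exact_mod_cast g3, by exact_mod_cast g4⟩
    · exact ⟨lt_trans_slope hq h1 h.1, h.2⟩

end Pool.Agent.P.MP_b91a16_ag.Id
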