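import Pool.Agent.P.MP_b91a16_ag.Id.Base

/-! Ideals in two variables, package C: the Tschirnhaus series and its truncation. -/

open MvPolynomial

namespace Pool.Agent.P.MP_b91a16_ag.Id

noncomputable section

variable {k : Type} [Field k]

namespace PC

theorem cf0 (G : P2 k) (a m : ℕ) :
    PowerSeries.coeff a ((Φs 0 G).coeff m) = coeff (ex a m) G := by
  induction G using MvPolynomial.induction_on' with
  | add p q hp hq => simp only [map_add, Polynomial.coeff_add, coeff_add, hp, hq]
  | monomial v c =>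
    have e : Φs 0 (monomial v c) =
        Polynomial.C (PowerSeries.C c * PowerSeries.X ^ v 0) * Polynomial.X ^ v 1 := by
      conv_lhs => rw [← ex_eta v, monomial_ex]
      simp [Φs]
    rw [e, Polynomial.coeff_C_mul_X_pow, coeff_monomial]
    by_cases h : v = ex a m
    · subst h
      simp
    · rw [if_neg h]
      split_ifs with h1
      · rw [PowerSeries.coeff_C_mul, PowerSeries.coeff_X_pow, if_neg, mul_zero]
        rintro rfl
        exact h (h1 ▸ (ex_eta v).symm)
      · simp

theorem sh_eq (ψ : Polynomial k) (G : P2 k) : Φs 0 (aeval (sh ψ) G) = Φs (ψ : PowerSeries k) G := by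
  rw [Φs, Φs, aeval_aeval]
  congr 2
  funext j
  fin_cases j
  · simp [sh]
  · have e : Polynomial.aeval (Polynomial.C (PowerSeries.X : PowerSeries k)) ψ =
        Polynomial.C (ψ : PowerSeries k) := by
      rw [← Polynomial.eval₂_C_X_eq_coe]
      exact Polynomial.aeval_algHom_apply (Polynomial.CAlgHom (R := k)) PowerSeries.X ψ
    simp [sh, ← Polynomial.aeval_algHom_apply, e]

theorem taylor_eq (φ : PowerSeries k) (G : P2 k) : Φs φ G = Polynomial.taylor φ (Φs 0 G) := by
  induction G using MvPolynomial.induction_on with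
  | C c => simp [Φs]
  | add p q hp hq => simp only [map_add, hp, hq]
  | mul_X p j hp =>
    rw [map_mul, map_mul, Polynomial.taylor_mul, hp]
    congr 1
    fin_cases j <;> simp [Φs]

/-- A contraction of the ring of power series has a fixed point. -/
theorem fixed (T : PowerSeries k → PowerSeries k) (h : ∀ n Z Z', PowerSeries.X ^ n ∣ Z - Z' →
    PowerSeries.X ^ (n + 1) ∣ T Z - T Z') : ∃ Z, T Z = Z := by
  have h1 : ∀ n d, PowerSeries.X ^ n ∣ T^[n + d] 0 - T^[n] 0 := fun n d => by
    induction n with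
    | zero => simp
    | succ n ih =>
      rw [Nat.add_right_comm, Function.iterate_succ_apply', Function.iterate_succ_apply']
      exact h _ _ _ ih
  set Z := PowerSeries.mk fun n => PowerSeries.coeff n (T^[n + 1] 0)
  have h2 : ∀ n, PowerSeries.X ^ n ∣ Z - T^[n] 0 := fun n => by
    refine PowerSeries.X_pow_dvd_iff.2 fun i hi => ?_
    obtain ⟨d, rfl⟩ := Nat.exists_eq_add_of_le (show i + 1 ≤ n from hi)
    have := PowerSeries.X_pow_dvd_iff.1 (h1 (i + 1) d) i (Nat.lt_succ_self i)
    rw [map_sub, sub_eq_zero] at this ⊢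
    rw [this, PowerSeries.coeff_mk]
  refine ⟨Z, PowerSeries.ext fun n => ?_⟩
  have h3 := dvd_sub (h n _ _ (h2 n)) (h2 (n + 1))
  rw [Function.iterate_succ_apply', sub_sub_sub_cancel_right] at h3
  have := PowerSeries.X_pow_dvd_iff.1 h3 n (Nat.lt_succ_self n)
  rwa [map_sub, sub_eq_zero] at this

/-- A polynomial whose linear term dominates has a root. -/
theorem root (P : Polynomial (PowerSeries k)) (N : ℕ) (u : PowerSeries k)
    (h0 : PowerSeries.X ^ N ∣ P.coeff 0) (h1 : P.coeff 1 = PowerSeries.X ^ N * u)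
    (hu : PowerSeries.constantCoeff u ≠ 0)
    (h2 : ∀ j, PowerSeries.X ^ (N + 1) ∣ P.coeff (j + 2)) : ∃ Z, P.eval Z = 0 := by
  obtain ⟨Q, hQ⟩ := h0
  obtain ⟨H, hH⟩ : Polynomial.C (PowerSeries.X ^ (N + 1)) ∣
      P - Polynomial.C (P.coeff 0) - Polynomial.C (P.coeff 1) * Polynomial.X := by
    refine (Polynomial.C_dvd_iff_dvd_coeff _ _).2 fun j => ?_
    rcases j with _ | _ | j
    · simp
    · simp
    · simpa [Polynomial.coeff_X, Polynomial.coeff_C] using h2 j
  obtain ⟨Z, hZ⟩ := fixed (fun Z => -(u⁻¹ * (Q + PowerSeries.X * H.eval Z))) fun n Z Z' h => by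
    obtain ⟨W, hW⟩ := h.trans (Polynomial.sub_dvd_eval_sub Z Z' H)
    exact ⟨-(u⁻¹ * W), by linear_combination (-(u⁻¹ * PowerSeries.X)) * hW⟩
  refine ⟨Z, ?_⟩
  have e := congrArg (Polynomial.eval Z) hH
  simp only [Polynomial.eval_sub, Polynomial.eval_mul, Polynomial.eval_C, Polynomial.eval_X] at e
  have e2 := PowerSeries.mul_inv_cancel u hu
  rw [hQ, h1] at e
  linear_combination e - PowerSeries.X ^ N * u * hZ -
    PowerSeries.X ^ N * (Q + PowerSeries.X * H.eval Z) * e2

end PC

open PC

theorem trunc : S_trunc k := by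
  intro φ D a m G ha
  rw [← cf0, sh_eq]
  have h : Polynomial.C (PowerSeries.X ^ D) ∣ Φs φ G - Φs (φ.trunc D : PowerSeries k) G := by
    refine aeval_congr_dvd (fun j => ?_) G
    fin_cases j
    · simp
    · have e : PowerSeries.X ^ D ∣ φ - (φ.trunc D : PowerSeries k) :=
        PowerSeries.X_pow_dvd_iff.2 fun i hi => by simp [PowerSeries.coeff_trunc, hi]
      simpa using map_dvd Polynomial.C e
  have h1 := PowerSeries.X_pow_dvd_iff.1 ((Polynomial.C_dvd_iff_dvd_coeff _ _).1 h m) a ha
  rw [Polynomial.coeff_sub, map_sub, sub_eq_zero] at h1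
  exact h1.symm

theorem tsch [CharZero k] : S_tsch k := by
  intro p q a m G hp hm hκ hlo hst
  obtain ⟨m, rfl⟩ : ∃ m', m = m' + 1 := ⟨m - 1, by omega⟩
  set n := q / p + 1
  have hn : q < p * n := Nat.lt_mul_div_succ q hp
  have dv : ∀ j t, (∀ i < t, ex i j ∉ G.support) → PowerSeries.X ^ t ∣ (Φs 0 G).coeff j :=
    fun j t h => PowerSeries.X_pow_dvd_iff.2 fun i hi => by
      rw [cf0]
      exact notMem_support_iff.1 (h i hi)
  obtain ⟨b, hb⟩ := dv (m + 1) a fun i hi h => by
    have h1 := hlo _ h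
    have h2 := Nat.mul_lt_mul_of_pos_left hi hp
    simp only [wt, ex_zero, ex_one] at h1
    omega
  have hb0 : PowerSeries.constantCoeff b ≠ 0 := by
    rw [← cf0, hb] at hκ
    have := PowerSeries.coeff_X_pow_mul b a 0
    rw [zero_add] at this
    rwa [this, PowerSeries.coeff_zero_eq_constantCoeff_apply] at hκ
  obtain ⟨Z, hZ⟩ := root ((Polynomial.hasseDeriv m (Φs 0 G)).comp
    (Polynomial.C (PowerSeries.X ^ n) * Polynomial.X)) (a + n) (((m + 1 : ℕ) : PowerSeries k) * b)
    (by
      rw [Polynomial.comp_C_mul_X_coeff, Polynomial.hasseDeriv_coeff, pow_zero, mul_one]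
      refine (dv _ _ fun i hi h => ?_).mul_left _
      have h1 := hst _ h (by simp)
      simp only [wt, ex_zero, ex_one, zero_add, mul_add, mul_one] at h1
      have h2 : i ≤ a + q / p := by omega
      have h3 := Nat.mul_le_mul_left p h2
      have h4 := Nat.mul_div_le q p
      rw [mul_add] at h3
      omega)
    (by
      rw [Polynomial.comp_C_mul_X_coeff, Polynomial.hasseDeriv_coeff, add_comm 1 m, hb,
        Nat.choose_succ_self_right]
      ring)
    (by
      rw [map_mul, map_natCast]
      exact mul_ne_zero (Nat.cast_ne_zero.2 (Nat.succ_ne_zero m)) hb0)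
    (fun j => by
      rw [Polynomial.comp_C_mul_X_coeff, Polynomial.hasseDeriv_coeff, ← pow_mul, mul_assoc]
      have h0 := dv (j + 2 + m) (a + n + 1 - n * (j + 2)) fun i hi h => by
        have h1 := hlo _ h
        have h2 : i + n * (j + 1) ≤ a := by
          have : n * (j + 2) = n * (j + 1) + n := by ring
          omega
        have h3 := Nat.mul_le_mul_left p h2
        have h4 := Nat.mul_lt_mul_of_pos_right hn (Nat.succ_pos j)
        simp only [wt, ex_zero, ex_one] at h1
        nlinarith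
      refine Dvd.dvd.mul_left (dvd_trans ?_ (mul_dvd_mul_right h0 _)) _
      rw [← pow_add]
      exact pow_dvd_pow _ (by omega))
  refine ⟨PowerSeries.X ^ n * Z, fun i hi => ?_, ?_⟩
  · refine hn.trans_le (Nat.mul_le_mul_left p (not_lt.1 fun h => hi ?_))
    exact PowerSeries.X_pow_dvd_iff.1 (dvd_mul_right _ Z) i h
  · rw [taylor_eq, Polynomial.taylor_coeff, Nat.add_sub_cancel]
    simpa [Polynomial.eval_comp] using hZ

end

end Pool.Agent.P.MP_b91a16_ag.Id
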