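import Pool.Agent.P.MP_b91a16_ag.Id.Base

/-! The lowest vertex of a face, and the next slope. -/

open MvPolynomial

namespace Pool.Agent.P.MP_b91a16_ag.Id

variable {k ι ρ : Type} [Field k] [Fintype ι] [Fintype ρ] [DecidableEq ρ]

theorem bottom_ok : S_bottom k ι ρ := by
  classical
  intro p q g β a m hp hH hL
  have h0 : ∀ j, ∃ t, ∃ i, ∃ v ∈ (g i).support, β i = j ∧ wt p q v = p * a j + q * m j ∧ v 1 = t :=
    fun j => by
      obtain ⟨i, h1, h2⟩ := hH j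
      exact ⟨_, i, _, mem_support_iff.2 h2, h1, by rw [wt, ex_zero, ex_one], rfl⟩
  choose i v h1 h2 h3 h4 using fun j => Nat.find_spec (h0 j)
  have h5 : ∀ j, v j 1 ≤ m j := fun j => by
    obtain ⟨i, h1, h2⟩ := hH j
    rw [h4]
    exact Nat.find_min' _ ⟨i, _, mem_support_iff.2 h2, h1, by rw [wt, ex_zero, ex_one], ex_one _ _⟩
  have h6 : ∀ j, p * v j 0 + q * v j 1 = p * a j + q * m j := h3
  refine ⟨fun j => v j 0, fun j => v j 1, ⟨fun j => ⟨i j, h2 j, ?_⟩, fun l w hw => ?_,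
    fun l w hw h => ?_⟩, funext h6, fun j => ⟨h5 j, ?_⟩⟩
  · rw [ex_eta]
    exact mem_support_iff.1 (h1 j)
  · exact (h6 _).trans_le (hL l w hw)
  · refine (h6 _).trans_lt ((hL l w hw).lt_of_ne fun e => ?_)
    exact Nat.find_min _ (h.trans_eq (h4 _)) ⟨l, w, hw, rfl, e.symm, rfl⟩
  · have := Nat.mul_le_mul_left q (h5 j)
    have := h6 j
    exact Nat.le_of_mul_le_mul_left (show p * a j ≤ p * v j 0 by omega) hp

theorem next_ok : S_next k ι ρ := by
  classical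
  intro p q g β a m i v hp ⟨hH, hL, hS⟩ hv hm
  let R : (Σ _ : ι, Fin 2 →₀ ℕ) → ℚ := fun x =>
    ((x.2 0 : ℚ) - a (β x.1)) / ((m (β x.1) : ℚ) - x.2 1)
  obtain ⟨⟨i', v'⟩, h1, h2⟩ := (Finset.univ.sigma fun i => (g i).support.filter
    fun w : Fin 2 →₀ ℕ => w 1 < m (β i)).exists_min_image R ⟨⟨i, v⟩, Finset.mem_sigma.2 ⟨Finset.mem_univ _,
      Finset.mem_filter.2 ⟨hv, hm⟩⟩⟩
  simp only [Finset.mem_sigma, Finset.mem_univ, Finset.mem_filter, true_and] at h1 h2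
  have pos : ∀ {l : ι} {w : Fin 2 →₀ ℕ}, w 1 < m (β l) → (0 : ℚ) < (m (β l) : ℚ) - w 1 :=
    fun h => sub_pos.2 (by exact_mod_cast h)
  obtain ⟨r, hr⟩ : ∃ r, r = R ⟨i', v'⟩ := ⟨_, rfl⟩
  have r1 : r * ((m (β i') : ℚ) - v' 1) = v' 0 - a (β i') := by
    rw [hr]
    exact div_mul_cancel₀ _ (pos h1.2).ne'
  have r2 : ∀ l, ∀ w ∈ (g l).support, w 1 < m (β l) →
      r * ((m (β l) : ℚ) - w 1) ≤ w 0 - a (β l) := fun l w hw h =>
    (le_div_iff₀ (pos h)).1 (hr ▸ h2 ⟨l, w⟩ ⟨hw, h⟩)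
  have p0 : (0 : ℚ) < p := by exact_mod_cast hp
  have r3 : (q : ℚ) < p * r := by
    have h3 : (p : ℚ) * a (β i') + q * m (β i') < p * v' 0 + q * v' 1 := by
      exact_mod_cast hS i' v' h1.1 h1.2
    refine lt_of_mul_lt_mul_right ?_ (pos h1.2).le
    rw [mul_assoc, r1]
    linarith
  have r0 : 0 ≤ r := le_of_mul_le_mul_left (by
    rw [mul_zero]
    exact le_trans (Nat.cast_nonneg q) r3.le) p0
  obtain ⟨p', hp'⟩ : ∃ p', p' = r.den := ⟨_, rfl⟩
  obtain ⟨q', hq'⟩ : ∃ q', q' = r.num.natAbs := ⟨_, rfl⟩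
  have p1 : 0 < p' := hp' ▸ r.den_pos
  have p2 : (0 : ℚ) < p' := by exact_mod_cast p1
  have e : (q' : ℚ) = p' * r := by
    rw [hq', hp', Nat.cast_natAbs, abs_of_nonneg (Rat.num_nonneg.2 r0), Rat.den_mul_eq_num]
  have up : ∀ l, ∀ w ∈ (g l).support, m (β l) ≤ w 1 → (p * r - q) * ((w 1 : ℚ) - m (β l)) ≤
      p * (w 0 - a (β l) + r * (w 1 - m (β l))) := fun l w hw _ => by
    have h3 : (p : ℚ) * a (β l) + q * m (β l) ≤ p * w 0 + q * w 1 := by
      exact_mod_cast hL l w hw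
    linarith
  refine ⟨p', q', p1, hp' ▸ hq' ▸ r.reduced.symm, ?_, ?_, ⟨hH, fun l w hw => ?_,
    fun l w hw h => ?_⟩, i', v', h1.1, ?_, h1.2⟩
  · have : (q : ℚ) * p' < p * q' := by
      rw [e]
      linarith [mul_lt_mul_of_pos_right r3 p2]
    exact_mod_cast this
  · have h3 : (v 1 : ℚ) + 1 ≤ m (β i) := by exact_mod_cast hm
    have h4 := mul_le_mul_of_nonneg_left (show (1 : ℚ) ≤ m (β i) - v 1 by linarith) r0
    have h5 : r ≤ v 0 := by linarith [r2 i v hv hm, Nat.cast_nonneg (α := ℚ) (a (β i))]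
    have : (q' : ℚ) ≤ p' * v 0 := e ▸ mul_le_mul_of_nonneg_left h5 p2.le
    exact_mod_cast this
  · have h3 : 0 ≤ (w 0 : ℚ) - a (β l) + r * (w 1 - m (β l)) := by
      rcases lt_or_ge (w 1) (m (β l)) with h | h
      · linarith [r2 l w hw h]
      · refine le_of_mul_le_mul_left ?_ p0
        rw [mul_zero]
        exact le_trans (mul_nonneg (sub_pos.2 r3).le (sub_nonneg.2 (by exact_mod_cast h)))
          (up l w hw h)
    have : (p' : ℚ) * a (β l) + q' * m (β l) ≤ p' * w 0 + q' * w 1 := by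
      rw [e]
      linarith [mul_nonneg p2.le h3]
    exact_mod_cast this
  · by_contra c
    have c1 := not_le.1 c
    have h3 : (p' : ℚ) * w 0 + q' * w 1 = p' * a (β l) + q' * m (β l) := by exact_mod_cast h
    have h4 : (w 0 : ℚ) - a (β l) + r * (w 1 - m (β l)) = 0 := by
      refine mul_left_cancel₀ p2.ne' ?_
      rw [e] at h3
      linarith
    have h5 := up l w hw c1.le
    rw [h4, mul_zero] at h5
    exact absurd (mul_pos (sub_pos.2 r3) (sub_pos.2 (by exact_mod_cast c1))) (not_lt.2 h5)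
  · have : (p' : ℚ) * v' 0 + q' * v' 1 = p' * a (β i') + q' * m (β i') := by
      rw [e]
      linear_combination -(p' : ℚ) * r1
    exact_mod_cast this

end Pool.Agent.P.MP_b91a16_ag.Id
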