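import Pool.Agent.P.MP_b91a16_ag.Id.Base

/-! Ideals in two variables: the points of the exceptional curve of a toric chart. -/

open MvPolynomial

namespace Pool.Agent.P.MP_b91a16_ag.Id

noncomputable section

variable {k ι ρ : Type} [Field k] [Fintype ι] [Fintype ρ] [DecidableEq ρ]

namespace PE

variable {p q u w N : ℕ} {G : P2 k} {φ : Polynomial k} {c : k}

theorem face (hd : p * w = q * u + 1) (v : Fin 2 →₀ ℕ) :
    p * wt u w v = u * wt p q v + v 1 := by
  unfold wt
  linear_combination v 1 * hd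

theorem coeff_ini (hd : p * w = q * u + 1) {v : Fin 2 →₀ ℕ} (hv : wt p q v = N) :
    (ini p q N u w G).coeff (wt u w v) = coeff v G := by
  unfold ini
  rw [Polynomial.finsetSum_coeff, Finset.sum_eq_single v]
  · simp
  · intro v' h1 h2
    rw [Polynomial.coeff_monomial, if_neg fun e => h2 ?_]
    have h3 := (Finset.mem_filter.1 h1).2
    have h4 := face hd v
    have h5 := face hd v'
    rw [e, h3, h4, hv] at h5
    have h6 : v 1 = v' 1 := by omega
    have h7 : v' 0 = v 0 := by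
      have h8 : w * wt p q v' + q * wt u w v = w * wt p q v + q * wt u w v' := by rw [e, h3, hv]
      unfold wt at h8
      zify at h8 hd ⊢
      linear_combination h8 - (v' 0 - v 0 : ℤ) * hd
    rw [← ex_eta v', h7, ← h6, ex_eta]
  · intro h
    rw [Finset.mem_filter, not_and_or, notMem_support_iff] at h
    simp [h.resolve_right (not_not.2 hv)]

theorem ini_supp {t : ℕ} (h : (ini p q N u w G).coeff t ≠ 0) :
    ∃ v ∈ G.support, wt p q v = N ∧ wt u w v = t := by
  unfold ini at h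
  rw [Polynomial.finsetSum_coeff] at h
  obtain ⟨v, h1, h2⟩ := Finset.exists_ne_zero_of_sum_ne_zero h
  rw [Finset.mem_filter] at h1
  refine ⟨v, h1.1, h1.2, by_contra fun e => h2 ?_⟩
  rw [Polynomial.coeff_monomial, if_neg e]

theorem mult_le (h : φ ≠ 0) (hc : c ≠ 0) :
    φ.rootMultiplicity c + φ.natTrailingDegree ≤ φ.natDegree := by
  have h1 := ((Polynomial.isCoprime_X_sub_C_of_isUnit_sub (a := c) (b := 0)
    (by simpa using hc)).pow).mul_dvd (φ.pow_rootMultiplicity_dvd c) (φ.pow_rootMultiplicity_dvd 0)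
  have h2 := Polynomial.natDegree_le_of_dvd h1 h
  rwa [((Polynomial.monic_X_sub_C _).pow _).natDegree_mul ((Polynomial.monic_X_sub_C _).pow _),
    Polynomial.natDegree_pow, Polynomial.natDegree_pow, Polynomial.natDegree_X_sub_C,
    Polynomial.natDegree_X_sub_C, mul_one, mul_one,
    Polynomial.rootMultiplicity_eq_natTrailingDegree'] at h2

theorem not_pow [CharZero k] {m : ℕ} (h : φ ≠ 0) (hc : c ≠ 0) (hm : 0 < m) (h1 : φ.natDegree ≤ m)
    (h2 : φ.coeff (m - 1) = 0) : φ.rootMultiplicity c < m := by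
  by_contra h3
  obtain ⟨r, rfl⟩ := (pow_dvd_pow _ (not_lt.1 h3)).trans (φ.pow_rootMultiplicity_dvd c)
  have hr : r ≠ 0 := right_ne_zero_of_mul h
  rw [((Polynomial.monic_X_sub_C _).pow _).natDegree_mul' hr, Polynomial.natDegree_pow,
    Polynomial.natDegree_X_sub_C] at h1
  obtain ⟨κ, rfl⟩ := Polynomial.natDegree_eq_zero.1 (show r.natDegree = 0 by omega)
  obtain ⟨m, rfl⟩ := Nat.exists_eq_succ_of_ne_zero hm.ne'
  rw [Polynomial.coeff_mul_C, sub_eq_add_neg, ← map_neg, Polynomial.coeff_X_add_C_pow] at h2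
  simp [hc, Nat.cast_add_one_ne_zero] at h2
  simp [h2] at hr

theorem ini_tr (h : Ini G N φ) (c : k) : Ini (aeval (tr c) G) N (Polynomial.taylor c φ) := by
  obtain ⟨r, rfl⟩ := h
  refine ⟨aeval (tr c) r, ?_⟩
  rw [map_mul, map_add, map_mul, map_pow, ← Polynomial.aeval_algHom_apply, Polynomial.taylor_apply,
    Polynomial.aeval_comp]
  simp [tr]

theorem ini_le (h : Ini G N φ) {v : Fin 2 →₀ ℕ} (hv : v ∈ G.support) : N ≤ v 0 := by
  obtain ⟨r, rfl⟩ := h
  rw [mem_support_iff, X_pow_eq_monomial, coeff_monomial_mul'] at hv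
  by_contra e
  exact hv (if_neg fun h => e (by simpa using h 0))

theorem ini_coeff (h : Ini G N φ) (t : ℕ) : coeff (ex N t) G = φ.coeff t := by
  obtain ⟨r, rfl⟩ := h
  have e : ex N t = Finsupp.single 0 N + ex 0 t := by simp [ex]
  rw [X_pow_eq_monomial, e, coeff_monomial_mul, one_mul, coeff_add, coeff_X_mul',
    if_neg (by simp), add_zero]
  induction φ using Polynomial.induction_on' with
  | add a b ha hb => simp only [map_add, coeff_add, Polynomial.coeff_add, ha, hb]
  | monomial n a =>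
    have : Polynomial.aeval (X 1 : P2 k) (Polynomial.monomial n a) = monomial (ex 0 n) a := by
      simp [monomial_ex, Polynomial.aeval_monomial]
    rw [this, coeff_monomial, Polynomial.coeff_monomial]
    exact if_congr ⟨fun e => by simpa using congrArg (· 1) e, fun e => e ▸ rfl⟩ rfl rfl

end PE

open PE

theorem child [CharZero k] (hI : S_ini k) : S_child k ι ρ := by
  classical
  intro p q u w g β a m c hp hd hu ⟨hH, hL, hN⟩ hc
  obtain ⟨ψ, hψ⟩ : ∃ ψ : ι → Polynomial k, ψ = fun i => ini p q (nv p q a m (β i)) u w (g i) :=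
    ⟨_, rfl⟩
  have h1 : ∀ i, Ini (pb (tr c) (pb (tor k p q u w) g) i) (nv p q a m (β i))
      (Polynomial.taylor c (ψ i)) := fun i => hψ ▸ ini_tr (hI _ _ _ _ _ _ (hL i)) c
  have h2 : ∀ i, coeff (ex (a (β i)) (m (β i))) (g i) ≠ 0 → ψ i ≠ 0 := fun i h e => h (by
    rw [← coeff_ini (N := nv p q a m (β i)) hd (by simp [wt, nv])]
    rw [hψ] at e
    exact (congrArg (Polynomial.coeff · _) e).trans (Polynomial.coeff_zero _))
  have h3 : ∀ i, ψ i ≠ 0 → (Polynomial.taylor c (ψ i)).coeff ((ψ i).rootMultiplicity c) ≠ 0 :=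
    fun i h => by
      rw [Polynomial.rootMultiplicity_eq_natTrailingDegree, ← Polynomial.taylor_apply,
        Polynomial.coeff_natTrailingDegree_ne_zero]
      simpa using h
  have h4 : ∀ i t, (ψ i).coeff t ≠ 0 →
      u * nv p q a m (β i) ≤ p * t ∧ p * t ≤ u * nv p q a m (β i) + m (β i) := fun i t h => by
    rw [hψ] at h
    obtain ⟨v, v1, v2, rfl⟩ := ini_supp h
    have := hN i v v1 v2
    rw [face hd, v2]
    omega
  have h5 : ∀ i, ψ i ≠ 0 → p * (ψ i).rootMultiplicity c ≤ m (β i) := fun i h => by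
    have a1 := (h4 i _ (Polynomial.coeff_natTrailingDegree_ne_zero.2 h)).1
    have a2 := (h4 i _ (Polynomial.leadingCoeff_ne_zero.2 h)).2
    have a3 := Nat.mul_le_mul_left p (mult_le h hc)
    rw [mul_add] at a3
    omega
  have hex : ∀ j, ∃ t i, β i = j ∧ (Polynomial.taylor c (ψ i)).coeff t ≠ 0 := fun j => by
    obtain ⟨i, rfl, h⟩ := hH j
    exact ⟨_, i, rfl, h3 i (h2 i h)⟩
  have h6 : ∀ i t, (Polynomial.taylor c (ψ i)).coeff t ≠ 0 → Nat.find (hex (β i)) ≤ t :=
    fun i t h => Nat.find_min' _ ⟨i, rfl, h⟩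
  have h7 : ∀ j, p * Nat.find (hex j) ≤ m j := fun j => by
    obtain ⟨i, rfl, h⟩ := hH j
    exact (Nat.mul_le_mul_left p (h6 i _ (h3 i (h2 i h)))).trans (h5 i (h2 i h))
  refine ⟨fun j => Nat.find (hex j), ⟨fun j => ?_, fun i v hv => ?_, fun i v hv h => ?_⟩, h7, ?_⟩
  · obtain ⟨i, e, h⟩ := Nat.find_spec (hex j)
    subst e
    exact ⟨i, rfl, by rwa [ini_coeff (h1 i)]⟩
  · simpa [wt] using ini_le (h1 i) hv
  · have h8 := ini_le (h1 i) hv
    have h9 : nv p q a m (β i) ≠ v 0 := fun e => by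
      rw [mem_support_iff, ← ex_eta v, ← e, ini_coeff (h1 i)] at hv
      exact absurd (h6 i _ hv) (not_le.2 h)
    simpa [wt] using lt_of_le_of_ne h8 h9
  · rintro ⟨i, i1, i2, i3⟩
    refine Finset.sum_lt_sum (fun j _ => (Nat.le_mul_of_pos_left _ hp).trans (h7 j))
      ⟨β i, Finset.mem_univ _, (h6 i _ (h3 i (h2 i i2))).trans_lt ?_⟩
    by_cases h : p = 1
    · obtain rfl := hu h
      subst h
      obtain rfl : w = 1 := by omega
      refine not_pow (h2 i i2) hc i1
        (by simpa using (h4 i _ (Polynomial.leadingCoeff_ne_zero.2 (h2 i i2))).2) ?_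
      rw [← i3 rfl, ← coeff_ini (N := nv 1 q a m (β i)) hd, hψ]
      · simp [wt]
      · obtain ⟨n, hn⟩ := Nat.exists_eq_succ_of_ne_zero i1.ne'
        simp only [wt, nv, hn, ex_zero, ex_one, Nat.succ_sub_one, Nat.succ_eq_add_one]
        ring
    · have := h5 i (h2 i i2)
      nlinarith [show 2 ≤ p by omega]

theorem gen [IsAlgClosed k] (hI : S_ini k) : S_gen k ι ρ := by
  classical
  intro p q u w g β a m hd hH hL _
  obtain ⟨ψ, hψ⟩ : ∃ ψ : ι → Polynomial k, ψ = fun i => ini p q (nv p q a m (β i)) u w (g i) :=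
    ⟨_, rfl⟩
  have h1 : ∀ i, Ini (pb (tor k p q u w) g i) (nv p q a m (β i)) (ψ i) :=
    fun i => hψ ▸ hI _ _ _ _ _ _ (hL i)
  have h2 : ∀ i, coeff (ex (a (β i)) (m (β i))) (g i) ≠ 0 → ψ i ≠ 0 := fun i h e => h (by
    rw [← coeff_ini (N := nv p q a m (β i)) hd (by simp [wt, nv])]
    rw [hψ] at e
    exact (congrArg (Polynomial.coeff · _) e).trans (Polynomial.coeff_zero _))
  refine ⟨Finset.univ.biUnion fun i => (ψ i).roots.toFinset, fun e K _ _ γ h0 hC => ?_⟩
  have h3 : ∀ i, (nv p q a m (β i) : ℕ∞) * (γ 0).order ≤ (aeval γ (pb (tor k p q u w) g i)).order ∧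
      (ψ i ≠ 0 → (aeval γ (pb (tor k p q u w) g i)).order =
        (nv p q a m (β i) : ℕ∞) * (γ 0).order) := fun i => by
    obtain ⟨r, hr⟩ := h1 i
    rw [hr, map_mul, map_pow, aeval_X, PowerSeries.order_mul, PowerSeries.order_pow, nsmul_eq_mul]
    refine ⟨le_self_add, fun h => ?_⟩
    refine (congrArg _ (not_not.1 (mt PowerSeries.order_ne_zero_iff_constCoeff_eq_zero.1
      fun e => ?_))).trans (add_zero _)
    have e1 : PowerSeries.constantCoeff (Polynomial.aeval (γ 1) (ψ i)) =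
        ((ψ i).map (algebraMap k K)).eval (PowerSeries.constantCoeff (γ 1)) := by
      rw [Polynomial.eval_map, Polynomial.aeval_def, Polynomial.hom_eval₂]
      congr 1
    rw [map_add, map_mul, aeval_X, ← Polynomial.aeval_algHom_apply, aeval_X, map_add, map_mul,
      PowerSeries.order_ne_zero_iff_constCoeff_eq_zero.1 h0.ne', zero_mul, add_zero, e1] at e
    have e2 := (Polynomial.mem_roots (Polynomial.map_ne_zero h)).2 e
    rw [(IsAlgClosed.splits _).roots_map, Multiset.mem_map] at e2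
    obtain ⟨c, c1, c2⟩ := e2
    exact hC c (Finset.mem_biUnion.2 ⟨i, Finset.mem_univ _, Multiset.mem_toFinset.2 c1⟩) c2.symm
  refine forall_congr' fun j => ?_
  obtain ⟨i, rfl, hi⟩ := hH j
  have h4 := (h3 i).2 (h2 i hi)
  simp only [dvd_iff_le_order, Pi.zero_apply, Nat.cast_zero, zero_mul, add_zero, not_le]
  constructor
  · rintro ⟨a1, i', a2, a3⟩
    refine le_antisymm ?_ (h4 ▸ a1 i rfl)
    have := (h3 i').1.trans_lt a3
    rw [a2, Nat.cast_add_one] at this
    exact Order.le_of_lt_add_one this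
  · intro h
    refine ⟨fun i' a1 => ?_, i, rfl, ?_⟩
    · rw [← h, ← a1]
      exact (h3 i').1
    · rw [h4, h]
      exact_mod_cast Nat.lt_succ_self _

end

end Pool.Agent.P.MP_b91a16_ag.Id
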