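import Pool.Agent.P.MP_b91a16_ag.Id.Base

/-! Two distinct roots on a face that is not a pure power. -/

set_option linter.unusedSectionVars false

open MvPolynomial

namespace Pool.Agent.P.MP_b91a16_ag.Id

variable {k ι ρ : Type} [Field k] [Fintype ι] [Fintype ρ] [DecidableEq ρ]

namespace PF

variable {p q N x t : ℕ} {G : P2 k}

theorem wt01 (v : Fin 2 →₀ ℕ) : wt 0 1 v = v 1 := by simp [wt]

theorem coeff_ini (hp : 0 < p) (h : p * x + q * t = N) :
    (ini p q N 0 1 G).coeff t = coeff (ex x t) G := by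
  unfold ini
  rw [Polynomial.finsetSum_coeff, Finset.sum_eq_single (ex x t)]
  · rw [wt01, ex_one, Polynomial.coeff_monomial_same]
  · intro v hv hne
    rw [wt01, Polynomial.coeff_monomial, if_neg]
    intro h1
    have h2 := (Finset.mem_filter.1 hv).2
    unfold wt at h2
    rw [h1, ← h] at h2
    have h3 : v 0 = x := Nat.eq_of_mul_eq_mul_left hp (by omega)
    exact hne (by rw [← ex_eta v, h1, h3])
  · intro hv
    have h1 : ex x t ∉ G.support := fun h2 =>
      hv (Finset.mem_filter.2 ⟨h2, by simpa [wt] using h⟩)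
    rw [notMem_support_iff.1 h1, map_zero, Polynomial.coeff_zero]

theorem ex_of_coeff (h : (ini p q N 0 1 G).coeff t ≠ 0) :
    ∃ v ∈ G.support, wt p q v = N ∧ v 1 = t := by
  unfold ini at h
  rw [Polynomial.finsetSum_coeff] at h
  obtain ⟨v, hv, h1⟩ := Finset.exists_ne_zero_of_sum_ne_zero h
  refine ⟨v, (Finset.mem_filter.1 hv).1, (Finset.mem_filter.1 hv).2, ?_⟩
  by_contra h2
  rw [wt01, Polynomial.coeff_monomial, if_neg h2] at h1
  exact h1 rfl

theorem coeff_zero (h : ∀ x, p * x + q * t ≠ N) : (ini p q N 0 1 G).coeff t = 0 := by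
  by_contra h1
  obtain ⟨v, -, h2, h3⟩ := ex_of_coeff h1
  exact h (v 0) (by rw [← h3]; exact h2)

theorem coeff_mb (hp : 0 < p) (c : ι → k) (g : ι → P2 k) :
    (ini p q N 0 1 (∑ i, C (c i) * g i)).coeff t = ∑ i, c i * (ini p q N 0 1 (g i)).coeff t := by
  by_cases h : ∃ x, p * x + q * t = N
  · obtain ⟨x, hx⟩ := h
    simp only [coeff_ini hp hx, coeff_sum, coeff_C_mul]
  · simp only [coeff_zero fun x hx => h ⟨x, hx⟩, mul_zero, Finset.sum_const_zero]

theorem pure [IsAlgClosed k] {φ : Polynomial k} {c : k} (h : ∀ r, φ.IsRoot r → r = c) :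
    φ = Polynomial.C φ.leadingCoeff * (Polynomial.X + Polynomial.C (-c)) ^ φ.natDegree := by
  have h1 := IsAlgClosed.splits φ
  have h2 : φ.roots = Multiset.replicate φ.natDegree c :=
    Multiset.eq_replicate.2 ⟨h1.natDegree_eq_card_roots.symm,
      fun r hr => h r (Polynomial.isRoot_of_mem_roots hr)⟩
  have h3 := h1.eq_prod_roots
  rw [h2, Multiset.map_replicate, Multiset.prod_replicate] at h3
  rw [map_neg, ← sub_eq_add_neg]
  exact h3

theorem rootA [IsAlgClosed k] [CharZero k] {φ : Polynomial k} {m : ℕ} (hm : 0 < m)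
    (h1 : φ.natDegree ≤ m) (h2 : φ.coeff m ≠ 0) (h3 : φ.coeff (m - 1) = 0) :
    φ.IsRoot 0 ∨ ∃ c c', c ≠ c' ∧ φ.IsRoot c ∧ φ.IsRoot c' := by
  have h4 : φ.natDegree = m := le_antisymm h1 (Polynomial.le_natDegree_of_ne_zero h2)
  obtain ⟨c, hc⟩ := IsAlgClosed.exists_root φ
    (Polynomial.natDegree_pos_iff_degree_pos.1 (h4 ▸ hm)).ne'
  by_cases h5 : ∀ r, φ.IsRoot r → r = c
  · have h6 := pure h5
    have h7 : φ.leadingCoeff ≠ 0 := by rw [Polynomial.leadingCoeff, h4]; exact h2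
    rw [h6, Polynomial.coeff_C_mul, Polynomial.coeff_X_add_C_pow, h4] at h3
    have h8 : (m.choose (m - 1) : k) ≠ 0 := Nat.cast_ne_zero.2 (Nat.choose_pos (by omega)).ne'
    have h9 : -c = 0 :=
      pow_eq_zero_iff (by omega) |>.1 ((mul_eq_zero.1 ((mul_eq_zero.1 h3).resolve_left h7)).resolve_right h8)
    exact Or.inl (neg_eq_zero.1 h9 ▸ hc)
  · push Not at h5
    obtain ⟨r, r1, r2⟩ := h5
    exact Or.inr ⟨r, c, r2, r1, hc⟩

theorem rootB [IsAlgClosed k] {φ : Polynomial k} {m t : ℕ} (h : t ≠ m) (h1 : φ.coeff m ≠ 0)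
    (h2 : φ.coeff t ≠ 0) : ∃ c ≠ 0, φ.IsRoot c := by
  by_contra h3
  have h4 := pure (φ := φ) (c := 0) fun r hr => by_contra fun h5 => h3 ⟨r, h5, hr⟩
  rw [neg_zero, map_zero, add_zero] at h4
  rw [h4, Polynomial.coeff_C_mul, Polynomial.coeff_X_pow] at h1 h2
  have a1 : m = φ.natDegree := by by_contra h5; simp [h5] at h1
  have a2 : t = φ.natDegree := by by_contra h5; simp [h5] at h2
  exact h (a2.trans a1.symm)

theorem comb {A1 A2 B1 B2 : k} (h1 : B1 ≠ 0) (h2 : A2 ≠ 0) :
    ∃ x y : k, x * A1 + y * B1 ≠ 0 ∧ x * A2 + y * B2 ≠ 0 := by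
  by_cases a : A1 = 0
  · by_cases b : B2 = 0
    · exact ⟨1, 1, by simpa [a], by simpa [b]⟩
    · exact ⟨0, 1, by simpa, by simpa⟩
  · exact ⟨1, 0, by simpa, by simpa⟩

variable {g : ι → P2 k} {β : ι → ρ} {a m : ρ → ℕ}

theorem deg_g (h : Nd p q g β a m) (i : ι) :
    (ini p q (nv p q a m (β i)) 0 1 (g i)).natDegree ≤ m (β i) := by
  refine Polynomial.natDegree_le_iff_coeff_eq_zero.2 fun t ht => by_contra fun h1 => ?_
  obtain ⟨v, v1, v2, v3⟩ := ex_of_coeff h1
  have := h.2.2 i v v1 v2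
  omega

theorem deg_mb (hp : 0 < p) (h : Nd p q g β a m) {c : ι → k} {j : ρ} (hc : ∀ i, c i ≠ 0 → β i = j) :
    (ini p q (nv p q a m j) 0 1 (∑ i, C (c i) * g i)).natDegree ≤ m j := by
  refine Polynomial.natDegree_le_iff_coeff_eq_zero.2 fun t ht => ?_
  rw [coeff_mb hp]
  refine Finset.sum_eq_zero fun i _ => ?_
  by_cases h1 : c i = 0
  · rw [h1, zero_mul]
  · obtain rfl := hc i h1
    rw [Polynomial.natDegree_le_iff_coeff_eq_zero.1 (deg_g h i) t ht, mul_zero]

theorem mb_single [DecidableEq ι] (i : ι) : ∑ i', C ((Pi.single i 1 : ι → k) i') * g i' = g i := by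
  rw [Finset.sum_eq_single i (fun i' _ h => by simp [h]) (by simp)]
  simp

theorem fam (hp : 0 < p) (h : Nd p q g β a m) (j : Bool → ρ) (c : Bool → ι → k) (r : Bool → k)
    (hc : ∀ b i, c b i ≠ 0 → β i = j b)
    (h0 : ∀ b, ini p q (nv p q a m (j b)) 0 1 (∑ i, C (c b i) * g i) ≠ 0)
    (h1 : ∀ b, (ini p q (nv p q a m (j b)) 0 1 (∑ i, C (c b i) * g i)).IsRoot (r b))
    (hr : r false ≠ r true) : Fam p q g β a m 2 := by
  classical
  choose s s1 s2 using h.1
  have hl : ∀ (l : ρ ⊕ Bool) i, Sum.elim (fun j => (Pi.single (s j) 1 : ι → k)) c l i ≠ 0 →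
      β i = Sum.elim id j l := by
    rintro (l | l) i hi
    · have : i = s l := by_contra fun h2 => hi (Pi.single_eq_of_ne h2 _)
      rw [this]; exact s1 l
    · exact hc l i hi
  refine ⟨ρ ⊕ Bool, inferInstance, Sum.elim id j, Sum.elim (fun j => Pi.single (s j) 1) c,
    {r false, r true}, fun l => ⟨.inl l, rfl⟩, hl, fun l => ⟨?_, deg_mb hp h (hl l)⟩,
    (Finset.card_pair hr).ge, fun z hz => ?_⟩
  · rcases l with l | l
    · have e : mem (Sum.elim (fun j => (Pi.single (s j) 1 : ι → k)) c) g (.inl l) = g (s l) :=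
        mb_single (g := g) (s l)
      rw [e]
      intro h2
      have h3 := coeff_ini (G := g (s l)) (q := q) (x := a l) (t := m l) hp rfl
      rw [show ini p q (p * a l + q * m l) 0 1 (g (s l)) = 0 from h2] at h3
      exact s2 l h3.symm
    · exact h0 l
  · rcases Finset.mem_insert.1 hz with rfl | hz
    · exact ⟨.inr false, h1 false⟩
    · rw [Finset.mem_singleton.1 hz]; exact ⟨.inr true, h1 true⟩

end PF

open PF in
theorem two_ok [CharZero k] [IsAlgClosed k] : S_two k ι ρ := by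
  classical
  rintro p q g β a m hp hpq h ⟨i, i1, i2, i3⟩ ⟨i', v, v1, v2, v3⟩
  have c1 : (ini p q (nv p q a m (β i)) 0 1 (g i)).coeff (m (β i)) ≠ 0 := by
    rwa [coeff_ini (N := nv p q a m (β i)) (q := q) (t := m (β i)) (x := a (β i)) hp rfl]
  have c2 : (ini p q (nv p q a m (β i)) 0 1 (g i)).coeff (m (β i) - 1) = 0 := by
    obtain ⟨n, hn⟩ := Nat.exists_eq_add_of_lt i1
    rw [zero_add] at hn
    by_cases h1 : p = 1
    · rw [coeff_ini (x := a (β i) + q) hp (by rw [nv, h1, hn, Nat.add_sub_cancel]; ring)]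
      exact i3 h1
    · refine coeff_zero fun x hx => h1 (hpq.eq_one_of_dvd ?_)
      rw [nv, hn, Nat.add_sub_cancel, mul_add, mul_one] at hx
      have h2 : p * x = p * a (β i) + q := by omega
      exact (Nat.dvd_add_right (dvd_mul_right _ _)).1 (h2 ▸ dvd_mul_right p x)
  have n1 : ini p q (nv p q a m (β i)) 0 1 (g i) ≠ 0 := fun h2 => c1 (by rw [h2]; rfl)
  have hs : ∀ i1, (Pi.single i 1 : ι → k) i1 ≠ 0 → β i1 = β i := fun i1 h2 => by
    rw [by_contra fun h3 : ¬ i1 = i => h2 (Pi.single_eq_of_ne h3 _)]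
  have e : ∑ i', C ((Pi.single i 1 : ι → k) i') * g i' = g i := mb_single (g := g) i
  rcases rootA i1 (deg_g h i) c1 c2 with r0 | ⟨c, c', hc, r1, r2⟩
  · obtain ⟨s, s1, s2⟩ := h.1 (β i')
    have d1 : (ini p q (nv p q a m (β i')) 0 1 (g s)).coeff (m (β i')) ≠ 0 := by
      rwa [coeff_ini (N := nv p q a m (β i')) (q := q) (t := m (β i')) (x := a (β i')) hp rfl]
    have d2 : (ini p q (nv p q a m (β i')) 0 1 (g i')).coeff (v 1) ≠ 0 := by
      rw [coeff_ini (x := v 0) hp v2, ex_eta]; exact mem_support_iff.1 v1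
    obtain ⟨x, y, x1, x2⟩ := comb (A1 := (ini p q (nv p q a m (β i')) 0 1 (g i')).coeff (m (β i')))
      (B2 := (ini p q (nv p q a m (β i')) 0 1 (g s)).coeff (v 1)) d1 d2
    have f : ∀ t, (ini p q (nv p q a m (β i')) 0 1
        (∑ i1, C ((Pi.single i' x + Pi.single s y : ι → k) i1) * g i1)).coeff t =
        x * (ini p q (nv p q a m (β i')) 0 1 (g i')).coeff t +
          y * (ini p q (nv p q a m (β i')) 0 1 (g s)).coeff t := fun t => by
      rw [coeff_mb hp]
      simp [Pi.single_apply, add_mul, Finset.sum_add_distrib]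
    rw [← f] at x1 x2
    obtain ⟨c, hc, r1⟩ := rootB v3.ne x1 x2
    refine fam hp h (fun b => bif b then β i' else β i)
      (fun b => bif b then Pi.single i' x + Pi.single s y else Pi.single i 1)
      (fun b => bif b then c else 0) ?_ ?_ ?_ hc.symm
    · rintro (_ | _) i1 h2
      · exact hs i1 h2
      · by_cases h3 : i1 = i'
        · rw [h3]; rfl
        · by_cases h4 : i1 = s
          · rw [h4]; exact s1
          · simp [h3, h4] at h2
    · rintro (_ | _)
      · simpa only [cond_false, e] using n1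
      · exact fun h2 => x1 ((congrArg (Polynomial.coeff · (m (β i'))) h2).trans
          (Polynomial.coeff_zero _))
    · rintro (_ | _)
      · simpa only [cond_false, e] using r0
      · exact r1
  · refine fam hp h (fun _ => β i) (fun _ => Pi.single i 1) (fun b => bif b then c' else c)
      (fun _ => hs) (fun _ => by rwa [e]) ?_ hc
    rintro (_ | _)
    · rwa [e]
    · rwa [e]

end Pool.Agent.P.MP_b91a16_ag.Id
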