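import Pool.Agent.P.MP_b91a16_ag.Id.Base

/-! Ideals in two variables: the tangent forms at the origin. -/

set_option linter.unusedSectionVars false

open MvPolynomial

namespace Pool.Agent.P.MP_b91a16_ag.Id

noncomputable section

variable {k ι ρ : Type} [Field k] [Fintype ι] [Fintype ρ] [DecidableEq ρ]

namespace PG

theorem deg2 (v : Fin 2 →₀ ℕ) : v.degree = v 0 + v 1 := by
  rw [Finsupp.degree_eq_sum, Fin.sum_univ_two]

theorem wt11 (v : Fin 2 →₀ ℕ) : wt 1 1 v = v 0 + v 1 := by simp [wt]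

/-- Setting `X = 1`. -/
def dh : P2 k →ₐ[k] Polynomial k := aeval ![1, Polynomial.X]

theorem dh_mon (v : Fin 2 →₀ ℕ) (c : k) : dh (monomial v c) = Polynomial.monomial (v 1) c := by
  rw [← ex_eta v, monomial_ex]
  simp [dh, Polynomial.C_mul_X_pow_eq_monomial]

theorem ini_eq (N : ℕ) (G : P2 k) : ini 1 1 N 0 1 G = dh (homogeneousComponent N G) := by
  rw [homogeneousComponent_apply, map_sum, ini]
  simp only [dh_mon, deg2, wt, one_mul, zero_mul, zero_add]

theorem coeff_dh (P : P2 k) (t : ℕ) :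
    (dh P).coeff t = ∑ v ∈ P.support, if v 1 = t then coeff v P else 0 := by
  conv_lhs => rw [P.as_sum, map_sum, Polynomial.finset_sum_coeff]
  simp only [dh_mon, Polynomial.coeff_monomial]

theorem coeff_dh_hom {P : P2 k} {N : ℕ} (h : P.IsHomogeneous N) {v : Fin 2 →₀ ℕ}
    (hv : v 0 + v 1 = N) : (dh P).coeff (v 1) = coeff v P := by
  rw [coeff_dh, Finset.sum_eq_single v, if_pos rfl]
  · intro w _ hw
    split_ifs with e
    · refine h.coeff_eq_zero fun e' => hw ?_
      rw [deg2] at e'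
      rw [← ex_eta w, ← ex_eta v, e, show w 0 = v 0 by omega]
    · rfl
  · intro hv'
    rw [if_pos rfl, notMem_support_iff.1 hv']

theorem dh_inj {P Q : P2 k} {N : ℕ} (h : P.IsHomogeneous N) (h' : Q.IsHomogeneous N)
    (e : dh P = dh Q) : P = Q := by
  ext v
  by_cases hv : v 0 + v 1 = N
  · rw [← coeff_dh_hom h hv, ← coeff_dh_hom h' hv, e]
  · rw [h.coeff_eq_zero (by rwa [deg2]), h'.coeff_eq_zero (by rwa [deg2])]

theorem coeff_lin (A : Matrix (Fin 2) (Fin 2) k) (G : P2 k) (v : Fin 2 →₀ ℕ) :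
    coeff v (aeval (lin A) G) =
      coeff v (aeval (lin A) (homogeneousComponent (v 0 + v 1) G)) := by
  have hl : ∀ i, (lin A i).IsHomogeneous 1 := fun i =>
    IsHomogeneous.sum _ _ _ fun j _ => isHomogeneous_C_mul_X _ _
  conv_lhs => rw [← sum_homogeneousComponent G, map_sum, coeff_sum]
  refine Finset.sum_eq_single _ (fun n _ hn => ?_) fun hn => ?_
  · refine ((homogeneousComponent_isHomogeneous n G).aeval _ hl).coeff_eq_zero ?_
    rw [deg2, one_mul]
    exact hn.symm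
  · rw [homogeneousComponent_eq_zero _ _ (by simpa using hn), map_zero, coeff_zero]

theorem exists_nd (f : ι → P2 k) (β : ι → ρ) (hf : ∀ j, ∃ i, β i = j ∧ f i ≠ 0) :
    ∃ a m, Nd 1 1 f β a m := by
  classical
  have key : ∀ j, ∃ a m : ℕ, (∃ i, β i = j ∧ coeff (ex a m) (f i) ≠ 0) ∧
      ∀ i, β i = j → ∀ v ∈ (f i).support, a + m ≤ v 0 + v 1 ∧ (v 0 + v 1 = a + m → v 1 ≤ m) := by
    intro j
    have h1 : ∃ n, ∃ i, β i = j ∧ ∃ v ∈ (f i).support, v 0 + v 1 = n := by
      obtain ⟨i, hi, h0⟩ := hf j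
      obtain ⟨v, hv⟩ := support_nonempty.2 h0
      exact ⟨_, i, hi, v, hv, rfl⟩
    have h2 : ∃ a, ∃ i, β i = j ∧ ∃ v ∈ (f i).support, v 0 + v 1 = Nat.find h1 ∧ v 0 = a := by
      obtain ⟨i, hi, v, hv, e⟩ := Nat.find_spec h1
      exact ⟨_, i, hi, v, hv, e, rfl⟩
    obtain ⟨i, hi, v, hv, e, e'⟩ := Nat.find_spec h2
    refine ⟨v 0, v 1, ⟨i, hi, by rw [ex_eta]; exact mem_support_iff.1 hv⟩, fun i' hi' w hw => ?_⟩
    have h3 := Nat.find_min' h1 ⟨i', hi', w, hw, rfl⟩
    refine ⟨by omega, fun e'' => ?_⟩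
    have h4 := Nat.find_min' h2 ⟨i', hi', w, hw, e''.trans e, rfl⟩
    omega
  choose a m h1 h2 using key
  refine ⟨a, m, h1, fun i v hv => ?_, fun i v hv e => ?_⟩
  · rw [wt11, one_mul, one_mul]
    exact (h2 _ i rfl v hv).1
  · rw [wt11, one_mul, one_mul] at e
    exact (h2 _ i rfl v hv).2 e

variable {f : ι → P2 k} {β : ι → ρ} {a m : ρ → ℕ}

/-- The tangent form of the generator `i`. -/
def ph (f : ι → P2 k) (β : ι → ρ) (a m : ρ → ℕ) (i : ι) : Polynomial k :=
  dh (homogeneousComponent (a (β i) + m (β i)) (f i))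

theorem ph_deg (h : Nd 1 1 f β a m) (i : ι) : (ph f β a m i).natDegree ≤ m (β i) := by
  refine Polynomial.natDegree_le_iff_coeff_eq_zero.2 fun t ht => ?_
  rw [ph, coeff_dh]
  refine Finset.sum_eq_zero fun v _ => ?_
  rw [coeff_homogeneousComponent]
  split_ifs with e e'
  · by_contra h0
    have := h.2.2 i v (mem_support_iff.2 h0) (by rw [wt11, one_mul, one_mul, ← deg2, e'])
    omega
  · rfl
  · rfl

theorem ph_top (i : ι) :
    (ph f β a m i).coeff (m (β i)) = coeff (ex (a (β i)) (m (β i))) (f i) := by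
  have := coeff_dh_hom (homogeneousComponent_isHomogeneous (a (β i) + m (β i)) (f i))
    (v := ex (a (β i)) (m (β i))) (by simp)
  rwa [ex_one, coeff_homogeneousComponent, if_pos (by simp [deg2])] at this

theorem fam_of (h : Nd 1 1 f β a m) (Λ : Type) [Fintype Λ] (blk : Λ → ρ) (lam : Λ → ι → k)
    (Z : Finset k) (hs : Function.Surjective blk) (hl : ∀ l i, lam l i ≠ 0 → β i = blk l)
    (h0 : ∀ l, ∑ i, Polynomial.C (lam l i) * ph f β a m i ≠ 0)
    (hZ : ∀ c ∈ Z, ∃ l, (∑ i, Polynomial.C (lam l i) * ph f β a m i).IsRoot c) {z : ℕ}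
    (hz : z ≤ Z.card) (hz0 : 0 < z) : nv 1 1 a m ≠ 0 ∧ Fam 1 1 f β a m z := by
  have e : ∀ l, ini 1 1 (nv 1 1 a m (blk l)) 0 1 (mem lam f l) =
      ∑ i, Polynomial.C (lam l i) * ph f β a m i := by
    intro l
    rw [ini_eq, mem, map_sum, map_sum]
    refine Finset.sum_congr rfl fun i _ => ?_
    by_cases h1 : lam l i = 0
    · simp [h1]
    · rw [homogeneousComponent_C_mul, map_mul, ph, hl l i h1, nv, one_mul, one_mul]
      simp [dh]
  have hd : ∀ l, (∑ i, Polynomial.C (lam l i) * ph f β a m i).natDegree ≤ m (blk l) := by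
    intro l
    refine Polynomial.natDegree_sum_le_of_forall_le _ _ fun i _ => ?_
    by_cases h1 : lam l i = 0
    · simp [h1]
    · exact (Polynomial.natDegree_C_mul_le _ _).trans (hl l i h1 ▸ ph_deg h i)
  refine ⟨fun hn => ?_, Λ, inferInstance, blk, lam, Z, hs, hl,
    fun l => by rw [e]; exact ⟨h0 l, hd l⟩, hz, fun c hc => ?_⟩
  · obtain ⟨c, hc⟩ := Finset.card_pos.1 (hz0.trans_le hz)
    obtain ⟨l, hr⟩ := hZ c hc
    have h1 := Polynomial.natDegree_pos_iff_degree_pos.2 (Polynomial.degree_pos_of_root (h0 l) hr)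
    have h2 := congrFun hn (blk l)
    have h3 := hd l
    simp only [nv, Pi.zero_apply] at h2
    omega
  · simp only [e]
    exact hZ c hc

theorem left_of (h : Nd 1 1 f β a m) (σ : ρ → ι)
    (hσ : ∀ j, β (σ j) = j) (hm : ∀ i, ∃ κ, ph f β a m i = Polynomial.C κ * ph f β a m (σ (β i)))
    (A : Matrix (Fin 2) (Fin 2) k) (hA : A.det ≠ 0) (l₁ l₂ : P2 k) (h₁ : l₁.IsHomogeneous 1)
    (h₂ : l₂.IsHomogeneous 1) (e₁ : aeval (lin A) l₁ = X 0) (e₂ : aeval (lin A) l₂ = X 1)
    (hf : ∀ j, ∃ (x y : ℕ) (κ : k), κ ≠ 0 ∧ x + y = a j + m j ∧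
      ph f β a m (σ j) = Polynomial.C κ * dh l₁ ^ x * dh l₂ ^ y) :
    ∃ (A : Matrix (Fin 2) (Fin 2) k) (a m : ρ → ℕ), A.det ≠ 0 ∧ Has (pb (lin A) f) β a m ∧
      ∀ i, ∀ v ∈ (pb (lin A) f i).support, v ≠ ex (a (β i)) (m (β i)) →
        a (β i) + m (β i) < v 0 + v 1 := by
  classical
  choose x y κ h0 hxy hf using hf
  have key : ∀ i κ', ph f β a m i = Polynomial.C κ' * dh l₁ ^ x (β i) * dh l₂ ^ y (β i) →
      aeval (lin A) (homogeneousComponent (x (β i) + y (β i)) (f i)) =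
        monomial (ex (x (β i)) (y (β i))) κ' := by
    intro i κ' e
    have h3 : (C κ' * l₁ ^ x (β i) * l₂ ^ y (β i)).IsHomogeneous (x (β i) + y (β i)) := by
      simpa only [one_mul] using ((h₁.pow (x (β i))).C_mul κ').mul (h₂.pow (y (β i)))
    rw [dh_inj (homogeneousComponent_isHomogeneous _ (f i)) h3 (by
      rw [hxy, map_mul, map_mul, map_pow, map_pow, ← ph, e]
      simp [dh])]
    simp only [map_mul, map_pow, e₁, e₂, monomial_ex, aeval_C, algebraMap_eq]
  refine ⟨A, x, y, hA, fun j => ⟨σ j, hσ j, ?_⟩, fun i v hv hne => ?_⟩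
  · have := key (σ j) (κ j) (by rw [hσ]; exact hf j)
    rw [hσ] at this
    rw [pb, coeff_lin, ex_zero, ex_one, this, coeff_monomial, if_pos rfl]
    exact h0 j
  · have h3 := mem_support_iff.1 hv
    rw [pb, coeff_lin] at h3
    by_contra hc
    rcases (not_lt.1 hc).lt_or_eq with h4 | h4
    · rw [homogeneousComponent_eq_zero' _ _ fun w hw e => ?_, map_zero, coeff_zero] at h3
      · exact h3 rfl
      · have := h.2.1 i w hw
        rw [wt11, one_mul, one_mul, ← hxy, ← deg2, e] at this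
        omega
    · obtain ⟨κ', e⟩ := hm i
      rw [h4, key i (κ' * κ (β i)) (by rw [e, hf, map_mul]; ring), coeff_monomial,
        if_neg (Ne.symm hne)] at h3
      exact h3 rfl

theorem prod_two {M : Type} [CommMonoid M] (g : k → M) (c₁ c₂ : k) (s : Multiset k)
    (h : ∀ z ∈ s, z = c₁ ∨ z = c₂) :
    ∃ x y, x + y = s.card ∧ (s.map g).prod = g c₁ ^ x * g c₂ ^ y := by
  induction s using Multiset.induction with
  | empty => exact ⟨0, 0, by simp⟩
  | cons z s ih =>
    obtain ⟨x, y, h1, h2⟩ := ih fun w hw => h w (Multiset.mem_cons_of_mem hw)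
    rw [Multiset.map_cons, Multiset.prod_cons, Multiset.card_cons, h2]
    rcases h z (Multiset.mem_cons_self z s) with rfl | rfl
    · exact ⟨x + 1, y, by omega, by rw [pow_succ', mul_assoc]⟩
    · exact ⟨x, y + 1, by omega, by rw [pow_succ', mul_left_comm]⟩

theorem two_pts [Infinite k] (Z : Finset k) (h : Z.card ≤ 2) :
    ∃ c₁ c₂ : k, c₁ ≠ c₂ ∧ ∀ c ∈ Z, c = c₁ ∨ c = c₂ := by
  classical
  obtain ⟨T, h1, h2⟩ := Infinite.exists_superset_card_eq Z 2 h
  obtain ⟨c₁, c₂, h3, rfl⟩ := Finset.card_eq_two.1 h2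
  exact ⟨c₁, c₂, h3, fun c hc => by simpa using h1 hc⟩

end PG

open PG in
theorem r0 [CharZero k] [IsAlgClosed k] : S_r0 k ι ρ := by
  classical
  intro f β hf
  obtain ⟨a, m, h⟩ := exists_nd f β hf
  choose σ hσ h0 using h.1
  have htop : ∀ j, (ph f β a m (σ j)).coeff (m j) ≠ 0 := fun j => by
    have := ph_top (f := f) (β := β) (a := a) (m := m) (σ j)
    rw [hσ] at this
    exact this ▸ h0 j
  have hne : ∀ j, ph f β a m (σ j) ≠ 0 := fun j e => htop j (by rw [e, Polynomial.coeff_zero])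
  have hdeg : ∀ j, (ph f β a m (σ j)).natDegree = m j := fun j =>
    le_antisymm (by simpa only [hσ] using ph_deg h (σ j)) (Polynomial.le_natDegree_of_ne_zero (htop j))
  have hsum : ∀ (i : ι) (x : k), ∑ i', Polynomial.C ((Pi.single i x : ι → k) i') * ph f β a m i' =
      Polynomial.C x * ph f β a m i := fun i x => by
    rw [Finset.sum_eq_single i (fun i' _ hi => by simp [Pi.single_eq_of_ne hi]) (by simp)]
    simp
  have hsupp : ∀ (i i' : ι) (x : k), (Pi.single i x : ι → k) i' ≠ 0 → i' = i := fun i i' x hx => by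
    by_contra hi
    exact hx (by simp [hi])
  by_cases hm : ∀ i, ∃ κ, ph f β a m i = Polynomial.C κ * ph f β a m (σ (β i))
  · obtain ⟨Z, hZ⟩ : ∃ Z : Finset k, ∀ c, c ∈ Z ↔ ∃ j, (ph f β a m (σ j)).IsRoot c :=
      ⟨Finset.univ.biUnion fun j => (ph f β a m (σ j)).roots.toFinset, fun c => by
        simp [Polynomial.mem_roots (hne _)]⟩
    have hF : ∀ z, z ≤ Z.card → 0 < z → nv 1 1 a m ≠ 0 ∧ Fam 1 1 f β a m z := fun z h1 h2 =>
      fam_of h ρ id (fun j => Pi.single (σ j) 1) Z Function.surjective_id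
        (fun j i hi => by rw [hsupp _ _ _ hi, hσ, id])
        (fun j => by rw [hsum, map_one, one_mul]; exact hne j)
        (fun c hc => by simpa only [hsum, map_one, one_mul] using (hZ c).1 hc) h1 h2
    have hfac : ∀ c₁ c₂, (∀ c ∈ Z, c = c₁ ∨ c = c₂) → ∀ j, ∃ (x y : ℕ) (κ : k), κ ≠ 0 ∧
        x + y = m j ∧ ph f β a m (σ j) = Polynomial.C κ *
          (Polynomial.X - Polynomial.C c₁) ^ x * (Polynomial.X - Polynomial.C c₂) ^ y := by
      intro c₁ c₂ hc j
      have hs := IsAlgClosed.splits (ph f β a m (σ j))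
      obtain ⟨x, y, h1, h2⟩ := prod_two (fun c => Polynomial.X - Polynomial.C c) c₁ c₂
        (ph f β a m (σ j)).roots fun c hc' =>
          hc c ((hZ c).2 ⟨j, (Polynomial.mem_roots (hne j)).1 hc'⟩)
      refine ⟨x, y, _, Polynomial.leadingCoeff_ne_zero.2 (hne j),
        by rw [h1, ← hs.natDegree_eq_card_roots, hdeg], ?_⟩
      rw [mul_assoc, ← h2]
      exact hs.eq_prod_roots
    have hl : ∀ c : k, (X 1 - C c * X 0 : P2 k).IsHomogeneous 1 := fun c =>
      (isHomogeneous_X _ _).sub (isHomogeneous_C_mul_X _ _)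
    have hd : ∀ c : k, dh (X 1 - C c * X 0 : P2 k) = Polynomial.X - Polynomial.C c := fun c => by
      simp [dh]
    by_cases h3 : 3 ≤ Z.card
    · exact Or.inr ⟨a, m, h, (hF 3 h3 (by omega)).1, Or.inl (hF 3 h3 (by omega)).2⟩
    by_cases ha : a = 0
    · obtain ⟨c₁, c₂, hc, hZ'⟩ := two_pts Z (by omega)
      have hc' : c₂ - c₁ ≠ 0 := sub_ne_zero.2 hc.symm
      obtain ⟨d, hd'⟩ : ∃ d, d * (c₂ - c₁) = 1 := ⟨_, inv_mul_cancel₀ hc'⟩
      have hC : (C d : P2 k) * (C c₂ - C c₁) = 1 := by rw [← map_sub, ← map_mul, hd', map_one]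
      refine Or.inl (left_of h σ hσ hm !![d, -d; c₂ * d, -(c₁ * d)] ?_ _ _ (hl c₁) (hl c₂) ?_ ?_
        fun j => ?_)
      · rw [Matrix.det_fin_two_of]
        intro e
        have : d = 0 := by linear_combination e - d * hd'
        rw [this, zero_mul] at hd'
        exact zero_ne_one hd'
      · simp [lin, Fin.sum_univ_two]
        linear_combination X 0 * hC
      · simp [lin, Fin.sum_univ_two]
        linear_combination X 1 * hC
      · simpa only [hd, ha, Pi.zero_apply, zero_add] using hfac c₁ c₂ hZ' j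
    by_cases h2 : 2 ≤ Z.card
    · exact Or.inr ⟨a, m, h, (hF 2 h2 (by omega)).1, Or.inr ⟨ha, (hF 2 h2 (by omega)).2⟩⟩
    · obtain ⟨c, hc⟩ := Finset.card_le_one_iff_subset_singleton.1 (by omega : Z.card ≤ 1)
      refine Or.inl (left_of h σ hσ hm !![1, 0; c, 1] (by simp) (X 0) _ (isHomogeneous_X _ _)
        (hl c) (by simp [lin, Fin.sum_univ_two]) (by simp [lin, Fin.sum_univ_two]) fun j => ?_)
      obtain ⟨x, y, κ, h1, h4, h5⟩ := hfac c c (fun z hz => Or.inl (by simpa using hc hz)) j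
      refine ⟨a j, m j, κ, h1, rfl, ?_⟩
      rw [h5, hd, ← h4, pow_add, mul_assoc]
      simp [dh]
  · push Not at hm
    obtain ⟨i, hi⟩ := hm
    obtain ⟨Z, hZ⟩ := Infinite.exists_subset_card_eq k 3
    have key : ∀ c : k, ∃ x y : k,
        Polynomial.C x * ph f β a m (σ (β i)) + Polynomial.C y * ph f β a m i ≠ 0 ∧
        (Polynomial.C x * ph f β a m (σ (β i)) + Polynomial.C y * ph f β a m i).IsRoot c := by
      intro c
      by_cases h1 : (ph f β a m (σ (β i))).eval c = 0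
      · exact ⟨1, 0, by simpa using hne (β i), by simpa using h1⟩
      · refine ⟨(ph f β a m i).eval c / (ph f β a m (σ (β i))).eval c, -1, fun e => hi
          ((ph f β a m i).eval c / (ph f β a m (σ (β i))).eval c) ?_, ?_⟩
        · rw [map_neg, map_one] at e
          linear_combination -e
        · simp [div_mul_cancel₀ _ h1]
    choose x y h1 h2 using key
    have e : ∀ c, ∑ i', Polynomial.C ((Pi.single (σ (β i)) (x c) + Pi.single i (y c) : ι → k) i') *
        ph f β a m i' = Polynomial.C (x c) * ph f β a m (σ (β i)) +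
          Polynomial.C (y c) * ph f β a m i := fun c => by
      simp only [Pi.add_apply, map_add, add_mul, Finset.sum_add_distrib, hsum]
    have hF := fam_of h (ρ ⊕ Z) (Sum.elim id fun _ => β i)
      (Sum.elim (fun j => Pi.single (σ j) 1)
        fun c => Pi.single (σ (β i)) (x c) + Pi.single i (y c)) Z
      (fun j => ⟨.inl j, rfl⟩) (fun l i' hi' => ?_) (fun l => ?_)
      (fun c hc => ⟨.inr ⟨c, hc⟩, by simpa only [Sum.elim_inr, e] using h2 c⟩) hZ.ge (by omega)
    · exact Or.inr ⟨a, m, h, hF.1, Or.inl hF.2⟩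
    · rcases l with j | c
      · rw [hsupp _ _ _ hi', hσ]
        rfl
      · by_cases h3 : i' = i
        · rw [h3]
          rfl
        · simp only [Sum.elim_inr, Pi.add_apply, Pi.single_eq_of_ne h3, add_zero] at hi' ⊢
          rw [hsupp _ _ _ hi', hσ]
    · rcases l with j | c
      · simpa only [Sum.elim_inl, hsum, map_one, one_mul] using hne j
      · simpa only [Sum.elim_inr, e] using h1 c

end

end Pool.Agent.P.MP_b91a16_ag.Id
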