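import Pool.Agent.P.MP_b91a16_ag.Id.Base

/-! Ideals in two variables: Jacobians of the charts. -/

open MvPolynomial

namespace Pool.Agent.P.MP_b91a16_ag.Id

noncomputable section

variable {k : Type} [Field k]

namespace PH

theorem chain (χ : Fin 2 → P2 k) (j : Fin 2) (P : P2 k) :
    pderiv j (aeval χ P) = aeval χ (pderiv 0 P) * pderiv j (χ 0) +
      aeval χ (pderiv 1 P) * pderiv j (χ 1) := by
  induction P using MvPolynomial.induction_on with
  | C c => simp
  | add p q hp hq => simp only [map_add, hp, hq]; ring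
  | mul_X p i hp =>
    simp only [map_mul, aeval_X, Derivation.leibniz, hp, smul_eq_mul, map_add]
    fin_cases i <;> simp <;> ring

theorem jac_pb (χ π : Fin 2 → P2 k) : Jac (pb χ π) = aeval χ (Jac π) * Jac χ := by
  simp only [Jac, pb, chain, map_sub, map_mul]
  ring

theorem const_aeval (χ : Fin 2 → P2 k) (P : P2 k) :
    constantCoeff (aeval χ P) = eval (fun i => constantCoeff (χ i)) P := by
  induction P using MvPolynomial.induction_on with
  | C c => simp
  | add p q hp hq => simp only [map_add, hp, hq]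
  | mul_X p i hp => simp only [map_mul, hp, aeval_X, eval_X]

theorem const_aeval0 {χ : Fin 2 → P2 k} (h : ∀ i, constantCoeff (χ i) = 0) (P : P2 k) :
    constantCoeff (aeval χ P) = constantCoeff P := by
  rw [const_aeval, _root_.funext h]
  exact congrFun (congrArg _ eval_zero') P

theorem jac_sh (φ : Polynomial k) : Jac (sh φ) = 1 := by
  simp [Jac, sh]

theorem jac_tr (c : k) : Jac (tr c) = 1 := by
  simp [Jac, tr]

theorem jac_tor (p q u w : ℕ) : Jac (tor k (p + 1) (q + 1) u (w + 1)) =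
    (((p + 1) * (w + 1) : ℕ) - ((q + 1) * u : ℕ) : P2 k) * X 0 ^ (p + q + 1) * X 1 ^ (u + w) := by
  cases u with
  | zero => simp [Jac, tor, Derivation.leibniz_pow]; ring
  | succ u => simp [Jac, tor, Derivation.leibniz_pow]; ring

/-- Pull-back of a chart along a map that fixes the origin and respects the first axis. -/
theorem ch_pb {π χ : Fin 2 → P2 k} {n a b : ℕ} {s t : P2 k} (h : Ch π n)
    (h0 : ∀ i, constantCoeff (χ i) = 0) (hs : χ 0 = X 0 ^ a * s) (hs0 : constantCoeff s ≠ 0)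
    (ht : Jac χ = X 0 ^ b * t) (ht0 : constantCoeff t ≠ 0) : Ch (pb χ π) (a * n + b) := by
  obtain ⟨h1, u, hu, hJ⟩ := h
  refine ⟨fun i => by rw [pb, const_aeval0 h0, h1], s ^ n * aeval χ u * t, ?_, ?_⟩
  · rw [map_mul, map_mul, map_pow, const_aeval0 h0]
    exact mul_ne_zero (mul_ne_zero (pow_ne_zero _ hs0) hu) ht0
  · rw [jac_pb, hJ, ht, map_mul, map_pow, aeval_X, hs]
    ring

end PH

open PH

theorem chSh_ok : S_chSh k := by
  intro π n φ h hφ
  have h0 : ∀ i, constantCoeff (sh φ i) = 0 := by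
    have : constantCoeff (Polynomial.aeval (X 0 : P2 k) φ) = 0 := by
      obtain ⟨ψ, rfl⟩ := Polynomial.X_dvd_iff.2 hφ
      simp
    intro i
    fin_cases i <;> simp [sh, this]
  have := ch_pb (a := 1) (b := 0) (s := 1) (t := 1) h h0 (by simp [sh]) (by simp)
    (by simp [jac_sh]) (by simp)
  simpa using this

theorem chCh_ok : S_chCh k := by
  intro π n p q u w c h hp hq hd hc
  obtain ⟨p, rfl⟩ := Nat.exists_eq_succ_of_ne_zero hp.ne'
  obtain ⟨q, rfl⟩ := Nat.exists_eq_succ_of_ne_zero hq.ne'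
  obtain ⟨w, rfl⟩ := Nat.exists_eq_succ_of_ne_zero (n := w) (by rintro rfl; omega)
  simp only [Nat.succ_eq_add_one] at hd ⊢
  have h0 : ∀ i, constantCoeff (pb (tr c) (tor k (p + 1) (q + 1) u (w + 1)) i) = 0 := by
    intro i
    fin_cases i <;> simp [pb, tr, tor]
  have := ch_pb (a := p + 1) (b := p + q + 1) (s := (X 1 + C c) ^ u)
    (t := (X 1 + C c) ^ (u + w)) h h0 (by simp [pb, tr, tor]) (by simp [hc])
    (by rw [jac_pb, jac_tr, jac_tor, hd]; simp [tr]) (by simp [hc])
  rw [pb_pb, show (p + 1) * (n + 1) + (q + 1) - 1 = (p + 1) * n + (p + q + 1) by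
    rw [Nat.mul_succ]; omega]
  exact this

theorem chTh_ok [CharZero k] : S_chTh k := by
  intro π n p q h hp hq
  obtain ⟨p, rfl⟩ := Nat.exists_eq_succ_of_ne_zero hp.ne'
  obtain ⟨q, rfl⟩ := Nat.exists_eq_succ_of_ne_zero hq.ne'
  simp only [Nat.succ_eq_add_one]
  obtain ⟨h1, u, hu, hJ⟩ := h
  have hd : ∀ j, (X 0 : P2 k) ∣ tor k (p + 1) (q + 1) 0 1 j := by
    intro j
    fin_cases j <;> exact (dvd_pow_self _ (Nat.succ_ne_zero _)).mul_right _
  refine ⟨fun i => by simpa [pb, h1] using dvd_aeval_sub_const hd (π i),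
    (p + 1 : ℕ) * constantCoeff u, mul_ne_zero (Nat.cast_ne_zero.2 (Nat.succ_ne_zero p)) hu, ?_⟩
  obtain ⟨r, hr⟩ := dvd_aeval_sub_const hd u
  refine ⟨(p + 1 : ℕ) * r, ?_⟩
  have hj := jac_tor (k := k) p q 0 0
  rw [zero_add] at hj
  rw [jac_pb, hJ, hj, map_mul, map_pow, aeval_X, eq_add_of_sub_eq hr,
    show (p + 1) * (n + 1) + (q + 1) - 1 = (p + 1) * n + (p + q + 1) by rw [Nat.mul_succ]; omega]
  simp [tor]
  ring

theorem chLin_ok : S_chLin k := by
  refine ⟨fun A hA => ⟨fun i => by simp [lin], C A.det, by simpa using hA, ?_⟩,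
    fun π ⟨h1, u, hu, hJ⟩ => ?_⟩
  · simp [Jac, lin, Matrix.det_fin_two]
  · have h0 : ∀ i, constantCoeff (sw k i) = 0 := by
      intro i
      fin_cases i <;> simp [sw]
    refine ⟨fun i => by rw [pb, const_aeval0 h0, h1], -aeval (sw k) u, ?_, ?_⟩
    · rw [map_neg, const_aeval0 h0]
      exact neg_ne_zero.2 hu
    · rw [jac_pb, hJ]
      simp [Jac, sw]

end

end Pool.Agent.P.MP_b91a16_ag.Id
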