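import Pool.Agent.P.MP_b91a16_ag.Id.Base

/-! Ideals in two variables: the residue along the exceptional line. -/

set_option linter.unusedSectionVars false

open MvPolynomial

namespace Pool.Agent.P.MP_b91a16_ag.Id

noncomputable section

namespace PI

section Log

variable {k K : Type} [Field k] [Field K] [Algebra k K] (D : Derivation k K K)

theorem ld_mul {x y : K} (hx : x ≠ 0) (hy : y ≠ 0) : D (x * y) / (x * y) = D x / x + D y / y := by
  rw [D.leibniz, smul_eq_mul, smul_eq_mul]
  field_simp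
  ring

theorem ld_pow {x : K} (hx : x ≠ 0) (n : ℕ) : D (x ^ n) / x ^ n = n * (D x / x) := by
  induction n with
  | zero => simp
  | succ n ih =>
    rw [pow_succ, ld_mul D (pow_ne_zero _ hx) hx, ih]
    push_cast
    ring

theorem ld_prod {α : Type} (t : Finset α) {x : α → K} (hx : ∀ a, x a ≠ 0) :
    D (∏ a ∈ t, x a) / ∏ a ∈ t, x a = ∑ a ∈ t, D (x a) / x a := by
  classical
  induction t using Finset.induction_on with
  | empty => simp
  | insert a t ha ih =>
    rw [Finset.prod_insert ha, Finset.sum_insert ha,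
      ld_mul D (hx a) (Finset.prod_ne_zero_iff.2 fun a _ => hx a), ih]

theorem ld_root [CharZero K] {e v : K} (he : e ≠ 0) (hv : v ≠ 0) {d a b : ℕ} {s : ℚ} (hd : 0 < d)
    (hs : s * d = b - a) (h : e ^ d * v ^ a = v ^ b) : D e / e = s * (D v / v) := by
  have h1 := ld_mul D (pow_ne_zero d he) (pow_ne_zero a hv)
  rw [h, ld_pow D hv, ld_pow D he, ld_pow D hv] at h1
  have h2 : (s : K) * d = b - a := by exact_mod_cast congrArg (Rat.cast : ℚ → K) hs
  refine mul_left_cancel₀ (Nat.cast_ne_zero.2 hd.ne' : (d : K) ≠ 0) ?_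
  linear_combination -h1 - D v / v * h2

theorem der_pi (π : P2 k →ₐ[k] K) (i : Fin 2) (h : ∀ j, D (π (X j)) = π (pderiv i (X j)))
    (P : P2 k) : D (π P) = π (pderiv i P) := by
  induction P using MvPolynomial.induction_on with
  | C c => simp
  | add p q hp hq => simp only [map_add, hp, hq]
  | mul_X p j hp => simp only [map_mul, Derivation.leibniz, smul_eq_mul, map_add, hp, h]

theorem pderiv_swap (P : P2 k) : pderiv 0 (pderiv 1 P) = pderiv 1 (pderiv 0 P) := by
  induction P using MvPolynomial.induction_on with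
  | C c => simp
  | add p q hp hq => simp only [map_add, hp, hq]
  | mul_X p j hp =>
    fin_cases j <;> simp [Derivation.leibniz, hp, pderiv_X] <;> ring

end Log

section Ser

variable {k L : Type} [Field k] [Field L] [Algebra k L]

theorem root [CharZero L] (r : PowerSeries L) (s : ℚ) : ∃ (e : PowerSeries L) (d a b : ℕ),
    PowerSeries.constantCoeff e = 1 ∧ 0 < d ∧ s * d = b - a ∧
      e ^ d * (1 + PowerSeries.X * r) ^ a = (1 + PowerSeries.X * r) ^ b := by
  have h0 : PowerSeries.constantCoeff (PowerSeries.X * r) = 0 := by simp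
  have ha := PowerSeries.HasSubst.of_constantCoeff_zero' h0
  obtain ⟨T, hT, hX⟩ : ∃ T : PowerSeries L →ₐ[L] PowerSeries L,
      (∀ f, PowerSeries.constantCoeff f = 0 → PowerSeries.constantCoeff (T f) = 0) ∧
        T PowerSeries.X = PowerSeries.X * r :=
    ⟨PowerSeries.substAlgHom ha, fun f hf => by
      rw [PowerSeries.coe_substAlgHom]
      exact PowerSeries.constantCoeff_subst_eq_zero h0 f hf, PowerSeries.substAlgHom_X ha⟩
  have h1 : ∀ d : ℕ, PowerSeries.binomialSeries L s ^ d = PowerSeries.binomialSeries L (s * d) :=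
    fun d => by
      induction d with
      | zero => simp
      | succ d ih => rw [pow_succ, ih, Nat.cast_succ, mul_add, mul_one, PowerSeries.binomialSeries_add]
  have h2 : s * s.den = (s.num.toNat : ℕ) - ((-s.num).toNat : ℕ) := by
    rw [Rat.mul_den_eq_num]
    exact_mod_cast (Int.toNat_sub_toNat_neg s.num).symm
  refine ⟨T (PowerSeries.binomialSeries L s), s.den, (-s.num).toNat, s.num.toNat, ?_, s.den_pos,
    h2, ?_⟩
  · have := hT (PowerSeries.binomialSeries L s - 1) (by simp)
    rwa [map_sub, map_sub, map_one, map_one, sub_eq_zero] at this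
  · rw [← hX, ← map_one T, ← map_add, ← map_pow, ← map_pow, ← map_pow, ← map_mul, h1,
      ← PowerSeries.binomialSeries_nat (R := ℚ), ← PowerSeries.binomialSeries_nat (R := ℚ),
      ← PowerSeries.binomialSeries_add, h2, sub_add_cancel]

/-- The coefficientwise derivation. -/
def cw (d : Derivation k L L) : Derivation k (PowerSeries L) (PowerSeries L) :=
  Derivation.mk' ⟨⟨fun a => PowerSeries.mk fun n => d (PowerSeries.coeff n a), fun a b => by
    ext n; simp⟩, fun c a => by ext n; simp⟩ fun a b => by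
      ext n
      simp only [LinearMap.coe_mk, AddHom.coe_mk, PowerSeries.coeff_mk, PowerSeries.coeff_mul,
        map_sum, Derivation.leibniz, smul_eq_mul, map_add, Finset.sum_add_distrib]
      congr 1
      exact Finset.Nat.sum_antidiagonal_swap.symm

theorem coeff_cw (d : Derivation k L L) (a : PowerSeries L) (n : ℕ) :
    PowerSeries.coeff n (cw d a) = d (PowerSeries.coeff n a) := by simp [cw]

theorem cw_X (d : Derivation k L L) : cw d PowerSeries.X = 0 := by
  ext n
  rw [coeff_cw, PowerSeries.coeff_X]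
  split_ifs <;> simp

theorem cw_C (d : Derivation k L L) (c : L) : cw d (PowerSeries.C c) = PowerSeries.C (d c) := by
  ext n
  rw [coeff_cw, PowerSeries.coeff_C, PowerSeries.coeff_C]
  split_ifs <;> simp

variable {K : Type} [Field K] [Algebra (PowerSeries L) K] [IsFractionRing (PowerSeries L) K]
  [Algebra k K] [IsScalarTower k (PowerSeries L) K]

variable (K) in
/-- The elements whose coefficient of degree `n` is in the image of `d + g`. -/
def WW (d : Derivation k L L) (g : L) (n : ℕ) : Submodule k K where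
  carrier := {z | ∃ (m : ℕ) (a : PowerSeries L) (c : L),
    algebraMap (PowerSeries L) K PowerSeries.X ^ m * z = algebraMap (PowerSeries L) K a ∧
      PowerSeries.coeff (n + m) a = d c + g * c}
  zero_mem' := ⟨0, 0, 0, by simp, by simp⟩
  add_mem' := by
    rintro z z' ⟨m, a, c, h1, h2⟩ ⟨m', a', c', h1', h2'⟩
    refine ⟨m + m', PowerSeries.X ^ m' * a + PowerSeries.X ^ m * a', c + c', ?_, ?_⟩
    · rw [map_add, map_mul, map_mul, map_pow, map_pow, ← h1, ← h1']
      ring
    · rw [map_add, ← add_assoc, PowerSeries.coeff_X_pow_mul, add_right_comm,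
        PowerSeries.coeff_X_pow_mul, h2, h2', map_add]
      ring
  smul_mem' := by
    rintro t z ⟨m, a, c, h1, h2⟩
    refine ⟨m, t • a, t • c, ?_, ?_⟩
    · rw [mul_smul_comm, h1, Algebra.smul_def, Algebra.smul_def, map_mul,
        ← IsScalarTower.algebraMap_apply]
    · rw [PowerSeries.coeff_smul, h2, d.map_smul, smul_add, mul_smul_comm]

theorem exists_den (z : K) : ∃ (m : ℕ) (a : PowerSeries L),
    algebraMap (PowerSeries L) K PowerSeries.X ^ m * z = algebraMap (PowerSeries L) K a := by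
  obtain ⟨a, b, hb, rfl⟩ := IsFractionRing.div_surjective (A := PowerSeries L) z
  have hb := nonZeroDivisors.ne_zero hb
  obtain ⟨m, u, rfl⟩ := IsDiscreteValuationRing.eq_unit_mul_pow_irreducible hb
    PowerSeries.X_irreducible
  have h1 := (map_ne_zero_iff _ (IsFractionRing.injective (PowerSeries L) K)).2 hb
  refine ⟨m, a * ↑u⁻¹, ?_⟩
  rw [← mul_div_assoc, div_eq_iff h1, ← map_pow, ← map_mul, ← map_mul]
  congr 1
  rw [mul_assoc, Units.inv_mul_cancel_left, mul_comm]

variable {d : Derivation k L L} {g : L} {n : ℕ} {D : Derivation k K K}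

theorem W0 (hD : ∀ a, D (algebraMap (PowerSeries L) K a) =
      algebraMap (PowerSeries L) K (PowerSeries.derivative L a)) (z : K) :
    D z - (n + 1) * (algebraMap (PowerSeries L) K PowerSeries.X)⁻¹ * z ∈ WW K d g n := by
  obtain ⟨m, a, h⟩ := exists_den (L := L) z
  have hU := (map_ne_zero_iff _ (IsFractionRing.injective (PowerSeries L) K)).2
    (PowerSeries.X_ne_zero (R := L))
  have h1 := congrArg D (congrArg (algebraMap (PowerSeries L) K PowerSeries.X * ·) h)
  have h2 := hD PowerSeries.X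
  rw [PowerSeries.derivative_X, map_one] at h2
  simp only [← mul_assoc, ← pow_succ'] at h1
  simp only [Derivation.leibniz, Derivation.leibniz_pow, smul_eq_mul, nsmul_eq_mul, h2, hD,
    Nat.add_sub_cancel] at h1
  refine ⟨m + 1, PowerSeries.X * PowerSeries.derivative L a - ((n + m + 1 : ℕ) : PowerSeries L) * a,
    0, ?_, ?_⟩
  · rw [map_sub, map_mul, map_mul, map_natCast, ← h] at *
    push_cast at *
    field_simp
    linear_combination algebraMap (PowerSeries L) K PowerSeries.X * h1
  · rw [map_sub, ← add_assoc, PowerSeries.coeff_succ_X_mul, PowerSeries.coeff_derivative,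
      ← nsmul_eq_mul, map_nsmul]
    simp [mul_comm]

theorem W1 (hD : ∀ a, D (algebraMap (PowerSeries L) K a) =
      algebraMap (PowerSeries L) K (cw d a)) (z : K) :
    D z + algebraMap (PowerSeries L) K (PowerSeries.C g) * z ∈ WW K d g n := by
  obtain ⟨m, a, h⟩ := exists_den (L := L) z
  have h1 := congrArg D h
  simp only [Derivation.leibniz, Derivation.leibniz_pow, smul_eq_mul, nsmul_eq_mul, hD, cw_X,
    map_zero, mul_zero, add_zero] at h1
  refine ⟨m, cw d a + PowerSeries.C g * a, PowerSeries.coeff (n + m) a, ?_, ?_⟩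
  · rw [map_add, map_mul, ← h, ← h1]
    ring
  · rw [map_add, coeff_cw, PowerSeries.coeff_C_mul]

theorem W2 (a : PowerSeries L) :
    algebraMap (PowerSeries L) K (PowerSeries.X ^ (n + 1) * a) ∈ WW K d g n :=
  ⟨0, _, 0, by rw [pow_zero, one_mul], by simp [PowerSeries.coeff_X_pow_mul']⟩

theorem W3 {a : PowerSeries L}
    (h : algebraMap (PowerSeries L) K (PowerSeries.X ^ n * a) ∈ WW K d g n) :
    ∃ c, PowerSeries.constantCoeff a = d c + g * c := by
  obtain ⟨m, a', c, h1, h2⟩ := h
  rw [← map_pow, ← map_mul, ← mul_assoc, ← pow_add] at h1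
  rw [← IsFractionRing.injective _ K h1, add_comm m, ← zero_add (n + m),
    PowerSeries.coeff_X_pow_mul' , if_pos (by omega)] at h2
  exact ⟨c, by simpa using h2⟩

end Ser

section Main

variable {k L Λ : Type} [Field k] [Field L] [Algebra k L] [Algebra (Polynomial k) L]
  [IsFractionRing (Polynomial k) L] [IsScalarTower k (Polynomial k) L] [Fintype Λ]

theorem exact_of {d : Derivation k L L}
    (hd : ∀ p : Polynomial k, d (algebraMap _ L p) = algebraMap _ L p.derivative)
    {φ : Λ → Polynomial k} {s : Λ → ℚ} (hφ : ∀ l, φ l ≠ 0) {t : k} (ht : t ≠ 0) {c : L}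
    (h : algebraMap k L t = d c + (∑ l, (s l : L) * (d (algebraMap _ L (φ l)) /
      algebraMap _ L (φ l))) * c) : Exact φ s := by
  classical
  have hi := IsFractionRing.injective (Polynomial k) L
  obtain ⟨P, Q, hQ, e⟩ := IsFractionRing.div_surjective (A := Polynomial k) (t⁻¹ • c)
  have hQ := nonZeroDivisors.ne_zero hQ
  have hQ' := (map_ne_zero_iff _ hi).2 hQ
  have h1 : 1 = d (t⁻¹ • c) + (∑ l, (s l : L) * (d (algebraMap _ L (φ l)) /
      algebraMap _ L (φ l))) * t⁻¹ • c := by
    rw [d.map_smul, mul_smul_comm, ← smul_add, ← h, Algebra.smul_def, ← map_mul,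
      inv_mul_cancel₀ ht, map_one]
  have h2 : algebraMap _ L (∑ l, Polynomial.C (s l : k) * (φ l).derivative *
      ∏ l' ∈ Finset.univ.erase l, φ l') = (∑ l, (s l : L) * (d (algebraMap _ L (φ l)) /
      algebraMap _ L (φ l))) * algebraMap _ L (∏ l, φ l) := by
    rw [map_sum, Finset.sum_mul]
    refine Finset.sum_congr rfl fun l _ => ?_
    have := (map_ne_zero_iff _ hi).2 (hφ l)
    rw [← Finset.mul_prod_erase _ _ (Finset.mem_univ l), map_mul, map_mul, map_mul, hd,
      Polynomial.C_eq_algebraMap, ← IsScalarTower.algebraMap_apply, map_ratCast]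
    field_simp
  rw [← e, d.leibniz_div, hd, hd] at h1
  refine ⟨P, Q, hQ, hi ?_⟩
  rw [map_add, map_mul, map_mul, map_mul, h2]
  generalize ∑ l, (s l : L) * (d (algebraMap _ L (φ l)) / algebraMap _ L (φ l)) = g at h1 ⊢
  simp only [map_mul, map_sub, map_pow, smul_eq_mul] at h1 ⊢
  field_simp at h1
  linear_combination -algebraMap (Polynomial k) L (∏ l, φ l) * h1

variable (L) in
/-- Expansion in powers of the first variable. -/
def ps : P2 k →ₐ[k] PowerSeries L :=
  aeval ![PowerSeries.X, PowerSeries.C (algebraMap (Polynomial k) L Polynomial.X)]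

theorem ps_zero : ps L (X 0 : P2 k) = PowerSeries.X := by simp [ps]

theorem ps_one : ps L (X 1 : P2 k) = PowerSeries.C (algebraMap (Polynomial k) L Polynomial.X) := by
  simp [ps]

theorem ps_ini {G : P2 k} {N : ℕ} {φ : Polynomial k} (h : Ini G N φ) : ∃ r,
    ps L G = PowerSeries.X ^ N * (PowerSeries.C (algebraMap _ L φ) + PowerSeries.X * r) := by
  obtain ⟨r, rfl⟩ := h
  refine ⟨ps L r, ?_⟩
  rw [map_mul, map_add, map_mul, map_pow, ps_zero, ← Polynomial.aeval_algHom_apply, ps_one]
  congr 2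
  induction φ using Polynomial.induction_on with
  | C c =>
    rw [Polynomial.aeval_C, alg_ps, Polynomial.C_eq_algebraMap, ← IsScalarTower.algebraMap_apply]
  | add p q hp hq => simp only [map_add, hp, hq]
  | monomial n c h => simp only [pow_succ, ← mul_assoc, map_mul, Polynomial.aeval_X] at h ⊢; rw [h]

theorem flux {K : Type} [Field K] [Algebra k K] {D0 D1 : Derivation k K K} {W : Submodule k K}
    {E J a b : K} {u : Λ → K} {s : Λ → ℚ} (hJ : J ≠ 0)
    (h0 : ∀ z, E * (D0 z + (∑ l, (s l : K) * (D0 (u l) / u l)) * z) ∈ W)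
    (h1 : ∀ z, E * (D1 z + (∑ l, (s l : K) * (D1 (u l) / u l)) * z) ∈ W)
    (hab : D0 a + D1 b = 0) {D : Derivation k K K} (hD : ∀ z, D z = J⁻¹ * (a * D0 z + b * D1 z))
    (z : K) : E * J * (D z + (∑ l, (s l : K) * (D (u l) / u l)) * z) ∈ W := by
  have h2 : ∑ l, (s l : K) * (D (u l) / u l) = J⁻¹ * (a * ∑ l, (s l : K) * (D0 (u l) / u l) +
      b * ∑ l, (s l : K) * (D1 (u l) / u l)) := by
    simp only [hD, Finset.mul_sum, ← Finset.sum_add_distrib]
    exact Finset.sum_congr rfl fun l _ => by ring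
  convert add_mem (h0 (a * z)) (h1 (b * z)) using 1
  rw [h2]
  generalize ∑ l, (s l : K) * (D0 (u l) / u l) = g0
  generalize ∑ l, (s l : K) * (D1 (u l) / u l) = g1
  simp only [hD, Derivation.leibniz, smul_eq_mul]
  field_simp
  linear_combination -(E * z) * hab

theorem main (L K : Type) [Field L] [Algebra k L] [Algebra (Polynomial k) L]
    [IsFractionRing (Polynomial k) L] [IsScalarTower k (Polynomial k) L] [Field K]
    [Algebra (PowerSeries L) K] [IsFractionRing (PowerSeries L) K] [Algebra k K]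
    [IsScalarTower k (PowerSeries L) K] {ι ρ : Type} [Fintype ι] [Fintype ρ] [DecidableEq ρ]
    [CharZero k] : S_res k ι ρ := by
  intro Λ _ f β θ n κ N blk lam φ s h b hθ hκ hJ hN hf hlam hφ hs hh hTw hb
  have : CharZero L := charZero_of_injective_algebraMap (algebraMap k L).injective
  have : CharZero K := charZero_of_injective_algebraMap (algebraMap k K).injective
  have hiL := IsFractionRing.injective (Polynomial k) L
  have hiK := IsFractionRing.injective (PowerSeries L) K
  obtain ⟨d, hd⟩ := exists_der (k := k) (K := L) Polynomial.derivative'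
  obtain ⟨D0, hD0⟩ := exists_der (k := k) (K := K) ((PowerSeries.derivative L).restrictScalars k)
  obtain ⟨D1, hD1⟩ := exists_der (k := k) (K := K) (cw d)
  replace hd : ∀ p : Polynomial k, d (algebraMap _ L p) = algebraMap _ L p.derivative := hd
  replace hD0 : ∀ a, D0 (algebraMap (PowerSeries L) K a) =
    algebraMap (PowerSeries L) K (PowerSeries.derivative L a) := hD0
  obtain ⟨ψ, hψ⟩ : ∃ ψ : P2 k →ₐ[k] K, ∀ P, ψ P = algebraMap (PowerSeries L) K (ps L P) :=
    ⟨(IsScalarTower.toAlgHom k (PowerSeries L) K).comp (ps L), fun _ => rfl⟩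
  have p0 := der_pi D0 ψ 0 (Fin.forall_fin_two.2 ⟨by simp [hψ, hD0, ps_zero],
    by simp [hψ, hD0, ps_one]⟩)
  have p1 := der_pi D1 ψ 1 (Fin.forall_fin_two.2 ⟨by simp [hψ, hD1, ps_zero, cw_X],
    by simp [hψ, hD1, ps_one, cw_C, hd]⟩)
  have hU : algebraMap (PowerSeries L) K PowerSeries.X ≠ 0 :=
    (map_ne_zero_iff _ hiK).2 PowerSeries.X_ne_zero
  have hne : ∀ a : PowerSeries L, PowerSeries.constantCoeff a ≠ 0 →
      algebraMap (PowerSeries L) K a ≠ 0 := fun a ha =>
    (map_ne_zero_iff _ hiK).2 fun e => ha (by rw [e, map_zero])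
  have hφ' : ∀ l, algebraMap (Polynomial k) L (φ l) ≠ 0 := fun l =>
    (map_ne_zero_iff _ hiL).2 (hφ l).1
  have hr : ∀ l, ∃ r, ps L (aeval θ (mem lam f l)) = PowerSeries.X ^ N (blk l) *
      (PowerSeries.C (algebraMap _ L (φ l)) * (1 + PowerSeries.X * r)) := fun l => by
    obtain ⟨r, e⟩ := ps_ini (L := L) (hφ l).2
    refine ⟨PowerSeries.C (algebraMap _ L (φ l))⁻¹ * r, ?_⟩
    rw [e, mul_add (PowerSeries.C _), mul_one, mul_left_comm (PowerSeries.C _), ← mul_assoc
      (PowerSeries.C _), ← map_mul, mul_inv_cancel₀ (hφ' l), map_one, one_mul]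
  choose r hr using hr
  choose e dn a₁ a₂ e1 e2 e3 e4 using fun l => root (r l) (s l)
  obtain ⟨π, hπ⟩ : ∃ π : P2 k →ₐ[k] K, ∀ P, π P = ψ (aeval θ P) := ⟨ψ.comp (aeval θ), fun _ => rfl⟩
  have c1 := fun l => hne (PowerSeries.C (algebraMap _ L (φ l))) (by simpa using (hφ l).1)
  have c2 := fun l => hne (1 + PowerSeries.X * r l) (by simp)
  have c3 := fun l => hne (e l) (by simp [e1])
  have hu : ∀ l, π (mem lam f l) = algebraMap (PowerSeries L) K PowerSeries.X ^ N (blk l) *
      (algebraMap (PowerSeries L) K (PowerSeries.C (algebraMap _ L (φ l))) *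
        algebraMap (PowerSeries L) K (1 + PowerSeries.X * r l)) := fun l => by
    rw [hπ, hψ, hr, map_mul, map_mul, map_pow]
  obtain ⟨E, hE⟩ : ∃ E, E = algebraMap (PowerSeries L) K (∏ l, e l) := ⟨_, rfl⟩
  have hE0 : E ≠ 0 := hE ▸ hne _ (by simp [e1])
  have key : ∀ (D : Derivation k K K) (z : K),
      E * (D z + (∑ l, (s l : K) * (D (π (mem lam f l)) / π (mem lam f l))) * z) = D (E * z) +
        (-((n + 1) * (D (algebraMap (PowerSeries L) K PowerSeries.X) /
          algebraMap (PowerSeries L) K PowerSeries.X)) + ∑ l, (s l : K) *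
          (D (algebraMap (PowerSeries L) K (PowerSeries.C (algebraMap _ L (φ l)))) /
            algebraMap (PowerSeries L) K (PowerSeries.C (algebraMap _ L (φ l))))) * (E * z) := by
    intro D z
    have h1 : D E / E = ∑ l, (s l : K) * (D (algebraMap (PowerSeries L) K
        (1 + PowerSeries.X * r l)) / algebraMap (PowerSeries L) K (1 + PowerSeries.X * r l)) := by
      rw [hE, map_prod, ld_prod D _ c3]
      exact Finset.sum_congr rfl fun l _ => ld_root D (c3 l) (c2 l) (e2 l) (e3 l) (by
        rw [← map_pow, ← map_pow, ← map_pow, ← map_mul, e4])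
    have h2 : (n + 1 : K) = -∑ l, (s l : K) * N (blk l) := by
      rw [eq_neg_iff_add_eq_zero, add_comm]
      exact_mod_cast congrArg (Rat.cast : ℚ → K) hs
    rw [Finset.sum_congr rfl fun l _ => by
      rw [hu, ld_mul D (pow_ne_zero _ hU) (mul_ne_zero (c1 l) (c2 l)), ld_pow D hU,
        ld_mul D (c1 l) (c2 l), mul_add, mul_add, ← mul_assoc], Finset.sum_add_distrib,
      Finset.sum_add_distrib, ← h1, ← Finset.sum_mul, h2, D.leibniz, smul_eq_mul, smul_eq_mul]
    generalize ∑ l, (s l : K) * N (blk l) = x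
    generalize ∑ l, (s l : K) * (D (algebraMap (PowerSeries L) K
      (PowerSeries.C (algebraMap _ L (φ l)))) / algebraMap (PowerSeries L) K
        (PowerSeries.C (algebraMap _ L (φ l)))) = y
    field_simp
    ring
  obtain ⟨W, hW⟩ : ∃ W, W = WW K d (∑ l, (s l : L) * (d (algebraMap _ L (φ l)) /
    algebraMap _ L (φ l))) n := ⟨_, rfl⟩
  have w0 : ∀ z, E * (D0 z + (∑ l, (s l : K) * (D0 (π (mem lam f l)) / π (mem lam f l))) * z) ∈
      W := fun z => by
    rw [key, hW]
    convert W0 hD0 (E * z) using 1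
    simp [hD0, sub_eq_add_neg, mul_assoc]
  have w1 : ∀ z, E * (D1 z + (∑ l, (s l : K) * (D1 (π (mem lam f l)) / π (mem lam f l))) * z) ∈
      W := fun z => by
    rw [key, hW]
    convert W1 hD1 (E * z) using 3
    obtain ⟨j, hj⟩ : ∃ j : L →+* K, ∀ c, algebraMap (PowerSeries L) K (PowerSeries.C c) = j c :=
      ⟨(algebraMap (PowerSeries L) K).comp PowerSeries.C, fun _ => rfl⟩
    simp only [hD1, cw_X, cw_C, map_zero, zero_div, mul_zero, neg_zero, zero_add]
    simp only [hj, map_sum, map_mul, map_ratCast, map_div₀]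
  obtain ⟨rJ, hJ⟩ := ps_ini (L := L) hJ
  have hκ' : algebraMap (Polynomial k) L (Polynomial.C κ) = algebraMap k L κ :=
    (IsScalarTower.algebraMap_apply k (Polynomial k) L κ).symm
  have J0 : ψ (Jac θ) ≠ 0 := by
    rw [hψ, hJ, map_mul, map_pow]
    exact mul_ne_zero (pow_ne_zero _ hU) (hne _ (by simpa using hκ))
  obtain ⟨D, hD, hDW⟩ : ∃ D : Fin 2 → Derivation k K K,
      (∀ i j, D i (π (X j)) = if i = j then 1 else 0) ∧ ∀ i z, E * ψ (Jac θ) *
        (D i z + (∑ l, (s l : K) * (D i (π (mem lam f l)) / π (mem lam f l))) * z) ∈ W := by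
    refine ⟨![(ψ (Jac θ))⁻¹ • (ψ (pderiv 1 (θ 1)) • D0 + -ψ (pderiv 0 (θ 1)) • D1),
      (ψ (Jac θ))⁻¹ • (-ψ (pderiv 1 (θ 0)) • D0 + ψ (pderiv 0 (θ 0)) • D1)], ?_,
      Fin.forall_fin_two.2 ⟨flux J0 w0 w1 (a := ψ (pderiv 1 (θ 1))) (b := -ψ (pderiv 0 (θ 1)))
        (by rw [map_neg, p0, p1, pderiv_swap, add_neg_cancel]) fun _ => rfl,
      flux J0 w0 w1 (a := -ψ (pderiv 1 (θ 0))) (b := ψ (pderiv 0 (θ 0)))
        (by rw [map_neg, p0, p1, pderiv_swap, neg_add_cancel]) fun _ => rfl⟩⟩
    have J1 : ψ (Jac θ) = ψ (pderiv 0 (θ 0)) * ψ (pderiv 1 (θ 1)) -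
        ψ (pderiv 1 (θ 0)) * ψ (pderiv 0 (θ 1)) := by rw [Jac, map_sub, map_mul, map_mul]
    simp only [Fin.forall_fin_two, hπ, aeval_X, Matrix.cons_val_zero, Matrix.cons_val_one,
      Derivation.smul_apply, Derivation.add_apply, p0, p1, smul_eq_mul, if_true, zero_ne_one,
      one_ne_zero, if_false, inv_mul_eq_one₀ J0]
    exact ⟨⟨by rw [J1]; ring, by ring⟩, by ring, by rw [J1]; ring⟩
  let V : Submodule k K :=
    { carrier := {z | ∀ P, E * ψ (Jac θ) * (π P * z) ∈ W}
      zero_mem' := fun P => by simp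
      add_mem' := fun h h' P => by simpa only [mul_add] using add_mem (h P) (h' P)
      smul_mem' := fun c z h P => by simpa only [mul_smul_comm] using W.smul_mem c (h P) }
  have fin := hTw Λ blk lam s K π D V hlam hD
    (fun l => hu l ▸ mul_ne_zero (pow_ne_zero _ hU) (mul_ne_zero (c1 l) (c2 l))) ?_
    (fun z hz j P => by
      rw [← mul_assoc (π P), ← map_mul]
      exact hz (P * X j)) (fun z hz i P => ?_) 1
  · obtain ⟨rh, e5⟩ := dvd_aeval_sub_const (γ := fun j => ps L (θ j)) (t := PowerSeries.X)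
      (fun j => ps_zero (k := k) (L := L) ▸ map_dvd _ (hθ j)) h
    rw [← algHom_aeval (ps L) θ _ (fun _ => rfl) h, sub_eq_iff_eq_add'] at e5
    rw [map_one, one_mul, hπ, hψ, hψ, hJ, hE, e5, Algebra.smul_def,
      IsScalarTower.algebraMap_apply k (PowerSeries L) K, ← map_mul, ← map_mul, ← map_mul,
      mul_left_comm (∏ l, e l), mul_assoc (PowerSeries.X ^ n), hW] at fin
    obtain ⟨c, hc⟩ := W3 fin
    refine exact_of hd (fun l => (hφ l).1) (mul_ne_zero hκ (mul_ne_zero hb hh)) (c := c) ?_
    rw [← hc]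
    simp [e1, alg_ps, hκ']
  · intro α γ hαγ P
    choose a ha using fun i => map_dvd (ps L) (hf i)
    obtain ⟨j, hj⟩ := Function.ne_iff.1 hN
    obtain ⟨t, ht⟩ : ∃ t, ∑ i, N (β i) * γ i = ∑ l, N (blk l) * α l + (1 + t) := by
      have h1 : ∑ i, N (β i) * γ i = ∑ l, N (blk l) * α l + ∑ j, N j := by
        rw [← Finset.sum_fiberwise Finset.univ β, ← Finset.sum_fiberwise Finset.univ blk,
          ← Finset.sum_add_distrib]
        refine Finset.sum_congr rfl fun j _ => ?_
        rw [Finset.sum_congr rfl fun i hi => by rw [(Finset.mem_filter.1 hi).2],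
          Finset.sum_congr (s₁ := Finset.filter (blk · = j) _) rfl fun i hi => by
            rw [(Finset.mem_filter.1 hi).2], ← Finset.mul_sum, ← Finset.mul_sum, hαγ, mul_add,
          mul_one]
      have h2 := Finset.single_le_sum (f := N) (fun _ _ => Nat.zero_le _) (Finset.mem_univ j)
      have h3 : N j ≠ 0 := hj
      exact ⟨∑ j, N j - 1, by omega⟩
    obtain ⟨v, hv⟩ := (PowerSeries.isUnit_iff_constantCoeff.2 (show IsUnit
      (PowerSeries.constantCoeff (∏ l, (PowerSeries.C (algebraMap _ L (φ l)) *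
        (1 + PowerSeries.X * r l)) ^ α l)) from by
      simpa using Finset.prod_ne_zero_iff.2 fun l _ => pow_ne_zero _ (hφ' l))).exists_right_inv
    have h4 : (∏ i, π (f i) ^ γ i) / ∏ l, π (mem lam f l) ^ α l = algebraMap (PowerSeries L) K
        (PowerSeries.X ^ (1 + t) * (∏ i, a i ^ γ i) * v) := by
      rw [div_eq_iff (Finset.prod_ne_zero_iff.2 fun l _ => pow_ne_zero _
        (hu l ▸ mul_ne_zero (pow_ne_zero _ hU) (mul_ne_zero (c1 l) (c2 l))))]
      have h5 : ∏ i, π (f i) ^ γ i = algebraMap (PowerSeries L) K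
          (PowerSeries.X ^ (∑ i, N (β i) * γ i) * ∏ i, a i ^ γ i) := by
        rw [← Finset.prod_pow_eq_pow_sum, ← Finset.prod_mul_distrib, map_prod]
        exact Finset.prod_congr rfl fun i _ => by
          rw [hπ, hψ, ha, map_pow (ps L), ps_zero, pow_mul, ← mul_pow, map_pow]
      have h6 : ∏ l, π (mem lam f l) ^ α l = algebraMap (PowerSeries L) K
          (PowerSeries.X ^ (∑ l, N (blk l) * α l) * ∏ l, (PowerSeries.C (algebraMap _ L (φ l)) *
            (1 + PowerSeries.X * r l)) ^ α l) := by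
        rw [← Finset.prod_pow_eq_pow_sum, ← Finset.prod_mul_distrib, map_prod]
        exact Finset.prod_congr rfl fun l _ => by
          rw [hπ, hψ, hr, pow_mul, ← mul_pow, map_pow]
      rw [h5, h6, ← map_mul, ht]
      congr 1
      linear_combination -(PowerSeries.X ^ (∑ l, N (blk l) * α l + (1 + t)) * ∏ i, a i ^ γ i) * hv
    rw [h4, hπ, hψ, hψ, hJ, hE, ← map_mul, ← map_mul, ← map_mul, hW]
    have h7 := W2 (K := K) (d := d) (g := ∑ l, (s l : L) * (d (algebraMap _ L (φ l)) /
      algebraMap _ L (φ l))) (n := n) ((∏ l, e l) * (PowerSeries.C (algebraMap _ L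
      (Polynomial.C κ)) + PowerSeries.X * rJ) * ps L (aeval θ P) * PowerSeries.X ^ t *
      (∏ i, a i ^ γ i) * v)
    convert h7 using 2
    ring
  · have h1 := der_pi (D i) π i (fun j => by
      rw [hD, pderiv_X, Pi.single_apply]
      split_ifs <;> simp_all) P
    convert sub_mem (hDW i (π P * z)) (hz (pderiv i P)) using 1
    rw [Derivation.leibniz, h1, smul_eq_mul, smul_eq_mul]
    ring

end Main

end PI

theorem res {k ι ρ : Type} [Field k] [Fintype ι] [Fintype ρ] [DecidableEq ρ] [CharZero k] :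
    S_res k ι ρ :=
  PI.main (FractionRing (Polynomial k)) (FractionRing (PowerSeries (FractionRing (Polynomial k))))

theorem res_ok {k ι ρ : Type} [Field k] [Fintype ι] [Fintype ρ] [DecidableEq ρ] [CharZero k] :
    S_res k ι ρ := res

end

end Pool.Agent.P.MP_b91a16_ag.Id
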