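import Pool.Agent.P.MP_b91a16_ag.Id.Base

/-! Ideals in two variables: a node with enough roots gives an admissible pair. -/

open MvPolynomial

namespace Pool.Agent.P.MP_b91a16_ag.Id

noncomputable section

variable {k ι ρ Λ : Type} [Field k] [Fintype ι] [Fintype ρ] [DecidableEq ρ] [Fintype Λ]

namespace PK

/-- The exponent `s j` shared out equally over the fibre of `j`. -/
def spr (blk : Λ → ρ) (s : ρ → ℚ) (l : Λ) : ℚ :=
  s (blk l) / (Finset.univ.filter fun l' => blk l' = blk l).card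

theorem card_pos {blk : Λ → ρ} (h : Function.Surjective blk) (j : ρ) :
    (0 : ℚ) < (Finset.univ.filter fun l => blk l = j).card := by
  obtain ⟨l, rfl⟩ := h j
  exact_mod_cast Finset.card_pos.2 ⟨l, by simp⟩

theorem fib {blk : Λ → ρ} (h : Function.Surjective blk) (s F : ρ → ℚ) (j : ρ) :
    ∑ l with blk l = j, spr blk s l * F (blk l) = s j * F j := by
  have := (card_pos h j).ne'
  rw [Finset.sum_congr rfl (g := fun _ =>
    s j / (Finset.univ.filter fun l => blk l = j).card * F j), Finset.sum_const, nsmul_eq_mul]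
  · field_simp
  · intro l hl
    rw [spr, (Finset.mem_filter.1 hl).2]

theorem sum_spr {blk : Λ → ρ} (h : Function.Surjective blk) (s F : ρ → ℚ) :
    ∑ l, spr blk s l * F (blk l) = ∑ j, s j * F j := by
  rw [← Finset.sum_fiberwise Finset.univ blk]
  exact Finset.sum_congr rfl fun j _ => fib h s F j

theorem bs_spr {blk : Λ → ρ} (h : Function.Surjective blk) (s : ρ → ℚ) :
    (bs blk (spr blk s) : ρ → k) = fun j => (s j : k) := by
  funext j
  have := fib h s (fun _ => 1) j
  simp only [mul_one] at this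
  rw [bs, this]

theorem mem_lo {p q : ℕ} {g : ι → P2 k} {β : ι → ρ} {a m : ρ → ℕ} (h : Lo p q g β a m)
    {blk : Λ → ρ} {lam : Λ → ι → k} (hl : ∀ l i, lam l i ≠ 0 → β i = blk l) (l : Λ) :
    ∀ v ∈ (mem lam g l).support, nv p q a m (blk l) ≤ wt p q v := by
  intro v hv
  rw [mem_support_iff, mem, coeff_sum] at hv
  obtain ⟨i, -, hi⟩ := Finset.exists_ne_zero_of_sum_ne_zero hv
  rw [coeff_C_mul] at hi
  rw [← hl l i (left_ne_zero_of_mul hi)]
  exact h i v (mem_support_iff.2 (right_ne_zero_of_mul hi))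

end PK

open PK in
theorem rootA_ok (hres : S_res k ι ρ) (hp1 : S_p1 k) (hini : S_ini k) (hth : S_chTh k) :
    S_rootA k ι ρ := by
  intro f β π n p q z a m hch hp hq hlo hN ⟨Λ, _, blk, lam, Z, hsur, hlam, hφ, hz, hZ⟩ hw
  refine ⟨by positivity, hN, fun h b hh htw s hs hsum => ?_⟩
  by_contra hb
  obtain ⟨h1, κ, hκ, h2⟩ := hth π n p q hch hp hq
  have hneg : ∀ l, spr blk s l < 0 := fun l => div_neg_of_neg_of_pos (hs _) (card_pos hsur _)
  have e0 : ∀ G, aeval (pb (tor k p q 0 1) π) G = aeval (tor k p q 0 1) (aeval π G) :=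
    fun G => (aeval_aeval _ _ _).symm
  have hsum' : ∑ j, s j * nv p q a m j + (p * (n + 1) + q) = 0 := by
    rw [← Finset.sum_congr rfl fun j _ => mul_comm _ (s j)]
    exact_mod_cast hsum
  have hex := hres Λ f β _ _ κ (nv p q a m) blk lam
    (fun l => ini p q (nv p q a m (blk l)) 0 1 (mem lam (pb π f) l)) (spr blk s) h b h1 hκ h2 hN
    (fun i => by
      obtain ⟨r, hr⟩ := hini (pb π f i) p q (nv p q a m (β i)) 0 1 (hlo i)
      exact ⟨_, (e0 _).trans hr⟩) hlam
    (fun l => ⟨(hφ l).1, by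
      rw [e0, aeval_mem]
      exact hini _ p q _ 0 1 (mem_lo hlo hlam l)⟩)
    (by
      rw [sum_spr hsur s fun j => nv p q a m j, ← hsum', Nat.cast_pred (by positivity)]
      push_cast
      ring) hh htw (by rwa [bs_spr hsur])
  have hle : -∑ l, spr blk s l *
      (ini p q (nv p q a m (blk l)) 0 1 (mem lam (pb π f) l)).natDegree ≤ ∑ j, -s j * m j := by
    simp only [neg_mul, Finset.sum_neg_distrib, neg_le_neg_iff]
    rw [← sum_spr hsur s fun j => m j]
    exact Finset.sum_le_sum fun l _ =>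
      mul_le_mul_of_nonpos_left (by exact_mod_cast (hφ l).2) (hneg l).le
  have h3 := hw (fun j => -s j) (fun j => neg_pos.2 (hs j)) (by
    simp only [neg_mul, Finset.sum_neg_distrib]
    linarith)
  rcases hp1 Λ _ _ Z (fun l => (hφ l).1) hneg hZ hex with h4 | ⟨h4, h5⟩
  · omega
  · rcases h3 with ⟨h6, -⟩ | ⟨h6, h7⟩
    · linarith
    · have : (3 : ℚ) ≤ Z.card := by exact_mod_cast h7.trans hz
      linarith

end

end Pool.Agent.P.MP_b91a16_ag.Id
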