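import Pool.Agent.P.MP_b91a16_ag.Id.Base

/-! Ideals in two variables: the root coming from a formal branch. -/

open MvPolynomial

namespace Pool.Agent.P.MP_b91a16_ag.Id

noncomputable section

namespace PL

section Loc

variable {A K : Type} [CommRing A] [Field K] [Algebra A K]

/-- Fractions whose denominator is prime to `y`. -/
def InO (y : A) (z : K) : Prop := ∃ P B : A, ¬y ∣ B ∧ z * algebraMap A K B = algebraMap A K P

variable {y : A} {z z' : K}

theorem InO.alg (hy : Prime y) (P : A) : InO y (algebraMap A K P) :=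
  ⟨P, 1, hy.not_dvd_one, by rw [map_one, mul_one]⟩

theorem InO.add (hy : Prime y) (h : InO y z) (h' : InO y z') : InO y (z + z') := by
  obtain ⟨P, B, hB, e⟩ := h
  obtain ⟨P', B', hB', e'⟩ := h'
  refine ⟨P * B' + P' * B, B * B', fun hd => (hy.dvd_or_dvd hd).elim hB hB', ?_⟩
  rw [map_add, map_mul, map_mul, map_mul, ← e, ← e']
  ring

theorem InO.mul (hy : Prime y) (h : InO y z) (h' : InO y z') : InO y (z * z') := by
  obtain ⟨P, B, hB, e⟩ := h
  obtain ⟨P', B', hB', e'⟩ := h'
  refine ⟨P * P', B * B', fun hd => (hy.dvd_or_dvd hd).elim hB hB', ?_⟩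
  rw [map_mul, map_mul, ← e, ← e']
  ring

theorem InO.sum (hy : Prime y) {α : Type} (s : Finset α) (F : α → K)
    (h : ∀ a ∈ s, InO y (F a)) : InO y (∑ a ∈ s, F a) :=
  Finset.sum_induction F (InO y) (fun _ _ => InO.add hy) (by simpa using InO.alg (K := K) hy 0) h

variable [IsFractionRing A K]

theorem alg_ne {B : A} (hB : ¬y ∣ B) : algebraMap A K B ≠ 0 := by
  intro h
  apply hB
  rw [(map_eq_zero_iff _ (IsFractionRing.injective A K)).1 h]
  exact dvd_zero _

theorem InO.inv {B : A} (hB : ¬y ∣ B) : InO y (algebraMap A K B)⁻¹ :=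
  ⟨1, B, hB, by rw [map_one, inv_mul_cancel₀ (alg_ne hB)]⟩

omit [IsFractionRing A K] in
theorem InO.der {k : Type} [Field k] [Algebra k A] [Algebra k K] (hy : Prime y)
    {d : Derivation k A A} {D : Derivation k K K}
    (hD : ∀ a, D (algebraMap A K a) = algebraMap A K (d a)) (h : InO y z) : InO y (D z) := by
  obtain ⟨P, B, hB, e⟩ := h
  refine ⟨d P * B - P * d B, B * B, fun hd => (hy.dvd_or_dvd hd).elim hB hB, ?_⟩
  have h1 := congrArg D e
  rw [Derivation.leibniz, hD, hD, smul_eq_mul, smul_eq_mul] at h1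
  rw [map_sub, map_mul, map_mul, map_mul, ← h1, ← e]
  ring

end Loc

theorem der_pow {k K : Type} [Field k] [Field K] [Algebra k K] (D : Derivation k K K) {Y U : K}
    (hY : Y ≠ 0) (hU : U ≠ 0) (m : ℕ) :
    D (Y ^ m * U) / (Y ^ m * U) = m * (D Y / Y) + D U / U := by
  induction m with
  | zero => simp
  | succ m ih =>
    have h1 : D (Y ^ m * U) = (m * (D Y / Y) + D U / U) * (Y ^ m * U) := by
      rw [← ih, div_mul_cancel₀ _ (mul_ne_zero (pow_ne_zero _ hY) hU)]
    rw [show Y ^ (m + 1) * U = Y * (Y ^ m * U) by ring, Derivation.leibniz, h1, smul_eq_mul,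
      smul_eq_mul]
    push_cast
    field_simp
    ring

variable {k ι ρ : Type} [Field k] [Fintype ι] [Fintype ρ] [DecidableEq ρ]

theorem core [CharZero k] {A : Type} [CommRing A] [IsDomain A] [Algebra k A] {y : A}
    (hy : Prime y) (E : Fin 2 → Derivation k A A) (J : A) (hJ : ¬y ∣ J) (Ψ : P2 k →ₐ[k] A)
    (hE : ∀ i j, E i (Ψ (X j)) = if i = j then J else 0) (f : ι → P2 k) (β : ι → ρ) (m : ρ → ℕ)
    (hm : m ≠ 0) (h1 : ∀ i, y ^ m (β i) ∣ Ψ (f i))
    (h2 : ∀ j, ∃ i, β i = j ∧ ∃ u, ¬y ∣ u ∧ Ψ (f i) = y ^ m j * u) (h : P2 k) (hh : ¬y ∣ Ψ h)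
    (b : MvPolynomial ρ k) (hT : Tw f β h b) (s : ρ → ℚ) (hs : ∑ j, (m j : ℚ) * s j + 1 = 0) :
    eval (fun j => (s j : k)) b = 0 := by
  classical
  let K := FractionRing A
  have : CharZero K := charZero_of_injective_algebraMap (algebraMap k K).injective
  choose D' hD' using fun i => exists_der (k := k) (K := K) (E i)
  choose idx hidx u hu hfu using h2
  choose g hg using h1
  let a := algebraMap A K
  let πK : P2 k →ₐ[k] K := (IsScalarTower.toAlgHom k A K).comp Ψ
  have hπ : ∀ P, πK P = a (Ψ P) := fun _ => rfl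
  let D : Fin 2 → Derivation k K K := fun i => (a J)⁻¹ • D' i
  have hDO : ∀ i z, InO y z → InO y (D i z) := fun i z hz =>
    (InO.inv hJ).mul hy (hz.der hy (hD' i))
  have hk : ∀ c : k, InO y (algebraMap k K c) := fun c => by
    rw [IsScalarTower.algebraMap_apply k A K]
    exact InO.alg hy _
  let V : Submodule k K :=
    { carrier := {z | ∃ w, InO y w ∧ z = a y * w}
      add_mem' := by
        rintro _ _ ⟨w, hw, rfl⟩ ⟨w', hw', rfl⟩
        exact ⟨w + w', hw.add hy hw', by ring⟩
      zero_mem' := ⟨a 0, InO.alg hy 0, by simp⟩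
      smul_mem' := by
        rintro c _ ⟨w, hw, rfl⟩
        exact ⟨algebraMap k K c * w, (hk c).mul hy hw, by rw [Algebra.smul_def]; ring⟩ }
  let lam : ρ → ι → k := fun l i => if i = idx l then 1 else 0
  have hmem : ∀ l, mem lam f l = f (idx l) := by
    intro l
    simp [mem, lam, apply_ite C]
  have hY : a y ≠ 0 := fun h0 =>
    hy.ne_zero ((map_eq_zero_iff _ (IsFractionRing.injective A K)).1 h0)
  have hU : ∀ l, a (u l) ≠ 0 := fun l => alg_ne (hu l)
  have hml : ∀ l, πK (mem lam f l) = a y ^ m l * a (u l) := by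
    intro l
    rw [hmem, hπ, hfu, map_mul, map_pow]
  have key := hT ρ id lam s K πK D V ?_ ?_ ?_ ?_ ?_ ?_
  · by_contra hne
    have e : (bs id s : ρ → k) = fun j => (s j : k) := by
      funext j
      simp [bs, Finset.filter_eq']
    rw [e] at key
    have h3 := V.smul_mem (eval (fun j => (s j : k)) b)⁻¹ key
    rw [smul_smul, inv_mul_cancel₀ hne, one_smul] at h3
    obtain ⟨w, ⟨P, B, hB, e1⟩, e2⟩ := h3
    have h4 : a (Ψ h * B) = a (y * P) := by
      rw [map_mul, map_mul, ← hπ, e2, mul_assoc, e1]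
    have h5 : y ∣ Ψ h * B := ⟨P, IsFractionRing.injective A K h4⟩
    exact (hy.dvd_or_dvd h5).elim hh hB
  · intro l i hi
    have : i = idx l := by
      by_contra hne
      exact hi (if_neg hne)
    rw [this, hidx]
    rfl
  · intro i j
    change (a J)⁻¹ • D' i (a (Ψ (X j))) = _
    rw [hD', hE]
    split_ifs
    · exact inv_mul_cancel₀ (alg_ne hJ)
    · simp
  · intro l
    rw [hml]
    exact mul_ne_zero (pow_ne_zero _ hY) (hU l)
  · intro α γ hγ
    have e1 : ∑ i, m (β i) * γ i = ∑ l, m l * α l + ∑ l, m l := by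
      rw [← Finset.sum_fiberwise Finset.univ β, ← Finset.sum_add_distrib]
      refine Finset.sum_congr rfl fun j _ => ?_
      have h3 := hγ j
      simp only [id, Finset.filter_eq', Finset.mem_univ, if_true, Finset.sum_singleton] at h3
      rw [← Nat.mul_succ, Nat.succ_eq_add_one, ← h3, Finset.mul_sum]
      exact Finset.sum_congr rfl fun i hi => by rw [(Finset.mem_filter.1 hi).2]
    obtain ⟨t, ht⟩ : ∃ t, ∑ l, m l = t + 1 := by
      refine Nat.exists_eq_succ_of_ne_zero fun h0 => hm ?_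
      funext j
      exact Finset.sum_eq_zero_iff.1 h0 j (Finset.mem_univ _)
    have hB : ¬y ∣ ∏ l, u l ^ α l := by
      intro hd
      obtain ⟨l, -, hl⟩ := (hy.dvd_finsetProd_iff _).1 hd
      exact hu l (hy.dvd_of_dvd_pow hl)
    refine ⟨a (y ^ t * ∏ i, g i ^ γ i) * (a (∏ l, u l ^ α l))⁻¹,
      (InO.alg hy _).mul hy (InO.inv hB), ?_⟩
    have e2 : ∏ i, πK (f i) ^ γ i = a y ^ (∑ i, m (β i) * γ i) * a (∏ i, g i ^ γ i) := by
      rw [← Finset.prod_pow_eq_pow_sum, map_prod, ← Finset.prod_mul_distrib]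
      refine Finset.prod_congr rfl fun i _ => ?_
      rw [hπ, hg, map_mul, map_pow, map_pow, mul_pow, pow_mul]
    have e3 : ∏ l, πK (mem lam f l) ^ α l =
        a y ^ (∑ l, m l * α l) * a (∏ l, u l ^ α l) := by
      rw [← Finset.prod_pow_eq_pow_sum, map_prod, ← Finset.prod_mul_distrib]
      refine Finset.prod_congr rfl fun l _ => ?_
      rw [hml, map_pow, mul_pow, pow_mul]
    have hB' : a (∏ l, u l ^ α l) ≠ 0 := alg_ne hB
    rw [e2, e3, e1, ht, map_mul, map_pow, div_eq_iff (mul_ne_zero (pow_ne_zero _ hY) hB')]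
    have e4 := inv_mul_cancel₀ hB'
    linear_combination (-(a y ^ (∑ l, m l * α l + (t + 1)) * a (∏ i, g i ^ γ i))) * e4
  · rintro _ ⟨w, hw, rfl⟩ j
    exact ⟨πK (X j) * w, (InO.alg hy _).mul hy hw, by ring⟩
  · rintro _ ⟨w, hw, rfl⟩ i
    have hsK : ∑ j, (m j : K) * (s j : K) + 1 = 0 := by exact_mod_cast hs
    let o : K := ∑ l, (s l : K) * (D i (a (u l)) * (a (u l))⁻¹)
    have ho : InO y o := by
      refine InO.sum hy _ _ fun l _ => InO.mul hy ?_ ((hDO i _ (InO.alg hy _)).mul hy
        (InO.inv (hu l)))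
      rw [← map_ratCast (algebraMap k K)]
      exact hk _
    have e1 : ∑ l, (s l : K) * (D i (πK (mem lam f l)) / πK (mem lam f l)) =
        -(D i (a y) / a y) + o := by
      have e2 : -(D i (a y) / a y) = (∑ j, (m j : K) * (s j : K)) * (D i (a y) / a y) := by
        linear_combination (-(D i (a y) / a y)) * hsK
      rw [e2, Finset.sum_mul, ← Finset.sum_add_distrib]
      refine Finset.sum_congr rfl fun l _ => ?_
      rw [hml, der_pow _ hY (hU l), div_eq_mul_inv (D i (a (u l)))]
      ring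
    refine ⟨D i w + o * w, (hDO i w hw).add hy (ho.mul hy hw), ?_⟩
    rw [e1, Derivation.leibniz, smul_eq_mul, smul_eq_mul, div_eq_mul_inv]
    have e4 := inv_mul_cancel₀ hY
    linear_combination (-(D i (a y) * w)) * e4

/-- The coefficientwise derivative. -/
def dc (k : Type) [Field k] :
    Derivation k (Polynomial (PowerSeries k)) (Polynomial (PowerSeries k)) :=
  PolynomialModule.equivPolynomialSelf.compDer (PowerSeries.derivative k).mapCoeffs

theorem dc_C (x : PowerSeries k) :
    dc k (Polynomial.C x) = Polynomial.C (PowerSeries.derivative k x) := by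
  simp [dc]

theorem dc_X : dc k Polynomial.X = 0 := by
  simp [dc]

/-- The derivative in the polynomial variable. -/
def dy (k : Type) [Field k] :
    Derivation k (Polynomial (PowerSeries k)) (Polynomial (PowerSeries k)) :=
  Polynomial.derivative'.restrictScalars k

def dd (φ : PowerSeries k) :
    Fin 2 → Derivation k (Polynomial (PowerSeries k)) (Polynomial (PowerSeries k)) :=
  ![dc k - Polynomial.C (PowerSeries.derivative k φ) • dy k, dy k]

theorem dd_X (φ : PowerSeries k) (i j : Fin 2) :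
    dd φ i (Φs φ (X j)) = if i = j then 1 else 0 := by
  fin_cases i <;> fin_cases j <;> simp [dd, Φs, dy, dc_C, dc_X]

theorem dd_Φ (φ : PowerSeries k) (i : Fin 2) (P : P2 k) :
    dd φ i (Φs φ P) = Φs φ (pderiv i P) := by
  induction P using MvPolynomial.induction_on with
  | C c => rw [pderiv_C, map_zero, ← algebraMap_eq, AlgHom.commutes, Derivation.map_algebraMap]
  | add p q hp hq => simp only [map_add, hp, hq]
  | mul_X p j hp =>
    rw [map_mul, Derivation.leibniz, hp, dd_X, Derivation.leibniz, pderiv_X, map_add, smul_eq_mul,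
      smul_eq_mul, smul_eq_mul, smul_eq_mul, map_mul, map_mul, Pi.single_apply]
    by_cases h : i = j
    · simp [h]
    · simp [h, Ne.symm h]

theorem not_dvd {φ : PowerSeries k} (hφ : PowerSeries.constantCoeff φ = 0) {θ : Fin 2 → P2 k}
    (hθ : ∀ i, constantCoeff (θ i) = 0) {h : P2 k} (hh : constantCoeff h ≠ 0) :
    ¬Polynomial.X ∣ Φs φ (aeval θ h) := by
  have e1 : ∀ P : P2 k, PowerSeries.constantCoeff ((Φs φ P).coeff 0) = constantCoeff P := by
    intro P
    induction P using MvPolynomial.induction_on with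
    | C c => simp [Φs]
    | add p q hp hq => simp only [map_add, Polynomial.coeff_add, hp, hq]
    | mul_X p j hp =>
      rw [map_mul, Polynomial.mul_coeff_zero, map_mul, hp, map_mul]
      fin_cases j <;> simp [Φs, hφ]
  have e2 : ∀ P : P2 k, constantCoeff (aeval θ P) = constantCoeff P := by
    intro P
    induction P using MvPolynomial.induction_on with
    | C c => simp
    | add p q hp hq => simp only [map_add, hp, hq]
    | mul_X p j hp => simp [hθ]
  intro hd
  apply hh
  rw [← e2, ← e1, Polynomial.X_dvd_iff.1 hd, map_zero]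

end PL

open PL

variable {k ι ρ : Type} [Field k] [Fintype ι] [Fintype ρ] [DecidableEq ρ]

theorem rootC_ok [CharZero k] : S_rootC k ι ρ := by
  intro f β π n m φ hπ hφ hm h1 h2
  obtain ⟨h0, u, hu, hJ⟩ := hπ
  refine ⟨one_pos, hm, fun h b hh hT s _ hs => ?_⟩
  refine core (A := Polynomial (PowerSeries k)) Polynomial.prime_X
    ![Φs φ (pderiv 1 (π 1)) • dd φ 0 - Φs φ (pderiv 0 (π 1)) • dd φ 1,
      Φs φ (pderiv 0 (π 0)) • dd φ 1 - Φs φ (pderiv 1 (π 0)) • dd φ 0]
    (Φs φ (Jac π)) ?_ ((Φs φ).comp (aeval π)) ?_ f β m hm h1 ?_ h (not_dvd hφ h0 hh) b hT s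
    (by simpa using hs)
  · rw [hJ, map_mul, map_pow]
    intro hd
    rcases Polynomial.prime_X.dvd_or_dvd hd with h3 | h3
    · have h4 := Polynomial.X_dvd_iff.1 (Polynomial.prime_X.dvd_of_dvd_pow h3)
      simp [Φs] at h4
    · refine not_dvd hφ (θ := X) (fun i => constantCoeff_X k i) hu ?_
      rwa [aeval_X_left_apply]
  · intro i j
    fin_cases i <;> fin_cases j <;> simp [dd_Φ, Jac] <;> ring
  · intro j
    obtain ⟨i, hi, h3⟩ := h2 j
    obtain ⟨w, hw⟩ := h1 i
    rw [hi] at hw
    refine ⟨i, hi, w, fun hd => h3 ?_, hw⟩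
    have := Polynomial.coeff_X_pow_mul w (m j) 0
    rw [zero_add] at this
    rw [hw, this, Polynomial.X_dvd_iff.1 hd]

end

end Pool.Agent.P.MP_b91a16_ag.Id
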