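import Pool.Agent.P.MP_b91a16_ag.Id.Base

/-! Package M: the Bernstein-Sato equation of `∑ y_i f_i` in twisted form. -/

set_option linter.unusedSectionVars false

open MvPolynomial

namespace Pool.Agent.P.MP_b91a16_ag.Id

noncomputable section

namespace PM

section T

variable {K σ : Type} [Field K] [Fintype σ] [DecidableEq σ]

/-- The derivative of order `μ` at the origin. -/
def T (μ : σ → ℕ) (G : MvPolynomial σ K) : K :=
  (∏ j, ((μ j).factorial : K)) * coeff (Finsupp.equivFunOnFinite.symm μ) G

theorem T_add (μ : σ → ℕ) (G H : MvPolynomial σ K) : T μ (G + H) = T μ G + T μ H := by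
  simp [T, mul_add]

theorem T_C (μ : σ → ℕ) (z : K) (G : MvPolynomial σ K) : T μ (C z * G) = z * T μ G := by
  simp [T, mul_left_comm]

theorem T_sum {α : Type} (s : Finset α) (μ : σ → ℕ) (G : α → MvPolynomial σ K) :
    T μ (∑ a ∈ s, G a) = ∑ a ∈ s, T μ (G a) := by
  simp [T, coeff_sum, Finset.mul_sum]

theorem fac_add (μ : σ → ℕ) (j : σ) :
    ∏ i, (((μ + Pi.single j 1 : σ → ℕ) i).factorial : K) =
      (μ j + 1) * ∏ i, ((μ i).factorial : K) := by
  rw [← Finset.mul_prod_erase _ _ (Finset.mem_univ j),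
    ← Finset.mul_prod_erase _ (fun i => ((μ i).factorial : K)) (Finset.mem_univ j), ← mul_assoc]
  congr 1
  · simp [Nat.factorial_succ]
  · exact Finset.prod_congr rfl fun i hi => by simp [Finset.ne_of_mem_erase hi]

theorem e_add (μ : σ → ℕ) (j : σ) : Finsupp.equivFunOnFinite.symm (μ + Pi.single j 1) =
    Finsupp.equivFunOnFinite.symm μ + Finsupp.single j 1 := by
  ext i
  simp [Finsupp.single_apply, Pi.single_apply, eq_comm]

theorem T_pderiv (μ : σ → ℕ) (j : σ) (G : MvPolynomial σ K) :
    T μ (pderiv j G) = T (μ + Pi.single j 1) G := by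
  rw [T, T, fac_add, e_add, coeff_pderiv, Finsupp.equivFunOnFinite_symm_apply_apply]
  ring

theorem sub_add {μ : σ → ℕ} {j : σ} (h : μ j ≠ 0) : μ - Pi.single j 1 + Pi.single j 1 = μ := by
  ext i
  by_cases e : i = j
  · subst e
    simp only [Pi.add_apply, Pi.sub_apply, Pi.single_eq_same]
    omega
  · simp [e]

theorem T_X (μ : σ → ℕ) (j : σ) (G : MvPolynomial σ K) :
    T μ (X j * G) = μ j * T (μ - Pi.single j 1) G := by
  by_cases h : μ j = 0
  · simp [T, coeff_X_mul', h]
  · obtain ⟨ν, rfl⟩ : ∃ ν : σ → ℕ, μ = ν + Pi.single j 1 := ⟨_, (sub_add h).symm⟩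
    rw [add_tsub_cancel_right, T, T, fac_add, e_add, add_comm _ (Finsupp.single j 1), coeff_X_mul]
    simp [mul_assoc]

theorem T_pow (w : σ → K) (μ : σ → ℕ) (n : ℕ) : T μ ((∑ j, w j • X j) ^ n) =
    if ∑ j, μ j = n then (n.factorial : K) * ∏ j, w j ^ μ j else 0 := by
  rw [T, coeff_linearCombination_X_pow_of_fintype, Finsupp.sum_fintype _ _ (by simp),
    Finsupp.prod_fintype _ _ (by simp),
    Finsupp.multinomial_eq_of_support_subset (Finset.subset_univ _)]
  simp only [Finsupp.equivFunOnFinite_symm_apply_apply, Finsupp.coe_equivFunOnFinite_symm]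
  split_ifs with h
  · rw [← h, ← Nat.multinomial_spec, ← mul_assoc]
    simp
  · simp

end T

variable {k Λ K : Type} [Field k] [Fintype Λ] [DecidableEq Λ] [Field K] [Algebra k K] {r : ℕ}
  (π : P2 k →ₐ[k] K) (lam : Λ → Fin r → k)

/-- The substitution `y_i = ∑ lam l i t_l + z_i`. -/
def Th : MvPolynomial (Fin (2 + r)) k →ₐ[k] MvPolynomial (Λ ⊕ Fin r) K :=
  aeval (Fin.append (fun j => C (π (X j)))
    fun i => ∑ l, C (algebraMap k K (lam l i)) * X (.inl l) + X (.inr i))

theorem Th_x (j : Fin 2) : Th π lam (X (Fin.castAdd r j)) = C (π (X j)) := by simp [Th]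

theorem Th_y (i : Fin r) : Th π lam (X (Fin.natAdd 2 i)) =
    ∑ l, C (algebraMap k K (lam l i)) * X (.inl l) + X (.inr i) := by simp [Th]

theorem Th_C (c : k) : Th π lam (C c) = C (algebraMap k K c) := by
  simp [Th]

theorem Th_rename (P : P2 k) : Th π lam (rename (Fin.castAdd r) P) = C (π P) := by
  induction P using MvPolynomial.induction_on with
  | C c => rw [rename_C, Th_C, algHom_C]
  | add p q hp hq => simp only [map_add, hp, hq]
  | mul_X p j hp => simp only [map_mul, hp, rename_X, Th_x]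

theorem Th_g (f : Fin r → P2 k) : Th π lam (gI f) =
    ∑ j, Sum.elim (fun l => π (mem lam f l)) (fun i => π (f i)) j • X j := by
  simp only [gI, map_sum, map_mul, Th_y, Th_rename, Fintype.sum_sum_type, Sum.elim_inl,
    Sum.elim_inr, mem, algHom_C, smul_eq_C_mul, add_mul, Finset.sum_add_distrib, Finset.sum_mul]
  rw [Finset.sum_comm]
  congr 1
  · exact Finset.sum_congr rfl fun l _ => Finset.sum_congr rfl fun i _ => by ring
  · exact Finset.sum_congr rfl fun i _ => by ring

theorem ne_xy (j : Fin 2) (i : Fin r) : Fin.castAdd r j ≠ Fin.natAdd 2 i := fun h => by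
  have := congrArg Fin.val h
  simp only [Fin.val_castAdd, Fin.val_natAdd] at this
  omega

theorem Th_dy (i : Fin r) (F : MvPolynomial (Fin (2 + r)) k) :
    Th π lam (pderiv (Fin.natAdd 2 i) F) = pderiv (.inr i) (Th π lam F) := by
  induction F using MvPolynomial.induction_on with
  | C c => simp
  | add p q hp hq => simp only [map_add, hp, hq]
  | mul_X p n hp =>
    simp only [map_mul, Derivation.leibniz, smul_eq_mul, map_add, hp]
    congr 2
    induction n using Fin.addCases with
    | left j => simp [Th_x, pderiv_X, ne_xy]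
    | right i' => simp [Th_y, pderiv_X, Pi.single_apply]

/-- Directional derivatives in `y` at `y = 0`. -/
def S (μ : Λ ⊕ Fin r → ℕ) (F : MvPolynomial (Fin (2 + r)) k) : K := T μ (Th π lam F)

variable (μ : Λ ⊕ Fin r → ℕ) (F F' : MvPolynomial (Fin (2 + r)) k)

theorem S_add : S π lam μ (F + F') = S π lam μ F + S π lam μ F' := by simp [S, T_add]

theorem S_zero : S π lam μ 0 = 0 := by simp [S, T]

theorem S_C (c : k) : S π lam μ (C c * F) = algebraMap k K c * S π lam μ F := by
  rw [S, map_mul, Th_C, T_C, S]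

theorem S_x (j : Fin 2) : S π lam μ (X (Fin.castAdd r j) * F) = π (X j) * S π lam μ F := by
  rw [S, map_mul, Th_x, T_C, S]

theorem S_y (i : Fin r) : S π lam μ (X (Fin.natAdd 2 i) * F) =
    ∑ l, algebraMap k K (lam l i) * (μ (.inl l) * S π lam (μ - Pi.single (.inl l) 1) F) +
      μ (.inr i) * S π lam (μ - Pi.single (.inr i) 1) F := by
  simp only [S, map_mul, Th_y, add_mul, Finset.sum_mul, T_add, T_sum, mul_assoc, T_C, T_X]

theorem S_dy (i : Fin r) :
    S π lam μ (pderiv (Fin.natAdd 2 i) F) = S π lam (μ + Pi.single (.inr i) 1) F := by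
  rw [S, Th_dy, T_pderiv, S]

theorem S_dx (D : Derivation k K K) (j : Fin 2)
    (hD : ∀ j', D (π (X j')) = if j = j' then 1 else 0) :
    S π lam μ (pderiv (Fin.castAdd r j) F) = D (S π lam μ F) := by
  induction F using MvPolynomial.induction_on generalizing μ with
  | C c =>
    have h : S π lam μ 1 = ((if μ = 0 then 1 else 0 : ℕ) : K) := by
      have := T_pow (fun _ : Λ ⊕ Fin r => (1 : K)) μ 0
      simpa [S, funext_iff] using this
    rw [pderiv_C, S_zero, ← mul_one (C c), S_C, h, D.leibniz, D.map_natCast, D.map_algebraMap]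
    simp
  | add p q hp hq => simp only [map_add, S_add, hp, hq]
  | mul_X p n hp =>
    rw [mul_comm p, Derivation.leibniz, smul_eq_mul, smul_eq_mul, S_add]
    induction n using Fin.addCases with
    | left j' =>
      rw [S_x, S_x, hp, D.leibniz, hD, pderiv_X, Pi.single_apply]
      by_cases e : j = j'
      · simp [e]
      · simp [e, Ne.symm e, S_zero]
    | right i =>
      rw [S_y, S_y, pderiv_X, Pi.single_eq_of_ne (ne_xy j i).symm]
      simp [hp, S_zero]

theorem S_pow (f : Fin r → P2 k) (n : ℕ) : S π lam μ (gI f ^ n) =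
    if ∑ j, μ j = n then (n.factorial : K) * ((∏ l, π (mem lam f l) ^ μ (.inl l)) *
      ∏ i, π (f i) ^ μ (.inr i)) else 0 := by
  rw [S, map_pow, Th_g, T_pow, Fintype.prod_sum_type]
  rfl

/-- The restriction to `y = 0`. -/
def res (F : MvPolynomial (Fin (2 + r)) k) : P2 k := aeval (Fin.append X fun _ => 0) F

theorem cc_res : constantCoeff (res F) = constantCoeff F := by
  induction F using MvPolynomial.induction_on with
  | C c => simp [res]
  | add p q hp hq => simp only [res, map_add] at *; rw [hp, hq]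
  | mul_X p n hp =>
    simp only [res, map_mul] at *
    induction n using Fin.addCases <;> simp

theorem sum_sub {σ : Type} [Fintype σ] [DecidableEq σ] {μ : σ → ℕ} {j : σ} (h : μ j ≠ 0) :
    ∑ i, (μ - Pi.single j 1 : σ → ℕ) i + 1 = ∑ i, μ i := by
  conv_rhs => rw [← sub_add h]
  simp [Finset.sum_add_distrib]

theorem S_mul (f : Fin r → P2 k) (n : ℕ) (h : ∑ j, μ j ≤ n) :
    S π lam μ (F * gI f ^ n) = π (res F) * S π lam μ (gI f ^ n) := by
  induction F using MvPolynomial.induction_on generalizing μ with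
  | C c => simp [S_C, res]
  | add p q hp hq => simp only [res, map_add, add_mul, S_add] at *; rw [hp _ h, hq _ h]
  | mul_X p m hp =>
    rw [mul_comm p, mul_assoc]
    have key : ∀ j, (μ j : K) * S π lam (μ - Pi.single j 1) (p * gI f ^ n) = 0 := fun j => by
      by_cases e : μ j = 0
      · simp [e]
      · have := sum_sub e
        rw [hp _ (by omega), S_pow, if_neg (by omega), mul_zero, mul_zero]
    induction m using Fin.addCases with
    | left j => simp [S_x, hp _ h, res, mul_assoc]
    | right i => simp [S_y, key, res]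

theorem ex_der (D : Derivation k K K) (Q : MvPolynomial Λ K) : ∃ Q' : MvPolynomial Λ K,
    ∀ a : Λ → K, (∀ l, D (a l) = 0) → eval a Q' = D (eval a Q) := by
  induction Q using MvPolynomial.induction_on with
  | C c => exact ⟨C (D c), by simp⟩
  | add p q hp hq =>
    obtain ⟨p', hp⟩ := hp
    obtain ⟨q', hq⟩ := hq
    exact ⟨p' + q', fun a ha => by simp [hp a ha, hq a ha]⟩
  | mul_X p l hp =>
    obtain ⟨p', hp⟩ := hp
    exact ⟨p' * X l, fun a ha => by simp [hp a ha, ha, mul_comm]⟩

theorem der_prod (D : Derivation k K K) (u : Λ → K) (hu : ∀ l, u l ≠ 0) (a : Λ → ℕ)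
    (t : Finset Λ) : D (∏ l ∈ t, u l ^ a l) =
      (∑ l ∈ t, (a l : K) * (D (u l) / u l)) * ∏ l ∈ t, u l ^ a l := by
  induction t using Finset.induction_on with
  | empty => simp
  | insert l t hl ih =>
    have h : D (u l ^ a l) = a l * (D (u l) / u l) * u l ^ a l := by
      rw [D.leibniz_pow]
      have := hu l
      rcases a l with _ | n
      · simp
      · simp only [Nat.add_sub_cancel, smul_eq_mul, nsmul_eq_mul]
        field_simp
        ring
    rw [Finset.prod_insert hl, Finset.sum_insert hl, D.leibniz, ih, h, smul_eq_mul, smul_eq_mul]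
    ring

theorem eval_sum (a : Λ → K) (t : k) (h : ∑ l, a l = algebraMap k K t) (B : Polynomial k) :
    eval a (Polynomial.aeval (∑ l, X l : MvPolynomial Λ K) B) = algebraMap k K (B.eval t) := by
  induction B using Polynomial.induction_on' with
  | add p q hp hq => simp only [map_add, hp, hq, Polynomial.eval_add]
  | monomial n c => simp [Polynomial.aeval_monomial, h]

theorem elim_l (b : Λ → ℕ) (c : Fin r → ℕ) (l : Λ) :
    (Sum.elim b c - Pi.single (.inl l) 1 : Λ ⊕ Fin r → ℕ) = Sum.elim (b - Pi.single l 1) c := by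
  ext (j | j) <;> simp [Pi.single_apply]

theorem elim_r (b : Λ → ℕ) (c : Fin r → ℕ) (i : Fin r) :
    (Sum.elim b c - Pi.single (.inr i) 1 : Λ ⊕ Fin r → ℕ) = Sum.elim b (c - Pi.single i 1) := by
  ext (j | j) <;> simp [Pi.single_apply]

theorem elim_r' (b : Λ → ℕ) (c : Fin r → ℕ) (i : Fin r) :
    (Sum.elim b c + Pi.single (.inr i) 1 : Λ ⊕ Fin r → ℕ) = Sum.elim b (c + Pi.single i 1) := by
  ext (j | j) <;> simp [Pi.single_apply]

variable (f : Fin r → P2 k) (s : Λ → ℚ) (V : Submodule k K)

def E (a : Λ → ℕ) : K := ((∑ l, a l).factorial : K) * ∏ l, π (mem lam f l) ^ a l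

/-- The derivatives of the family `F` are interpolated by polynomials with value in `V` at `s`. -/
def Good (F : ℕ → MvPolynomial (Fin (2 + r)) k) : Prop := ∀ (α : Λ → ℕ) (c : Fin r → ℕ),
  ∃ Q : MvPolynomial Λ K, eval (fun l => (s l : K)) Q ∈ V ∧ ∀ a b : Λ → ℕ, a = α + b →
    eval (fun l => (a l : K)) Q * E π lam f a = S π lam (Sum.elim b c) (F (∑ l, a l))

variable {π lam f s V} {G G' : ℕ → MvPolynomial (Fin (2 + r)) k}

theorem alg_mem (c : k) {z : K} (h : z ∈ V) : algebraMap k K c * z ∈ V := by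
  rw [← Algebra.smul_def]
  exact V.smul_mem c h

theorem rat_mem (q : ℚ) {z : K} (h : z ∈ V) : (q : K) * z ∈ V := by
  rw [← map_ratCast (algebraMap k K)]
  exact alg_mem _ h

theorem good_zero : Good π lam f s V fun _ => 0 := fun _ _ => ⟨0, by simp, by simp [S_zero]⟩

theorem Good.add (h : Good π lam f s V G) (h' : Good π lam f s V G') :
    Good π lam f s V fun m => G m + G' m := fun α c => by
  obtain ⟨Q, h1, h2⟩ := h α c
  obtain ⟨Q', h1', h2'⟩ := h' α c
  exact ⟨Q + Q', by simpa using add_mem h1 h1', fun a b e => by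
    rw [map_add, add_mul, h2 a b e, h2' a b e, S_add]⟩

theorem Good.smul (h : Good π lam f s V G) (d : k) : Good π lam f s V fun m => d • G m :=
  fun α c => by
    obtain ⟨Q, h1, h2⟩ := h α c
    exact ⟨C (algebraMap k K d) * Q, by simpa using alg_mem d h1, fun a b e => by
      beta_reduce
      rw [map_mul, eval_C, mul_assoc, h2 a b e, smul_eq_C_mul, S_C]⟩

theorem sum_mem' {z : K} (h : z ∈ V) : (∑ l, (s l : K)) * z ∈ V := by
  rw [Finset.sum_mul]
  exact sum_mem fun l _ => rat_mem _ h

theorem Good.nat (h : Good π lam f s V G) : Good π lam f s V fun m => (m : k) • G m :=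
  fun α c => by
    obtain ⟨Q, h1, h2⟩ := h α c
    exact ⟨(∑ l, X l) * Q, by simpa using sum_mem' h1, fun a b e => by
      beta_reduce
      rw [map_mul, mul_assoc, h2 a b e, smul_eq_C_mul, S_C]
      simp⟩

theorem Good.x (h : Good π lam f s V G) (hV : ∀ z ∈ V, ∀ j, π (X j) * z ∈ V) (j : Fin 2) :
    Good π lam f s V fun m => X (Fin.castAdd r j) * G m := fun α c => by
  obtain ⟨Q, h1, h2⟩ := h α c
  exact ⟨C (π (X j)) * Q, by simpa using hV _ h1 j, fun a b e => by
    rw [map_mul, eval_C, mul_assoc, h2 a b e, S_x]⟩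

theorem Good.y (h : Good π lam f s V G) (i : Fin r) :
    Good π lam f s V fun m => X (Fin.natAdd 2 i) * G m := fun α c => by
  choose Q h1 h2 using fun l => h (α + Pi.single l 1) c
  obtain ⟨Q', h1', h2'⟩ := h α (c - Pi.single i 1)
  refine ⟨∑ l, C (algebraMap k K (lam l i)) * ((X l - C (α l : K)) * Q l) + C (c i : K) * Q',
    ?_, fun a b e => ?_⟩
  · simp only [map_add, map_sum, map_mul, map_sub, eval_C, eval_X]
    refine add_mem (sum_mem fun l _ => alg_mem _ ?_) (by simpa using rat_mem (c i) h1')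
    rw [sub_mul]
    exact sub_mem (rat_mem _ (h1 l)) (by simpa using rat_mem (α l) (h1 l))
  · simp only [map_add, map_sum, map_mul, map_sub, eval_C, eval_X, S_y, add_mul, Finset.sum_mul,
      elim_l, elim_r, Sum.elim_inl, Sum.elim_inr, mul_assoc, h2' a b e]
    congr 1
    refine Finset.sum_congr rfl fun l _ => ?_
    rw [show (a l : K) - α l = b l by simp [e]]
    by_cases hb : b l = 0
    · simp [hb]
    · rw [h2 l a (b - Pi.single l 1) (by rw [e, add_assoc, add_comm (Pi.single l 1), sub_add hb])]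

theorem Good.dy (h : Good π lam f s V G) (i : Fin r) :
    Good π lam f s V fun m => pderiv (Fin.natAdd 2 i) (G m) := fun α c => by
  simpa only [S_dy, elim_r'] using h α (c + Pi.single i 1)

theorem Good.dx (h : Good π lam f s V G) (D : Derivation k K K) (j : Fin 2)
    (hD : ∀ j', D (π (X j')) = if j = j' then 1 else 0) (hu : ∀ l, π (mem lam f l) ≠ 0)
    (hV : ∀ z ∈ V, D z + (∑ l, (s l : K) * (D (π (mem lam f l)) / π (mem lam f l))) * z ∈ V) :
    Good π lam f s V fun m => pderiv (Fin.castAdd r j) (G m) := fun α c => by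
  obtain ⟨Q, h1, h2⟩ := h α c
  obtain ⟨Q', h3⟩ := ex_der D Q
  refine ⟨Q' + (∑ l, X l * C (D (π (mem lam f l)) / π (mem lam f l))) * Q, ?_, fun a b e => ?_⟩
  · simp only [map_add, map_sum, map_mul, eval_C, eval_X]
    rw [h3 _ fun l => by rw [← map_ratCast (algebraMap k K), D.map_algebraMap]]
    exact hV _ h1
  · simp only [map_add, map_sum, map_mul, eval_C, eval_X]
    rw [h3 _ fun l => D.map_natCast _, S_dx _ _ _ _ D j hD, ← h2 a b e, E, D.leibniz, D.leibniz,
      der_prod D _ hu, D.map_natCast]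
    simp only [smul_eq_mul]
    ring

theorem good_base (hu : ∀ l, π (mem lam f l) ≠ 0) (hV : ∀ (α : Λ → ℕ) (c : Fin r → ℕ),
    ∑ i, c i = ∑ l, α l + 1 → (∏ i, π (f i) ^ c i) / ∏ l, π (mem lam f l) ^ α l ∈ V) :
    Good π lam f s V fun m => gI f ^ (m + 1) := fun α c => by
  by_cases h : ∑ i, c i = ∑ l, α l + 1
  · refine ⟨(∑ l, X l + 1) * C ((∏ i, π (f i) ^ c i) / ∏ l, π (mem lam f l) ^ α l), ?_, ?_⟩
    · simpa [add_mul] using add_mem (sum_mem' (s := s) (hV α c h)) (hV α c h)
    · rintro _ b rfl
      have h1 : ∏ l, π (mem lam f l) ^ α l ≠ 0 :=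
        Finset.prod_ne_zero_iff.2 fun l _ => pow_ne_zero _ (hu l)
      rw [S_pow, if_pos (by simp [Finset.sum_add_distrib, h]; ring), E, Nat.factorial_succ]
      simp only [map_add, map_sum, map_mul, eval_C, eval_X, map_one, Pi.add_apply, pow_add,
        Finset.prod_mul_distrib, Sum.elim_inl, Sum.elim_inr]
      push_cast
      field_simp
  · refine ⟨0, by simp, ?_⟩
    rintro _ b rfl
    rw [S_pow, if_neg (by simp [Finset.sum_add_distrib]; omega)]
    simp

end PM

open PM in
theorem tw_ok {k : Type} [Field k] [CharZero k] : S_tw k := by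
  classical
  rintro r f B ⟨h, d, P, h0, hP, e⟩
  refine ⟨res h, by rwa [cc_res], fun Λ _ blk lam s K _ _ π D V _ hD hu h1 h2 h3 => ?_⟩
  have key : ∀ P ∈ weyl k (2 + r), ∀ G, Good π lam f s V G →
      Good π lam f s V fun m => P (G m) := fun P hP => by
    induction hP using Algebra.adjoin_induction with
    | mem P hP =>
      intro G hG
      rcases hP with ⟨j, rfl⟩ | ⟨j, rfl⟩ <;> induction j using Fin.addCases
      exacts [hG.x h2 _, hG.y _, hG.dx _ _ (hD _) hu fun z hz => h3 z hz _, hG.dy _]
    | algebraMap c => exact fun G hG => hG.smul c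
    | add P Q _ _ hP hQ => exact fun G hG => (hP G hG).add (hQ G hG)
    | mul P Q _ _ hP hQ => exact fun G hG => hP _ (hQ G hG)
  have hb : Good π lam f s V fun m => gI f ^ (m + 1) :=
    good_base hu fun α c hc => h1 α c fun _ => by simpa using hc
  have hp : ∀ (i : ℕ) G, Good π lam f s V G → Good π lam f s V fun m => (m : k) ^ i • G m :=
    fun i G hG => by
      induction i with
      | zero => simpa using hG
      | succ i ih => simpa only [pow_succ', mul_smul] using ih.nat
  have hs : ∀ t : Finset (Fin d),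
      Good π lam f s V fun m => ∑ i ∈ t, (m : k) ^ i.1 • P i (gI f ^ (m + 1)) := fun t => by
    induction t using Finset.induction_on with
    | empty => simpa using good_zero
    | insert i t hi ih =>
      simpa only [Finset.sum_insert hi] using (hp i _ (key _ (hP i) _ hb)).add ih
  obtain ⟨Q, h4, h5⟩ := hs Finset.univ 0 0
  have : CharZero K := charZero_of_injective_algebraMap (algebraMap k K).injective
  have h6 : Q = Polynomial.aeval (∑ l, X l : MvPolynomial Λ K) B * C (π (res h)) := by
    refine funext_set (fun _ => Set.range (Nat.cast : ℕ → K))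
      (fun _ => Set.infinite_range_of_injective Nat.cast_injective) fun x hx => ?_
    choose a ha using fun l => hx l trivial
    obtain rfl : (fun l => (a l : K)) = x := funext ha
    have h7 := h5 a a (zero_add a).symm
    beta_reduce at h7
    rw [e, smul_eq_C_mul, S_C, S_mul _ _ _ _ _ _ (by simp), S_pow, if_pos (by simp)] at h7
    refine mul_right_cancel₀ (b := E π lam f a) (mul_ne_zero (by
      exact_mod_cast Nat.factorial_ne_zero _)
      (Finset.prod_ne_zero_iff.2 fun l _ => pow_ne_zero _ (hu l))) ?_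
    rw [h7, map_mul, eval_C, eval_sum _ ((∑ l, a l : ℕ) : k) (by simp), E]
    simp [mul_assoc]
  rw [h6, map_mul, eval_C, eval_sum _ (bs blk s ()) (by simp [bs])] at h4
  rw [Algebra.smul_def]
  convert h4 using 3
  have h8 := eval_sum (K := k) (bs blk s) (bs blk s ()) (by simp) B
  rwa [Fintype.sum_unique] at h8

end

end Pool.Agent.P.MP_b91a16_ag.Id
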