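import Pool.Agent.P.MP_b91a16_ag.Id.Base

/-! Package N: the monomial series of an open cone. -/

set_option linter.unusedSectionVars false

namespace Pool.Agent.P.MP_b91a16_ag.Id

noncomputable section

namespace PN

section Gen

variable {α ρ : Type} {R : Type*} [DecidableEq ρ] [CommRing R] (φ : α → ρ →₀ ℕ) (w : α → R)

/-- The generating series of a set with finite fibres. -/
def G (S : Set α) : MvPowerSeries ρ R := fun e => ∑ᶠ x ∈ {x | x ∈ S ∧ φ x = e}, w x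

theorem coeff_G (S : Set α) (e : ρ →₀ ℕ) :
    MvPowerSeries.coeff e (G φ w S) = ∑ᶠ x ∈ {x | x ∈ S ∧ φ x = e}, w x := rfl

theorem step {S T : Set α} {t : α → α} {N : ρ →₀ ℕ} {c : R} (ht : Function.Injective t)
    (hφ : ∀ x, φ (t x) = φ x + N) (hw : ∀ x, w (t x) = w x * c)
    (hS : ∀ e, {x | x ∈ S ∧ φ x = e}.Finite) (h : ∀ z, z ∈ S ↔ z ∈ T ∨ ∃ x ∈ S, t x = z)
    (hd : ∀ x ∈ S, t x ∉ T) : G φ w S * (1 - MvPowerSeries.monomial N c) = G φ w T := by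
  ext e
  have e1 : {x | x ∈ S ∧ φ x = e} = {x | x ∈ T ∧ φ x = e} ∪ t '' {x | x ∈ S ∧ φ x + N = e} := by
    ext z
    simp only [Set.mem_ofPred_eq, Set.mem_union, Set.mem_image]
    constructor
    · rintro ⟨h1, h2⟩
      rcases (h z).1 h1 with h3 | ⟨x, h3, rfl⟩
      · exact Or.inl ⟨h3, h2⟩
      · exact Or.inr ⟨x, ⟨h3, (hφ x).symm.trans h2⟩, rfl⟩
    · rintro (⟨h1, h2⟩ | ⟨x, ⟨h1, h2⟩, rfl⟩)
      · exact ⟨(h z).2 (Or.inl h1), h2⟩
      · exact ⟨(h _).2 (Or.inr ⟨x, h1, rfl⟩), (hφ x).trans h2⟩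
  have f := hS e
  rw [e1, Set.finite_union] at f
  rw [mul_sub, mul_one, map_sub, MvPowerSeries.coeff_mul_monomial, coeff_G, coeff_G, coeff_G, e1,
    finsum_mem_union (Set.disjoint_left.2 (by
      rintro z h1 ⟨x, h2, rfl⟩
      exact hd x h2.1 h1.1)) f.1 f.2, finsum_mem_image ht.injOn, add_sub_assoc]
  refine add_eq_left.2 (sub_eq_zero.2 ?_)
  split_ifs with hN
  · rw [finsum_mem_mul' _ _ (hS _)]
    simp only [hw, eq_tsub_iff_add_eq_of_le hN]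
  · rw [show {x | x ∈ S ∧ φ x + N = e} = ∅ from Set.eq_empty_of_forall_notMem fun x hx =>
      hN (hx.2 ▸ le_add_self), finsum_mem_empty]

theorem G_fin {S : Set α} (hS : S.Finite) :
    G φ w S = ∑ x ∈ hS.toFinset, MvPowerSeries.monomial (φ x) (w x) := by
  classical
  ext e
  rw [coeff_G, map_sum, show {x | x ∈ S ∧ φ x = e} = ↑(hS.toFinset.filter fun x => e = φ x) by
    ext x
    simp [eq_comm], finsum_mem_coe_finset, Finset.sum_filter]
  simp only [MvPowerSeries.coeff_monomial]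

end Gen

section Lattice

variable {p q p' q' d : ℕ}

theorem coord (hd : p * q' = q * p' + d) {i j : ℕ} (h1 : q * i < p * j) (h2 : p' * j < q' * i) :
    ∃ x y, q' * i = p' * j + x ∧ p * j = q * i + y ∧ d * i = x * p + y * p' ∧
      d * j = x * q + y * q' := by
  obtain ⟨x, hx⟩ := Nat.exists_eq_add_of_le h2.le
  obtain ⟨y, hy⟩ := Nat.exists_eq_add_of_le h1.le
  refine ⟨x, y, hx, hy, ?_, ?_⟩
  · zify at hd hx hy ⊢
    linear_combination (-i) * hd + p * hx + p' * hy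
  · zify at hd hx hy ⊢
    linear_combination (-j) * hd + q * hx + q' * hy

variable (p q p' q') in
def Cn : Set (ℕ × ℕ) := {z | q * z.1 < p * z.2 ∧ p' * z.2 < q' * z.1}

theorem box_fin (hd : p * q' = q * p' + d) (h0 : 0 < d) (B : ℕ) :
    {z | (z ∈ Cn p q p' q' ∧ p * z.2 ≤ q * z.1 + B) ∧ q' * z.1 ≤ p' * z.2 + B}.Finite := by
  refine (Set.finite_Iic (B * p + B * p', B * q + B * q')).subset ?_
  rintro ⟨i, j⟩ ⟨⟨⟨h1, h2⟩, h3⟩, h4⟩
  dsimp only at h1 h2 h3 h4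
  obtain ⟨x, y, e1, e2, e3, e4⟩ := coord hd h1 h2
  have hx : x ≤ B := by omega
  have hy : y ≤ B := by omega
  exact ⟨(Nat.le_mul_of_pos_left i h0).trans (e3.le.trans (by dsimp only; gcongr)),
    (Nat.le_mul_of_pos_left j h0).trans (e4.le.trans (by dsimp only; gcongr))⟩

theorem fib_fin {ρ : Type} {a m : ρ → ℕ} (hd : p * q' = q * p' + d) (h0 : 0 < d)
    (hN : nv p q a m ≠ 0) (hN' : nv p' q' a m ≠ 0) (e : ρ → ℕ) :
    {z | z ∈ Cn p q p' q' ∧ nv z.1 z.2 a m = e}.Finite := by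
  obtain ⟨l, hl⟩ := Function.ne_iff.1 hN
  obtain ⟨l', hl'⟩ := Function.ne_iff.1 hN'
  refine (box_fin hd h0 (d * e l + d * e l')).subset ?_
  rintro ⟨i, j⟩ ⟨⟨h1, h2⟩, rfl⟩
  dsimp only at h1 h2
  obtain ⟨x, y, e1, e2, e3, e4⟩ := coord hd h1 h2
  have key : ∀ s, d * nv i j a m s = x * nv p q a m s + y * nv p' q' a m s := fun s => by
    simp only [nv]
    zify at e3 e4 ⊢
    linear_combination (a s) * e3 + (m s) * e4
  have hx := Nat.le_mul_of_pos_right x (Nat.pos_of_ne_zero hl)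
  have hy := Nat.le_mul_of_pos_right y (Nat.pos_of_ne_zero hl')
  have k1 := key l
  have k2 := key l'
  refine ⟨⟨⟨h1, h2⟩, ?_⟩, ?_⟩ <;> simp only <;> omega

theorem cut1 (hd : p * q' = q * p' + d) (h0 : 0 < d) (z : ℕ × ℕ) : z ∈ Cn p q p' q' ↔
    (z ∈ Cn p q p' q' ∧ p * z.2 ≤ q * z.1 + d) ∨ ∃ x ∈ Cn p q p' q', x + (p', q') = z := by
  obtain ⟨i, j⟩ := z
  constructor
  · rintro ⟨h1, h2⟩
    dsimp only at h1 h2
    by_cases h3 : p * j ≤ q * i + d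
    · exact Or.inl ⟨⟨h1, h2⟩, h3⟩
    obtain ⟨x, y, e1, e2, e3, e4⟩ := coord hd h1 h2
    have hy : d ≤ y := by omega
    obtain ⟨i', rfl⟩ := Nat.exists_eq_add_of_le' (Nat.le_of_mul_le_mul_left
      (show d * p' ≤ d * i from e3 ▸ (Nat.mul_le_mul_right _ hy).trans le_add_self) h0)
    obtain ⟨j', rfl⟩ := Nat.exists_eq_add_of_le' (Nat.le_of_mul_le_mul_left
      (show d * q' ≤ d * j from e4 ▸ (Nat.mul_le_mul_right _ hy).trans le_add_self) h0)
    refine Or.inr ⟨(i', j'), ⟨?_, ?_⟩, rfl⟩ <;> dsimp only <;> linarith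
  · rintro (h | ⟨⟨i', j'⟩, ⟨h1, h2⟩, h⟩)
    · exact h.1
    · obtain ⟨rfl, rfl⟩ := Prod.mk.inj h
      constructor <;> simp only at h1 h2 ⊢ <;> linarith

theorem cut2 (hd : p * q' = q * p' + d) (h0 : 0 < d) (z : ℕ × ℕ) :
    (z ∈ Cn p q p' q' ∧ p * z.2 ≤ q * z.1 + d) ↔
    ((z ∈ Cn p q p' q' ∧ p * z.2 ≤ q * z.1 + d) ∧ q' * z.1 ≤ p' * z.2 + d) ∨
      ∃ x, (x ∈ Cn p q p' q' ∧ p * x.2 ≤ q * x.1 + d) ∧ x + (p, q) = z := by
  obtain ⟨i, j⟩ := z
  constructor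
  · rintro ⟨⟨h1, h2⟩, h4⟩
    dsimp only at h1 h2 h4
    by_cases h3 : q' * i ≤ p' * j + d
    · exact Or.inl ⟨⟨⟨h1, h2⟩, h4⟩, h3⟩
    obtain ⟨x, y, e1, e2, e3, e4⟩ := coord hd h1 h2
    have hx : d ≤ x := by omega
    obtain ⟨i', rfl⟩ := Nat.exists_eq_add_of_le' (Nat.le_of_mul_le_mul_left
      (show d * p ≤ d * i from e3 ▸ (Nat.mul_le_mul_right _ hx).trans le_self_add) h0)
    obtain ⟨j', rfl⟩ := Nat.exists_eq_add_of_le' (Nat.le_of_mul_le_mul_left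
      (show d * q ≤ d * j from e4 ▸ (Nat.mul_le_mul_right _ hx).trans le_self_add) h0)
    refine Or.inr ⟨(i', j'), ⟨⟨?_, ?_⟩, ?_⟩, rfl⟩ <;> dsimp only <;> linarith
  · rintro (h | ⟨⟨i', j'⟩, ⟨⟨h1, h2⟩, h3⟩, h⟩)
    · exact h.1
    · obtain ⟨rfl, rfl⟩ := Prod.mk.inj h
      refine ⟨⟨?_, ?_⟩, ?_⟩ <;> simp only at h1 h2 h3 ⊢ <;> linarith

end Lattice

variable {k ρ : Type} [Field k] [Fintype ρ] [DecidableEq ρ]

def ph (a m : ρ → ℕ) (z : ℕ × ℕ) : ρ →₀ ℕ := Finsupp.equivFunOnFinite.symm (nv z.1 z.2 a m)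

variable (k) in
def wg (n : ℕ) (z : ℕ × ℕ) : Mot k := Linv k ^ (n * z.1) * ((1 - Linv k) ^ 2 * Linv k ^ (z.1 + z.2))

theorem ph_add (a m : ρ → ℕ) (z v : ℕ × ℕ) : ph a m (z + v) = ph a m z + ph a m v := by
  ext l
  simp only [ph, nv, Finsupp.equivFunOnFinite_symm_apply_apply, Finsupp.add_apply, Prod.fst_add,
    Prod.snd_add]
  ring

theorem wg_add (n : ℕ) (z : ℕ × ℕ) (p q : ℕ) :
    wg k n (z + (p, q)) = wg k n z * Linv k ^ (p * (n + 1) + q) := by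
  simp only [wg, Prod.fst_add, Prod.snd_add]
  ring

theorem ph_eq {a m : ρ → ℕ} {z : ℕ × ℕ} {e : ρ →₀ ℕ} : ph a m z = e ↔ nv z.1 z.2 a m = e :=
  Equiv.symm_apply_eq _

theorem arc_iff {p q p' q' : ℕ} {a m : ρ → ℕ} (hN : nv p q a m ≠ 0) (hN' : nv p' q' a m ≠ 0)
    (e : ρ →₀ ℕ) (s t : ℕ∞) :
    (∃ z : ℕ × ℕ, (z ∈ Cn p q p' q' ∧ ph a m z = e) ∧ s = z.1 ∧ t = z.2) ↔
      ((q : ℕ∞) * s < p * t ∧ (p' : ℕ∞) * t < q' * s) ∧
        ∀ l, (a l : ℕ∞) * s + (m l : ℕ∞) * t = e l := by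
  constructor
  · rintro ⟨⟨i, j⟩, ⟨⟨h1, h2⟩, h3⟩, rfl, rfl⟩
    refine ⟨⟨by exact_mod_cast h1, by exact_mod_cast h2⟩, fun l => ?_⟩
    rw [← congrFun (ph_eq.1 h3) l]
    simp [nv, mul_comm]
  · rintro ⟨⟨h1, h2⟩, h3⟩
    obtain ⟨l, hl⟩ := Function.ne_iff.1 hN
    obtain ⟨l', hl'⟩ := Function.ne_iff.1 hN'
    have hs : s ≠ ⊤ := by
      rintro rfl
      have hq : q = 0 := by
        by_contra hq
        rw [ENat.mul_top (by exact_mod_cast hq)] at h1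
        exact not_top_lt h1
      have ha : a l ≠ 0 := fun ha => hl (by simp [nv, hq, ha])
      have := h3 l
      rw [ENat.mul_top (by exact_mod_cast ha), top_add] at this
      exact ENat.top_ne_natCast _ this
    have ht : t ≠ ⊤ := by
      rintro rfl
      have hp : p' = 0 := by
        by_contra hp
        rw [ENat.mul_top (by exact_mod_cast hp)] at h2
        exact not_top_lt h2
      have hm : m l' ≠ 0 := fun hm => hl' (by simp [nv, hp, hm])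
      have := h3 l'
      rw [ENat.mul_top (by exact_mod_cast hm), add_top] at this
      exact ENat.top_ne_natCast _ this
    lift s to ℕ using hs
    lift t to ℕ using ht
    refine ⟨(s, t), ⟨⟨by exact_mod_cast h1, by exact_mod_cast h2⟩, ph_eq.2 (funext fun l => ?_)⟩,
      rfl, rfl⟩
    have : a l * s + m l * t = e l := by exact_mod_cast h3 l
    simp only [nv]
    linarith

end PN

open PN in
theorem cone_ok {k ρ : Type} [Field k] [Fintype ρ] [DecidableEq ρ] : S_cone k ρ := by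
  intro A n p q p' q' a m hD hN hN' hA hA'
  obtain ⟨d, hd⟩ := Nat.exists_eq_add_of_le hD.le
  have h0 : 0 < d := by omega
  have hf : ∀ e, {z | z ∈ Cn p q p' q' ∧ ph a m z = e}.Finite := fun e => by
    simpa only [ph_eq] using fib_fin hd h0 hN hN' e
  obtain ⟨H, hH, eH⟩ := mem_PR_inv (k := k) hN hA
  obtain ⟨H', hH', eH'⟩ := mem_PR_inv (k := k) hN' hA'
  rw [mono_eq] at eH eH'
  have s1 := step (ph a m) (wg k n) (T := {z | z ∈ Cn p q p' q' ∧ p * z.2 ≤ q * z.1 + d})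
    (add_left_injective (p', q')) (fun x => ph_add a m x _) (fun x => wg_add n x p' q') hf
    (cut1 hd h0) (by
      rintro ⟨i, j⟩ ⟨h1, -⟩ ⟨-, h2⟩
      simp only [Prod.fst_add, Prod.snd_add] at h1 h2
      linarith)
  have s2 := step (ph a m) (wg k n) (S := {z | z ∈ Cn p q p' q' ∧ p * z.2 ≤ q * z.1 + d})
    (T := {z | (z ∈ Cn p q p' q' ∧ p * z.2 ≤ q * z.1 + d) ∧ q' * z.1 ≤ p' * z.2 + d})
    (add_left_injective (p, q)) (fun x => ph_add a m x _) (fun x => wg_add n x p q)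
    (fun e => (hf e).subset fun z hz => ⟨hz.1.1, hz.2⟩) (cut2 hd h0) (by
      rintro ⟨i, j⟩ ⟨⟨-, h1⟩, -⟩ ⟨-, h2⟩
      simp only [Prod.fst_add, Prod.snd_add] at h1 h2
      linarith)
  rw [G_fin _ _ (box_fin hd h0 d), ← s1] at s2
  refine ⟨G (ph a m) (wg k n) (Cn p q p' q'), ?_, fun e => ?_⟩
  · have e1 : G (ph a m) (wg k n) (Cn p q p' q') = (∑ x ∈ (box_fin hd h0 d).toFinset,
        MvPowerSeries.monomial (ph a m x) (wg k n x)) * H * H' := by
      rw [← s2]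
      simp only [ph] at eH eH' ⊢
      linear_combination (-(G _ (wg k n) (Cn p q p' q'))) * eH' -
        G _ (wg k n) (Cn p q p' q') * (H' * (1 - MvPowerSeries.monomial
          (Finsupp.equivFunOnFinite.symm (nv p' q' a m)) (Linv k ^ (p' * (n + 1) + q')))) * eH
    rw [e1]
    refine mul_mem (mul_mem (sum_mem fun x _ => ?_) hH) hH'
    rw [ph, ← mono_eq]
    exact mono_mem _ _
  · rw [coeff_G, finsum_mem_eq_finite_toFinset_sum _ (hf e)]
    refine (wv_of_fin (hf e).toFinset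
      (fun z _ _ _ γ => (γ 0).order = z.1 ∧ (γ 1).order = z.2) (fun z => z.1) _
      (fun z _ => av_ord z.1 z.2) (fun _ _ _ _ _ _ h => h.1) fun K _ _ γ x _ y _ h h' =>
        Prod.ext (by exact_mod_cast h.1.symm.trans h'.1)
          (by exact_mod_cast h.2.symm.trans h'.2)).congr fun K _ _ γ => ?_
    simp only [Set.Finite.mem_toFinset, Set.mem_ofPred_eq]
    exact arc_iff hN hN' e _ _

end

end Pool.Agent.P.MP_b91a16_ag.Id
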