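import Pool.Agent.P.MP_b91a16_ag.Id.Base

/-! Ideals in two variables: the series of a strip and of the generic part of a ray. -/

set_option linter.unusedSectionVars false

open MvPolynomial

namespace Pool.Agent.P.MP_b91a16_ag.Id

noncomputable section

variable {k ρ : Type} [Field k] [Fintype ρ] [DecidableEq ρ]

namespace PO

theorem ser_mem {A : Set (ℕ × (ρ → ℕ))} {α : ρ →₀ ℕ} (hα : α ≠ 0) {p ν : ℕ} (hp : 0 < p)
    (hA : (ν, fun j => p * α j) ∈ A) (c : ℕ → Mot k)
    (hc : ∀ i, 0 < i → c (i + p) = Linv k ^ ν * c i) :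
    ∃ Z ∈ PR k A, (∀ i, MvPowerSeries.coeff (i • α) Z = c i) ∧
      ∀ e, (∀ i : ℕ, i • α ≠ e) → MvPowerSeries.coeff e Z = 0 := by
  obtain ⟨j, hj⟩ : ∃ j, 0 < α j := by
    by_contra h
    exact hα (Finsupp.ext fun j => by simpa using not_exists.1 h j)
  have hi : Function.Injective fun i : ℕ => i • α := fun i i' h =>
    Nat.eq_of_mul_eq_mul_right hj (by simpa using DFunLike.congr_fun h j)
  obtain ⟨Z, h1, h2⟩ : ∃ Z : MvPowerSeries ρ (Mot k), (∀ i, MvPowerSeries.coeff (i • α) Z = c i) ∧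
      ∀ e, (∀ i : ℕ, i • α ≠ e) → MvPowerSeries.coeff e Z = 0 :=
    ⟨Function.extend (fun i : ℕ => i • α) c 0, hi.extend_apply c 0, fun e he =>
      Function.extend_apply' _ _ _ (not_exists.2 he)⟩
  have h3 : ∀ (x : Mot k) (i : ℕ), MvPowerSeries.C x * ∏ j, MvPowerSeries.X j ^ (i * α j) =
      MvPowerSeries.monomial (i • α) x := fun x i => by
    rw [mono_eq]
    congr 2
    ext j
    simp
  obtain ⟨G, h4, h5⟩ := mem_PR_inv (k := k) (fun h => by
    simpa [hp.ne', hj.ne'] using congrFun h j) hA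
  let d : ℕ → Mot k := fun i => c i - if p ≤ i then c (i - p) * Linv k ^ ν else 0
  have h6 : Z * (1 - MvPowerSeries.monomial (p • α) (Linv k ^ ν)) =
      ∑ i ∈ Finset.range (p + 1), MvPowerSeries.monomial (i • α) (d i) := by
    ext e
    rw [mul_sub, mul_one, map_sub, MvPowerSeries.coeff_mul_monomial, map_sum]
    simp only [MvPowerSeries.coeff_monomial]
    by_cases he : ∃ i : ℕ, i • α = e
    · obtain ⟨i, rfl⟩ := he
      have h7 : p • α ≤ i • α ↔ p ≤ i := ⟨fun h => Nat.le_of_mul_le_mul_right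
        (by simpa using h j) hj, fun h => nsmul_le_nsmul_left (zero_le (a := α)) h⟩
      have h8 : i • α - p • α = (i - p) • α := by
        ext j
        simp [Nat.sub_mul]
      have h9 : ∀ i' : ℕ, i • α = i' • α ↔ i = i' := fun i' => hi.eq_iff
      simp only [h7, h8, h9, h1, Finset.sum_ite_eq, Finset.mem_range]
      by_cases h : i < p + 1
      · rw [if_pos h]
      · obtain ⟨i, rfl⟩ : ∃ l, i = l + p := ⟨i - p, by omega⟩
        rw [if_neg h, if_pos (by omega), hc i (by omega), Nat.add_sub_cancel, mul_comm, sub_self]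
    · rw [h2 e (not_exists.1 he), Finset.sum_eq_zero fun i _ => if_neg fun h => he ⟨i, h.symm⟩]
      split_ifs with h
      · rw [h2 _ fun i h' => he ⟨i + p, by rw [add_smul, h', tsub_add_cancel_of_le h]⟩]
        simp
      · simp
  refine ⟨Z, ?_, h1, h2⟩
  rw [h3] at h5
  rw [← mul_one Z, ← h5, mul_comm G, ← mul_assoc, h6]
  exact mul_mem (sum_mem fun i _ => h3 (d i) i ▸ mono_mem _ _) h4

theorem inR_of {A : Set (ℕ × (ρ → ℕ))} {a : ρ → ℕ} (ha : a ≠ 0) {p ν n : ℕ} (hp : 0 < p)
    (hA : (ν, fun j => p * a j) ∈ A) (Ψ : AP k (Fin 2)) (w : ℕ → Mot k)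
    (hw : ∀ i : ℕ, AV (k := k) (fun K _ _ γ => Ψ K γ ∧ (γ 0).order = i) (w i))
    (hc : ∀ i, 0 < i → Linv k ^ (n * (i + p)) * w (i + p) =
      Linv k ^ ν * (Linv k ^ (n * i) * w i)) :
    InR A (fun e => An Ψ (Mon k a 0 e)) n := by
  obtain ⟨α, rfl⟩ : ∃ α : ρ →₀ ℕ, ⇑α = a := ⟨Finsupp.equivFunOnFinite.symm a, rfl⟩
  obtain ⟨j, hj⟩ := Function.ne_iff.1 ha
  obtain ⟨Z, h0, h1, h2⟩ := ser_mem (fun h => ha (by simp [h])) hp hA
    (fun i => Linv k ^ (n * i) * w i) hc
  have key : ∀ (e : ρ →₀ ℕ) (K : Type) [Field K] [Algebra k K] (γ : Fin 2 → PowerSeries K),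
      Mon k α 0 e K γ ↔ ∃ i : ℕ, (γ 0).order = i ∧ i • α = e := fun e K _ _ γ => by
    simp only [Mon, Pi.zero_apply, Nat.cast_zero, zero_mul, add_zero]
    constructor
    · intro h
      have h3 : (γ 0).order ≠ ⊤ := fun h3 => by
        have := h j
        rw [h3, ENat.mul_top (by exact_mod_cast hj)] at this
        simp at this
      obtain ⟨i, hi⟩ := ENat.ne_top_iff_exists.1 h3
      refine ⟨i, hi.symm, Finsupp.ext fun j => ?_⟩
      have := h j
      rw [← hi] at this
      rw [Finsupp.smul_apply, smul_eq_mul, mul_comm]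
      exact_mod_cast this
    · rintro ⟨i, hi, rfl⟩ j
      simp [hi, mul_comm]
  refine ⟨Z, h0, fun e => ?_⟩
  by_cases he : ∃ i : ℕ, i • α = e
  · obtain ⟨i, rfl⟩ := he
    rw [h1]
    refine (wv_single (hw i) fun K _ _ γ h => h.2).congr fun K _ _ γ => and_congr_right' ?_
    rw [key]
    refine ⟨fun h => ⟨i, h, rfl⟩, fun ⟨i', h, e⟩ => ?_⟩
    rwa [← Nat.eq_of_mul_eq_mul_right (Nat.pos_of_ne_zero hj)
      (show i' * α j = i * α j by simpa using DFunLike.congr_fun e j)]
  · rw [h2 e (not_exists.1 he)]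
    exact wv_false fun K _ _ γ h => he (((key e K γ).1 h.2).imp fun _ h => h.2)

theorem vol_gen (C : Finset k) : ∃ v, HasVol (k := k) (ι := Fin 2 × ℕ)
    (fun K _ _ x => ∀ c ∈ C, x (1, 0) ≠ algebraMap k K c) v := by
  classical
  induction C using Finset.induction_on with
  | empty => exact ⟨1, hasVol_true.congr (by simp)⟩
  | insert c C _ ih =>
    obtain ⟨v, h⟩ := ih
    obtain ⟨-, v₂, -, h₂, -⟩ := h.split (X (1, 0) - MvPolynomial.C c)
    exact ⟨v₂, h₂.congr fun K _ _ x => by simp [sub_eq_zero, and_comm]⟩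

end PO

open PO

theorem strip : S_strip k ρ := by
  intro A n p q a hp ha hA
  refine inR_of (ν := p * (n + 1) + q) ha hp hA _
    (fun i => if i = 0 then 0 else (1 - Linv k) * Linv k ^ (i + (q * i / p + 1))) (fun i => ?_)
    fun i hi => ?_
  · split_ifs with hi
    · exact av_false fun K _ _ γ h => by simpa [h.2, hi] using h.1.2
    · refine (av_ord_le i _).congr fun K _ _ γ => ?_
      rw [and_comm]
      refine and_congr_left fun h => ?_
      simp only [Cone, h, Nat.cast_zero, zero_mul, Nat.cast_one, one_mul, Nat.cast_pos,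
        Nat.pos_of_ne_zero hi, and_true]
      induction (γ 1).order using ENat.recTopCoe with
      | top =>
        rw [ENat.mul_top (by exact_mod_cast hp.ne'), ← Nat.cast_mul]
        exact iff_of_true le_top (ENat.natCast_lt_top _)
      | coe j =>
        norm_cast
        rw [Nat.succ_le_iff, Nat.div_lt_iff_lt_mul hp, mul_comm j]
  · rw [if_neg (by omega), if_neg hi.ne', mul_add q, mul_comm q p, Nat.add_mul_div_left _ _ hp]
    ring

theorem genray : S_genray k ρ := by
  intro A n N C hN hA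
  obtain ⟨v, hv⟩ := vol_gen C
  refine inR_of (ν := n + 1) hN one_pos (by simpa using hA) _
    (fun i => if i = 0 then 0 else (1 - Linv k) * (Linv k ^ i * v)) (fun i => ?_) fun i hi => ?_
  · split_ifs with hi
    · exact av_false fun K _ _ γ h => by simpa [h.2, hi] using h.1.1
    · have h := (hv.and_forall_zero (lowSet ![i, 0]) fun p hp K _ _ x c hx => by
        rwa [Function.update_of_ne (by rintro rfl; simp [mem_lowSet] at hp)]).and_ne (0, i)
        fun K _ _ x c hx => ⟨by rw [Function.update_of_ne (by simp)]; exact hx.1, fun p hp => by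
          rw [Function.update_of_ne (by rintro rfl; simp [mem_lowSet] at hp), hx.2 p hp]⟩
      rw [card_lowSet, Fin.sum_univ_two] at h
      refine h.congr fun K _ _ x => ?_
      beta_reduce
      rw [and_assoc (a := 0 < _), and_iff_right_of_imp (a := 0 < _) fun h => by
        simpa [h.2] using Nat.pos_of_ne_zero hi, PowerSeries.order_eq_nat]
      simp only [ser, PowerSeries.coeff_mk, PowerSeries.constantCoeff_mk, mem_lowSet, Prod.forall,
        Fin.forall_fin_two, Matrix.cons_val_zero, Matrix.cons_val_one, Nat.not_lt_zero]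
      tauto
  · rw [if_neg (by omega), if_neg hi.ne']
    ring

theorem strip_ok : S_strip k ρ := strip

theorem genray_ok : S_genray k ρ := genray

end

end Pool.Agent.P.MP_b91a16_ag.Id
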