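import Pool.Agent.P.MP_b91a16_ag.Id.Base

/-! Ideals in two variables: the toric chart of a ray. -/

set_option linter.unusedSectionVars false

open MvPolynomial

namespace Pool.Agent.P.MP_b91a16_ag.Id

noncomputable section

namespace PP

variable {k : Type} [Field k]

theorem vol_restrict {ι ι' : Type} {P : Pred k ι} {v : Mot k} (h : HasVol P v) (e : ι' ↪ ι)
    (h0 : ∀ (K : Type) [Field K] [Algebra k K] x, P K x → ∀ i, (¬∃ j, e j = i) → x i = 0) :
    ∃ v', HasVol (k := k) (fun K _ _ (y : ι' → K) => P K (Function.extend e y 0)) v' := by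
  classical
  obtain ⟨F, c, hd, hc, -⟩ := h
  refine ⟨_, F.preimage e e.injective.injOn, c, fun K _ _ y y' hy => hd K _ _ fun i hi => ?_,
    hc.map (fun j => X (e j)) fun K _ _ => ?_, rfl⟩
  · by_cases hj : ∃ j, e j = i
    · obtain ⟨j, rfl⟩ := hj
      rw [e.injective.extend_apply, e.injective.extend_apply]
      exact hy j (Finset.mem_preimage.2 hi)
    · rw [Function.extend_apply' _ _ _ hj, Function.extend_apply' _ _ _ hj]
  · have key : ∀ x : ι → K, P K x → Function.extend e (fun j => x (e j)) 0 = x := fun x hx => by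
      funext i
      by_cases hj : ∃ j, e j = i
      · obtain ⟨j, rfl⟩ := hj
        rw [e.injective.extend_apply]
      · rw [Function.extend_apply' _ _ _ hj, h0 K x hx i hj]
        rfl
    simp only [aeval_X]
    refine ⟨fun x hx => ⟨?_, fun j hj => hx.2 _ fun h => hj (Finset.mem_preimage.2 h)⟩,
      fun x hx x' hx' e' => ?_, fun y hy => ⟨Function.extend e y 0, ⟨hy.1, fun i hi => ?_⟩, ?_⟩⟩
    · beta_reduce
      rw [key x hx.1]
      exact hx.1
    · beta_reduce at e'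
      rw [← key x hx.1, e', key x' hx'.1]
    · by_cases hj : ∃ j, e j = i
      · obtain ⟨j, rfl⟩ := hj
        rw [e.injective.extend_apply]
        exact hy.2 j fun h => hi (Finset.mem_preimage.1 h)
      · rw [Function.extend_apply' _ _ _ hj]
        rfl
    · funext j
      exact e.injective.extend_apply _ _ _

theorem ser_shift {K : Type} [Field K] (c : Fin 2 → ℕ) (x : Fin 2 × ℕ → K)
    (hx : ∀ p ∈ lowSet c, x p = 0) :
    (fun j => PowerSeries.X ^ c j * ser (x ∘ shiftEmb c) j) = ser x := by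
  funext j
  ext l
  rw [PowerSeries.coeff_X_pow_mul']
  split_ifs with h
  · simp [ser, Nat.sub_add_cancel h]
  · simp only [ser, PowerSeries.coeff_mk]
    exact (hx _ ((mem_lowSet c _).2 (by simpa using h))).symm

theorem low_of_dvd {K : Type} [Field K] {c : Fin 2 → ℕ} {x : Fin 2 × ℕ → K}
    (h : ∀ j, PowerSeries.X ^ c j ∣ ser x j) : ∀ p ∈ lowSet c, x p = 0 := fun p hp => by
  simpa [ser] using PowerSeries.X_pow_dvd_iff.1 (h p.1) p.2 ((mem_lowSet c p).1 hp)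

/-- Arcs whose multiple by `t^c` lies in `Φ`. -/
def sc (c : Fin 2 → ℕ) (Φ : AP k (Fin 2)) : AP k (Fin 2) :=
  fun K _ _ γ => Φ K fun j => PowerSeries.X ^ c j * γ j

theorem up {c : Fin 2 → ℕ} {Φ : AP k (Fin 2)} {v : Mot k} (h : AV (sc c Φ) v)
    (hd : ∀ (K : Type) [Field K] [Algebra k K] γ, Φ K γ → ∀ j, PowerSeries.X ^ c j ∣ γ j) :
    AV Φ (Linv k ^ (c 0 + c 1) * v) := by
  have h1 := (HasVol.comap h (shiftEmb c)).and_forall_zero (lowSet c) (by
    intro p hp K _ _ x d hx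
    have : Function.update x p d ∘ shiftEmb c = x ∘ shiftEmb c := by
      funext q
      refine Function.update_of_ne ?_ _ _
      rintro rfl
      rw [mem_lowSet] at hp
      simp at hp
    rwa [this])
  rw [card_lowSet, Fin.sum_univ_two] at h1
  refine h1.congr fun K _ _ x => ⟨fun hx => ?_, fun hx => ?_⟩
  · have := hx.1
    unfold sc at this
    rwa [ser_shift c x hx.2] at this
  · have h2 := low_of_dvd (hd K _ hx)
    refine ⟨?_, h2⟩
    unfold sc
    rwa [ser_shift c x h2]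

theorem down {c : Fin 2 → ℕ} {Φ : AP k (Fin 2)} {v : Mot k} (h : AV Φ v)
    (hd : ∀ (K : Type) [Field K] [Algebra k K] γ, Φ K γ → ∀ j, PowerSeries.X ^ c j ∣ γ j) :
    ∃ v', AV (sc c Φ) v' ∧ v = Linv k ^ (c 0 + c 1) * v' := by
  have hlow : ∀ p : Fin 2 × ℕ, (¬∃ j, shiftEmb c j = p) ↔ p ∈ lowSet c := fun p => by
    rw [mem_lowSet]
    refine ⟨fun h => ?_, ?_⟩
    · by_contra hn
      exact h ⟨(p.1, p.2 - c p.1), Prod.ext rfl (by simp only [shiftEmb_apply]; omega)⟩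
    · rintro h ⟨j, rfl⟩
      simp at h
  obtain ⟨v', hv⟩ := vol_restrict h (shiftEmb c) fun K _ _ x hx p hp =>
    low_of_dvd (hd K _ hx) p ((hlow p).1 hp)
  have h1 : AV (sc c Φ) v' := hv.congr fun K _ _ y => by
    rw [← ser_shift c (Function.extend (shiftEmb c) y 0) fun p hp =>
      Function.extend_apply' _ _ _ ((hlow p).2 hp), Function.extend_comp (shiftEmb c).injective]
    rfl
  exact ⟨v', h1, h.unique (up h1 hd)⟩

theorem ord_zero {K : Type} [Field K] {s : PowerSeries K} : s.order = 0 ↔ IsUnit s := by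
  rw [PowerSeries.isUnit_iff_constantCoeff, isUnit_iff_ne_zero, ← not_iff_not, not_not]
  exact PowerSeries.order_ne_zero_iff_constCoeff_eq_zero

theorem ord_mul {K : Type} [Field K] {s : PowerSeries K} (c : ℕ) :
    (PowerSeries.X ^ c * s).order = (c : ℕ∞) ↔ IsUnit s := by
  rw [PowerSeries.order_mul, PowerSeries.order_X_pow, ← ord_zero]
  refine ⟨fun h => ?_, fun h => by rw [h, add_zero]⟩
  exact ENat.add_right_injective_of_ne_top (ENat.natCast_ne_top c) (by simpa using h)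

theorem unit_congr {K : Type} [Field K] {s s' : PowerSeries K} {M : ℕ}
    (h : PowerSeries.X ^ (M + 1) ∣ s' - s) (hs : IsUnit s) : IsUnit s' := by
  have := PowerSeries.X_pow_dvd_iff.1 h 0 (by omega)
  rw [map_sub, sub_eq_zero, PowerSeries.coeff_zero_eq_constantCoeff_apply,
    PowerSeries.coeff_zero_eq_constantCoeff_apply] at this
  rwa [PowerSeries.isUnit_iff_constantCoeff, this, ← PowerSeries.isUnit_iff_constantCoeff]

variable {p q u w : ℕ}

theorem tor_inj {R : Type} [CommRing R] (h : p * w = q * u + 1) {a b a' b' : R} (ha : IsUnit a)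
    (hb : IsUnit b) (h1 : a' ^ p * b' ^ u = a ^ p * b ^ u) (h2 : a' ^ q * b' ^ w = a ^ q * b ^ w) :
    a' = a ∧ b' = b := by
  have e1 : ∀ a b : R, (a ^ p * b ^ u) ^ w = a * (a ^ q * b ^ w) ^ u := fun a b => by
    rw [mul_pow, ← pow_mul, h]
    ring
  have e2 : ∀ a b : R, (a ^ q * b ^ w) ^ p = b * (a ^ p * b ^ u) ^ q := fun a b => by
    rw [mul_pow, ← pow_mul b, mul_comm w, h]
    ring
  constructor
  · refine (((ha.pow q).mul (hb.pow w)).pow u).mul_right_cancel ?_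
    rw [← e1, ← h1, ← h2, e1]
  · refine (((ha.pow p).mul (hb.pow u)).pow q).mul_right_cancel ?_
    rw [← e2, ← h1, ← h2, e2]

theorem tor_surj {R : Type} [CommRing R] (h : p * w = q * u + 1) {A B : R} (hA : IsUnit A)
    (hB : IsUnit B) : ∃ a b : R, IsUnit a ∧ IsUnit b ∧ a ^ p * b ^ u = A ∧ a ^ q * b ^ w = B := by
  obtain ⟨A', eA⟩ := hA.exists_right_inv
  obtain ⟨B', eB⟩ := hB.exists_right_inv
  refine ⟨A ^ w * B' ^ u, B ^ p * A' ^ q,
    (hA.pow w).mul ((IsUnit.of_mul_eq_one_right _ eB).pow u),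
    (hB.pow p).mul ((IsUnit.of_mul_eq_one_right _ eA).pow q), ?_, ?_⟩
  · calc _ = A ^ (p * w) * A' ^ (q * u) * (B * B') ^ (p * u) := by ring
      _ = A * (A * A') ^ (q * u) * (B * B') ^ (p * u) := by rw [h]; ring
      _ = A := by simp [eA, eB]
  · calc _ = B ^ (p * w) * B' ^ (q * u) * (A * A') ^ (q * w) := by ring
      _ = B * (B * B') ^ (q * u) * (A * A') ^ (q * w) := by rw [h]; ring
      _ = B := by simp [eA, eB]

theorem tor0 {S : Type} [CommRing S] [Algebra k S] (γ : Fin 2 → S) :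
    aeval γ (tor k p q u w 0) = γ 0 ^ p * γ 1 ^ u := by simp [tor]

theorem tor1 {S : Type} [CommRing S] [Algebra k S] (γ : Fin 2 → S) :
    aeval γ (tor k p q u w 1) = γ 0 ^ q * γ 1 ^ w := by simp [tor]

/-- Pairs of units. -/
def Un (k : Type) [Field k] : AP k (Fin 2) := fun _ _ _ γ => IsUnit (γ 0) ∧ IsUnit (γ 1)

theorem pre (h : p * w = q * u + 1) (Θ : AP k (Fin 2)) (K : Type) [Field K] [Algebra k K]
    (γ' : Fin 2 → PowerSeries K) (hγ : An (Un k) Θ K γ') :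
    ∃ γ, An (Un k) (Pb (tor k p q u w) Θ) K γ ∧ ∀ j, aeval γ (tor k p q u w j) = γ' j := by
  obtain ⟨a, b, ha, hb, e1, e2⟩ := tor_surj h hγ.1.1 hγ.1.2
  have e : ∀ j, aeval ![a, b] (tor k p q u w j) = γ' j :=
    Fin.forall_fin_two.2 ⟨(tor0 _).trans e1, (tor1 _).trans e2⟩
  refine ⟨![a, b], ⟨⟨ha, hb⟩, ?_⟩, e⟩
  unfold Pb
  rw [_root_.funext e]
  exact hγ.2

theorem units (h : p * w = q * u + 1) {Θ : AP k (Fin 2)} {M : ℕ} (hΘ : Lev Θ M) {v : Mot k}
    (hv : AV (An (Un k) (Pb (tor k p q u w) Θ)) v) : AV (An (Un k) Θ) v := by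
  have hm : ∀ (K : Type) [Field K] {z : PowerSeries K}, PowerSeries.X ^ (M + 1) ∣ z →
      PowerSeries.X ^ M ∣ z := fun K _ z => (pow_dvd_pow _ M.le_succ).trans
  refine hv.cv (m := M + 1) (fun K _ _ γ γ' e hγ => ⟨⟨unit_congr (e 0) hγ.1.1,
    unit_congr (e 1) hγ.1.2⟩, hΘ K _ _ (fun j => hm K (aeval_congr_dvd e _)) hγ.2⟩)
    (fun K _ _ γ γ' e hγ => ⟨⟨unit_congr (e 0) hγ.1.1, unit_congr (e 1) hγ.1.2⟩,
      hΘ K _ _ (fun j => hm K (e j)) hγ.2⟩) (tor k p q u w) (fun K _ _ γ hγ => ⟨⟨?_, ?_⟩, hγ.2⟩)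
    (fun K _ _ γ γ' N hγ e => ?_) (pre h Θ)
  · beta_reduce
    rw [tor0]
    exact (hγ.1.1.pow p).mul (hγ.1.2.pow u)
  · beta_reduce
    rw [tor1]
    exact (hγ.1.1.pow q).mul (hγ.1.2.pow w)
  · let π := Ideal.Quotient.mk (Ideal.span {(PowerSeries.X : PowerSeries K) ^ N})
    have hπ : ∀ a b, π a = π b ↔ PowerSeries.X ^ N ∣ a - b := fun a b =>
      Ideal.Quotient.eq.trans Ideal.mem_span_singleton
    have e0 := (hπ _ _).2 (e 0)
    have e1 := (hπ _ _).2 (e 1)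
    simp only [tor0, tor1, map_mul, map_pow] at e0 e1
    obtain ⟨f0, f1⟩ := tor_inj h (hγ.1.1.map π) (hγ.1.2.map π) e0 e1
    exact Fin.forall_fin_two.2 ⟨(hπ _ _).1 f0, (hπ _ _).1 f1⟩

variable (p q u w)

/-- The piece of order `i` in the chart. -/
def F1 (Ψ : AP k (Fin 2)) (i : ℕ) : AP k (Fin 2) := fun K _ _ γ =>
  An (k := k) (fun _ _ _ γ => 0 < (γ 0).order ∧ (γ 1).order = 0) (Pb (tor k p q u w) Ψ) K γ ∧
    (γ 0).order = (i : ℕ)

/-- The piece of order `i` on the ray. -/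
def F2 (Ψ : AP k (Fin 2)) (i : ℕ) : AP k (Fin 2) := fun K _ _ γ =>
  (0 < i ∧ (γ 0).order = (p * i : ℕ) ∧ (γ 1).order = (q * i : ℕ)) ∧ Ψ K γ

variable {p q u w} {Ψ : AP k (Fin 2)} {i : ℕ}

theorem sc_F1 (hi : 0 < i) (K : Type) [Field K] [Algebra k K] (γ : Fin 2 → PowerSeries K) :
    sc ![i, 0] (F1 p q u w Ψ i) K γ ↔
      An (Un k) (Pb (tor k p q u w) (sc ![p * i, q * i] Ψ)) K γ := by
  have e : (fun j => aeval (fun j => PowerSeries.X ^ (![i, 0] : Fin 2 → ℕ) j * γ j)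
      (tor k p q u w j)) = fun j => PowerSeries.X ^ (![p * i, q * i] : Fin 2 → ℕ) j *
        aeval γ (tor k p q u w j) := by
    refine _root_.funext (Fin.forall_fin_two.2 ⟨?_, ?_⟩)
    · simp only [tor0, Matrix.cons_val_zero, Matrix.cons_val_one]
      ring
    · simp only [tor1, Matrix.cons_val_zero, Matrix.cons_val_one]
      ring
  simp only [sc, F1, An, Pb, Un, e, Matrix.cons_val_zero, Matrix.cons_val_one, pow_zero, one_mul,
    ord_zero]
  refine ⟨fun h => ⟨⟨(ord_mul i).1 h.2, h.1.1.2⟩, h.1.2⟩, fun h => ?_⟩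
  have := (ord_mul i).2 h.1.1
  exact ⟨⟨⟨by rw [this]; exact_mod_cast hi, h.1.2⟩, h.2⟩, this⟩

theorem sc_F2 (hi : 0 < i) (K : Type) [Field K] [Algebra k K] (γ : Fin 2 → PowerSeries K) :
    An (Un k) (sc ![p * i, q * i] Ψ) K γ ↔ sc ![p * i, q * i] (F2 p q Ψ i) K γ := by
  simp only [sc, F2, An, Un, Matrix.cons_val_zero, Matrix.cons_val_one, ord_mul, hi, true_and]

theorem dvd_F2 (K : Type) [Field K] [Algebra k K] (γ : Fin 2 → PowerSeries K)
    (h : F2 p q Ψ i K γ) : ∀ j, PowerSeries.X ^ (![p * i, q * i] : Fin 2 → ℕ) j ∣ γ j :=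
  Fin.forall_fin_two.2 ⟨dvd_iff_le_order.2 h.1.2.1.ge, dvd_iff_le_order.2 h.1.2.2.ge⟩

theorem piece (hp : 0 < p) (h : p * w = q * u + 1) {M : ℕ} (hΨ : Lev Ψ M) {v : Mot k}
    (hv : AV (F1 p q u w Ψ i) v) : AV (F2 p q Ψ i) (Linv k ^ ((p + q - 1) * i) * v) := by
  rcases i.eq_zero_or_pos with rfl | hi
  · rw [mul_zero, pow_zero, one_mul]
    refine hv.congr fun K _ _ γ => ⟨fun h => ?_, fun h => absurd h.1.1 (lt_irrefl 0)⟩
    exact absurd h.2 (by simpa using h.1.1.1.ne')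
  obtain ⟨v', h1, rfl⟩ := down (c := ![i, 0]) hv fun K _ _ γ hγ =>
    Fin.forall_fin_two.2 ⟨dvd_iff_le_order.2 hγ.2.ge, by simp⟩
  have h2 := up ((units h (M := M) (fun K _ _ γ γ' e hγ => hΨ K _ _ (fun j => by
    rw [← mul_sub]
    exact (e j).mul_left _) hγ) (h1.congr (sc_F1 hi))).congr (sc_F2 hi)) dvd_F2
  obtain ⟨p, rfl⟩ := Nat.exists_eq_add_of_le' hp
  simp only [Matrix.cons_val_zero, Matrix.cons_val_one] at h2 ⊢
  rw [← mul_assoc, ← pow_add, show p + 1 + q - 1 = p + q by omega,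
    show (p + q) * i + (i + 0) = (p + 1) * i + q * i by ring]
  exact h2

theorem back (h : p * w = q * u + 1) (K : Type) [Field K] [Algebra k K]
    (γ : Fin 2 → PowerSeries K) (hγ : F2 p q Ψ i K γ) : ∃ γ', F1 p q u w Ψ i K γ' := by
  choose δ hδ using dvd_F2 K γ hγ
  have hi := hγ.1.1
  rw [_root_.funext hδ] at hγ
  obtain ⟨ε, hε, -⟩ := pre h _ K δ ((sc_F2 hi K δ).2 hγ)
  exact ⟨_, (sc_F1 hi K ε).2 hε⟩

end PP

open PP in
theorem ch_ok {k : Type} [Field k] : S_ch k := by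
  rintro n p q u w M Ψ v hp hq h hΨ ⟨M₀, ω, h1, h2, rfl⟩
  have h3 := wv_of_fin (n := n) (Finset.range M₀) (F2 p q Ψ) (fun i => p * i) _
    (fun i hi => piece hp h hΨ (h2 i (Finset.mem_range.1 hi))) (fun i _ K _ _ γ hγ => hγ.1.2.1)
    fun K _ _ γ i _ j _ hi hj => Nat.eq_of_mul_eq_mul_left hp (by
      exact_mod_cast hi.1.2.1.symm.trans hj.1.2.1)
  have e : ∀ i, Linv k ^ (n * (p * i)) * (Linv k ^ ((p + q - 1) * i) * ω i) =
      Linv k ^ ((p * (n + 1) + q - 1) * i) * ω i := fun i => by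
    obtain ⟨p, rfl⟩ := Nat.exists_eq_add_of_le' hp
    rw [← mul_assoc, ← pow_add, show p + 1 + q - 1 = p + q by omega,
      show (p + 1) * (n + 1) + q - 1 = (p + 1) * n + p + q by rw [mul_add_one]; omega]
    ring_nf
  simp only [e] at h3
  refine h3.congr fun K _ _ γ => ⟨fun ⟨i, _, hi⟩ => ⟨⟨i, hi.1⟩, hi.2⟩, fun ⟨⟨i, hi⟩, hγ⟩ => ?_⟩
  obtain ⟨γ', h4⟩ := back (Ψ := Ψ) h K γ ⟨hi, hγ⟩
  have := h1 K γ' h4.1
  rw [h4.2] at this
  exact ⟨i, Finset.mem_range.2 (by exact_mod_cast this), hi, hγ⟩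

end

end Pool.Agent.P.MP_b91a16_ag.Id
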