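import Pool.Agent.P.MP_b91a16_ag.Id.Base

/-! Ideals in two variables: the arcs on a ray. -/

open MvPolynomial

namespace Pool.Agent.P.MP_b91a16_ag.Id

variable {k ι ρ : Type} [Field k] [Fintype ι] [Fintype ρ] [DecidableEq ρ]

namespace PQ

theorem pos_iff {K : Type} [Field K] (s : PowerSeries K) :
    0 < s.order ↔ PowerSeries.constantCoeff s = 0 := by
  rw [← PowerSeries.X_dvd_iff, ← pow_one PowerSeries.X, dvd_iff_le_order]
  exact Order.one_le_iff_pos.symm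

theorem zero_iff {K : Type} [Field K] (s : PowerSeries K) :
    s.order = 0 ↔ PowerSeries.constantCoeff s ≠ 0 := by
  rw [Ne, ← pos_iff, not_lt, nonpos_iff_eq_zero]

theorem tr_tr (c d : k) (h : c + d = 0) (j : Fin 2) : aeval (tr c) (tr d j) = X j := by
  fin_cases j
  · simp [tr]
  · simp [tr, add_assoc, ← C_add, h]

omit [Fintype ι] [DecidableEq ρ] in
theorem point {A : Set (ℕ × (ρ → ℕ))} {G : ι → P2 k} {β : ι → ρ} {n : ℕ} {c : k}
    (h : InR A (fun e => An (Cone k 1 0 0 1) (Ord (pb (tr c) G) β e)) n) :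
    InR A (fun e => An (fun K _ _ γ => 0 < (γ 0).order ∧
      PowerSeries.constantCoeff (γ 1) = algebraMap k K c) (Ord G β e)) n := by
  obtain ⟨Z, h1, h2⟩ := h
  refine ⟨Z, h1, fun e => WV.aut (ψ := tr c) (ψ' := tr (-c)) rfl (tr_tr _ _ (by ring))
    (tr_tr _ _ (by ring)) ((h2 e).congr fun K _ _ γ => ?_)⟩
  refine and_congr ?_ (by simp only [Ord, pb, aeval_aeval])
  simp [Cone, tr, pos_iff, alg_ps, and_comm]

end PQ

open PQ in
theorem ray_ok (hch : S_ch k) (hgen : S_gen k ι ρ) (hgr : S_genray k ρ) : S_ray k ι ρ := by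
  classical
  intro A n p q u w g β a m hp hq hd hH hL hN hA hc
  obtain ⟨C, hC⟩ := hgen p q u w g β a m hd hH hL hN
  have h1 := hgr A (p * (n + 1) + q - 1) _ (insert 0 C) hN (by rwa [Nat.sub_add_cancel (by omega)])
  have h2 := InR.sum (C.erase 0) _ (fun c h => point (hc c (Finset.ne_of_mem_erase h)))
    fun e K _ _ γ a _ b _ h h' => (algebraMap k K).injective (h.1.2.symm.trans h'.1.2)
  have h3 := h1.union h2 fun e K _ _ γ h ⟨c, h4, h5⟩ =>
    h.1.2 c (Finset.mem_insert_of_mem (Finset.mem_of_mem_erase h4)) h5.1.2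
  obtain ⟨Z, z1, z2⟩ := h3
  refine ⟨Z, z1, fun e => hch n p q u w _ _ _ hp hq hd (lev_Ord g β e)
    ((z2 e).congr fun K _ _ γ => ?_)⟩
  rw [← Ord_pb]
  constructor
  · rintro (⟨⟨a1, a2⟩, a3⟩ | ⟨c, a1, ⟨a2, a3⟩, a4⟩)
    · exact ⟨⟨a1, (zero_iff _).2 (by simpa using a2 0 (Finset.mem_insert_self _ _))⟩,
        (hC e K γ a1 fun c h => a2 c (Finset.mem_insert_of_mem h)).2 a3⟩
    · exact ⟨⟨a2, (zero_iff _).2 (a3 ▸ (map_ne_zero _).2 (Finset.ne_of_mem_erase a1))⟩, a4⟩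
  · rintro ⟨⟨a1, a2⟩, a3⟩
    have a4 := (zero_iff _).1 a2
    by_cases h : ∃ c ∈ C, PowerSeries.constantCoeff (γ 1) = algebraMap k K c
    · obtain ⟨c, b1, b2⟩ := h
      refine Or.inr ⟨c, Finset.mem_erase.2 ⟨?_, b1⟩, ⟨a1, b2⟩, a3⟩
      rintro rfl
      exact a4 (by simpa using b2)
    · have b1 : ∀ c ∈ C, PowerSeries.constantCoeff (γ 1) ≠ algebraMap k K c :=
        fun c hc e => h ⟨c, hc, e⟩
      refine Or.inl ⟨⟨a1, fun c hc => ?_⟩, (hC e K γ a1 b1).1 a3⟩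
      rcases Finset.mem_insert.1 hc with rfl | hc
      · simpa using a4
      · exact b1 c hc

end Pool.Agent.P.MP_b91a16_ag.Id
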