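import Pool.Agent.P.MP_b91a16_ag.Id.Base

/-! The zeta function of `∑ y_i f_i` in terms of the orders of the ideal `(f_i)`. -/

set_option linter.unusedSectionVars false

open MvPolynomial

namespace Pool.Agent.P.MP_b91a16_ag.Id

noncomputable section

namespace PkR

variable {k : Type} [Field k]

theorem and_exists_ne {ι α : Type} (s : Finset α) (E : α → MvPolynomial ι k) {P : Pred k ι}
    {v : Mot k} (h : HasVol P v) :
    ∃ v', HasVol (k := k) (fun K _ _ x => P K x ∧ ∃ a ∈ s, aeval x (E a) ≠ 0) v' := by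
  classical
  induction s using Finset.induction_on generalizing P v with
  | empty => exact ⟨0, hasVol_false.congr fun K _ _ x => by simp⟩
  | insert a s _ ih =>
    obtain ⟨v₁, v₂, h₁, h₂, -⟩ := h.split (E a)
    obtain ⟨v', h'⟩ := ih h₁
    refine ⟨_, (h'.union h₂ fun K _ _ x h1 h2 => h2.2 h1.1.2).congr fun K _ _ x => ?_⟩
    simp only [Finset.exists_mem_insert]
    by_cases h0 : aeval x (E a) = 0 <;> simp [h0]

variable {r : ℕ} (f : Fin r → P2 k)

/-- The ideal has order `e` along the centred arc. -/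
def Q (e : ℕ) : Pred k (Fin 2 × ℕ) := fun _ _ _ x =>
  (∀ i, PowerSeries.X ^ e ∣ aeval (arc x) (f i)) ∧
    ∃ i, PowerSeries.coeff e (aeval (arc x) (f i)) ≠ 0

theorem exists_Q (e : ℕ) : ∃ v, HasVol (Q f e) v := by
  obtain ⟨v, h⟩ := (hasVol_true (k := k) (ι := Fin 2 × ℕ)).and_forall_eq
    (Finset.univ ×ˢ Finset.range e) fun p : Fin r × ℕ => cf (f p.1) p.2
  obtain ⟨v', h'⟩ := and_exists_ne Finset.univ (fun i => cf (f i) e) h
  refine ⟨v', h'.congr fun K _ _ x => ?_⟩
  simp only [Q, aeval_cf, PowerSeries.X_pow_dvd_iff, true_and, Finset.mem_product,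
    Finset.mem_univ, Finset.mem_range, Prod.forall]

theorem ser_eq_arc {K : Type} [Field K] (x : Fin 2 × ℕ → K)
    (hx : ∀ p ∈ lowSet (fun _ : Fin 2 => 1), x p = 0) :
    ser x = arc (x ∘ shiftEmb fun _ => 1) := by
  funext j
  ext p
  rcases p with _ | p
  · simpa [arc, ser] using hx (j, 0) (by simp [mem_lowSet])
  · rw [coeff_arc]
    simp [ser]

theorem av_Q {e : ℕ} {v : Mot k} (h : HasVol (Q f e) v) :
    AV (An (Cone k 1 0 0 1) (Ord f (fun _ => ()) (Finsupp.single () e))) (Linv k ^ 2 * v) := by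
  have h1 := (h.comap (shiftEmb fun _ => 1)).and_forall_zero (lowSet fun _ => 1)
    fun p hp K _ _ x c hx => by
      have : Function.update x p c ∘ shiftEmb (fun _ : Fin 2 => 1) =
          x ∘ shiftEmb fun _ => 1 := by
        funext q
        refine Function.update_of_ne ?_ _ _
        rintro rfl
        rw [mem_lowSet] at hp
        simp at hp
      rwa [this]
  rw [card_lowSet, Fin.sum_univ_two] at h1
  refine h1.congr fun K _ _ x => ?_
  have h2 : Cone k 1 0 0 1 K (ser x) ↔ ∀ p ∈ lowSet (fun _ : Fin 2 => 1), x p = 0 := by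
    simp only [Cone, Nat.cast_zero, Nat.cast_one, zero_mul, one_mul, mem_lowSet, Prod.forall,
      Fin.forall_fin_two, Nat.lt_one_iff, forall_eq, pos_iff_ne_zero,
      PowerSeries.order_ne_zero_iff_constCoeff_eq_zero]
    simp [ser, and_comm]
  have h3 : ∀ γ : Fin 2 → PowerSeries K, Ord f (fun _ => ()) (Finsupp.single () e) K γ ↔
      (∀ i, PowerSeries.X ^ e ∣ aeval γ (f i)) ∧ ∃ i, PowerSeries.coeff e (aeval γ (f i)) ≠ 0 :=
    fun γ => by
      simp only [Ord, Unique.forall_iff, Finsupp.single_eq_same, true_and, dvd_succ_iff]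
      exact and_congr_right fun H => exists_congr fun i => by simp [H i]
  change _ ↔ Cone k 1 0 0 1 K (ser x) ∧ Ord f (fun _ => ()) (Finsupp.single () e) K (ser x)
  rw [h2, h3, and_comm]
  refine and_congr_right fun H => ?_
  rw [ser_eq_arc x H]
  rfl

def emb (r : ℕ) : Fin 2 × ℕ ↪ Fin (2 + r) × ℕ :=
  (Fin.castAddEmb r).prodMap (Function.Embedding.refl ℕ)

theorem aeval_gI {K : Type} [CommRing K] [Algebra k K] (x : Fin (2 + r) × ℕ → K) :
    aeval (arc x) (gI f) = ∑ i, arc x (Fin.natAdd 2 i) * aeval (arc (x ∘ emb r)) (f i) := by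
  simp only [gI, map_sum, map_mul, aeval_X, aeval_rename]
  rfl

theorem update_emb {K : Type} (x : Fin (2 + r) × ℕ → K) (i : Fin r) (l : ℕ) (t : K) :
    Function.update x (Fin.natAdd 2 i, l) t ∘ emb r = x ∘ emb r := by
  funext q
  refine Function.update_of_ne (fun h => ?_) _ _
  have := congrArg (fun p : Fin (2 + r) × ℕ => p.1.1) h
  have h2 := q.1.2
  simp [emb] at this
  omega

theorem gI_update {K : Type} [CommRing K] [Algebra k K] (x : Fin (2 + r) × ℕ → K) (i : Fin r)
    (l : ℕ) (t : K) : aeval (arc (Function.update x (Fin.natAdd 2 i, l) t)) (gI f) =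
      aeval (arc x) (gI f) + PowerSeries.X ^ (l + 1) *
        (PowerSeries.C (t - x (Fin.natAdd 2 i, l)) * aeval (arc (x ∘ emb r)) (f i)) := by
  rw [aeval_gI, aeval_gI, update_emb, ← Finset.add_sum_erase _ _ (Finset.mem_univ i),
    ← Finset.add_sum_erase _ _ (Finset.mem_univ i), add_right_comm]
  congr 1
  · simp only [arc, ser_update, Function.update_self]
    ring
  · refine Finset.sum_congr rfl fun j hj => ?_
    simp only [arc, ser_update]
    rw [Function.update_of_ne fun h =>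
      Finset.ne_of_mem_erase hj (Fin.natAdd_injective _ _ h)]

/-- The ideal has order `e` and `g` has order at least `l`. -/
def PL (e l : ℕ) : Pred k (Fin (2 + r) × ℕ) := fun K _ _ x =>
  Q f e K (x ∘ emb r) ∧ PowerSeries.X ^ l ∣ aeval (arc x) (gI f)

theorem dvd_gI {K : Type} [CommRing K] [Algebra k K] {x : Fin (2 + r) × ℕ → K} {e : ℕ}
    (h : ∀ i, PowerSeries.X ^ e ∣ aeval (arc (x ∘ emb r)) (f i)) :
    PowerSeries.X ^ (e + 1) ∣ aeval (arc x) (gI f) := by
  rw [aeval_gI, pow_succ']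
  exact Finset.dvd_sum fun i _ => mul_dvd_mul (cen_arc x _) (h i)

theorem step {e n : ℕ} {v : Mot k} (h : HasVol (PL f e (e + 1 + n)) v) (d : k) :
    HasVol (k := k) (fun K _ _ x => PL f e (e + 1 + n) K x ∧
      PowerSeries.coeff (e + 1 + n) (aeval (arc x) (gI f)) = algebraMap k K d) (Linv k * v) := by
  have hD : ∀ (K : Type) [Field K] [Algebra k K] (x : Fin (2 + r) × ℕ → K) i,
      aeval x (rename (emb r) (cf (f i) e)) =
        PowerSeries.coeff e (aeval (arc (x ∘ emb r)) (f i)) := fun K _ _ x i => by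
    rw [aeval_rename, aeval_cf]
  refine (h.elim_multi Finset.univ (fun i => (Fin.natAdd 2 i, n))
    (cf (gI f) (e + 1 + n) - C d) (fun i => rename (emb r) (cf (f i) e))
    (fun K _ _ x t i _ j _ => ?_) (fun K _ _ x t i _ => ?_) (fun K _ _ x t i _ hx => ⟨?_, ?_⟩)
    fun K _ _ x hx => ?_).congr fun K _ _ x => ?_
  · rw [hD, hD, update_emb]
  · rw [hD, map_sub, map_sub, aeval_cf, aeval_cf, gI_update, map_add,
      show e + 1 + n = e + (n + 1) by ring, PowerSeries.coeff_X_pow_mul, PowerSeries.coeff_C_mul,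
      aeval_C, aeval_C]
    ring
  · rw [update_emb]
    exact hx.1
  · rw [gI_update]
    refine dvd_add hx.2 ?_
    rw [show e + 1 + n = n + 1 + e by ring, pow_add]
    exact mul_dvd_mul_left _ ((hx.1.1 i).mul_left _)
  · obtain ⟨i, hi⟩ := hx.1.2
    exact ⟨i, Finset.mem_univ i, by rwa [hD]⟩
  · rw [map_sub, aeval_cf, aeval_C, sub_eq_zero]

theorem vol_P {e : ℕ} {v : Mot k} (h : HasVol (Q f e) v) (n : ℕ) :
    HasVol (PL f e (e + 1 + n)) (Linv k ^ n * v) := by
  induction n with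
  | zero =>
    rw [pow_zero, one_mul]
    exact (h.comap (emb r)).congr fun K _ _ x => ⟨fun H => ⟨H, dvd_gI f H.1⟩, fun H => H.1⟩
  | succ n ih =>
    rw [pow_succ', mul_assoc]
    refine (step f ih 0).congr fun K _ _ x => ?_
    rw [map_zero, PL, PL, ← add_assoc, dvd_succ_iff (m := e + 1 + n), and_assoc]

theorem coeff_zeta (v : ℕ → Mot k) (h : ∀ e, HasVol (Q f e) (v e)) (m : ℕ) :
    PowerSeries.coeff (m + 1) (zeta (gI f)) =
      ∑ e ∈ Finset.range (m + 1), Linv k ^ (m - e + 1) * v e := by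
  rw [coeff_zeta_vol]
  refine (hasVol_vol _ _ _).unique ((hasVol_sum _ (fun e K _ _ x => PL f e (m + 1) K x ∧
    PowerSeries.coeff (m + 1) (aeval (arc x) (gI f)) = algebraMap k K 1) _ (fun e he => ?_)
    ?_).congr fun K _ _ x => ?_)
  · have h1 := step f (vol_P f (h e) (m - e)) 1
    have he := Finset.mem_range.1 he
    rwa [show e + 1 + (m - e) = m + 1 by omega, ← mul_assoc, ← pow_succ'] at h1
  · have aux : ∀ (K : Type) [Field K] [Algebra k K] (x : Fin 2 × ℕ → K) a b,
        Q f a K x → Q f b K x → b ≤ a := fun K _ _ x a b ha hb => by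
      obtain ⟨i, hi⟩ := ha.2
      by_contra hlt
      exact hi (PowerSeries.X_pow_dvd_iff.1 (hb.1 i) a (by omega))
    intro K _ _ x a _ b _ ha hb
    exact le_antisymm (aux K _ b a hb.1.1 ha.1.1) (aux K _ a b ha.1.1 hb.1.1)
  · rw [CP_iff]
    refine ⟨fun ⟨e, _, H⟩ => ⟨H.1.2, H.2⟩, fun H => ?_⟩
    classical
    have h1 : ¬∀ i, PowerSeries.X ^ (m + 1) ∣ aeval (arc (x ∘ emb r)) (f i) := fun h1 => by
      have := (dvd_succ_iff.1 (dvd_gI f h1)).2
      rw [H.2, map_one] at this
      exact one_ne_zero this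
    have hex : ∃ e, ¬∀ i, PowerSeries.X ^ (e + 1) ∣ aeval (arc (x ∘ emb r)) (f i) := ⟨m, h1⟩
    have h2 : ∀ i, PowerSeries.X ^ Nat.find hex ∣ aeval (arc (x ∘ emb r)) (f i) := by
      rcases h3 : Nat.find hex with _ | n
      · simp
      · exact not_not.1 (Nat.find_min hex (by omega))
    obtain ⟨i, hi⟩ := not_forall.1 (Nat.find_spec hex)
    exact ⟨Nat.find hex, Finset.mem_range.2 (Nat.lt_succ_of_le (Nat.find_min' hex h1)),
      ⟨⟨h2, i, fun h3 => hi (dvd_succ_iff.2 ⟨h2 i, h3⟩)⟩, H.1⟩, H.2⟩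

end PkR

theorem lin_ok {k : Type} [Field k] : S_lin k := by
  intro r f Z hZ
  choose v hv using PkR.exists_Q f
  have h1 : ∀ e, PowerSeries.coeff e Z = Linv k ^ 2 * v e := fun e =>
    (hZ e).unique (PkR.av_Q f (hv e))
  have h2 := PkR.coeff_zeta f v hv
  have h0 : PowerSeries.coeff 0 (zeta (gI f)) = 0 := by
    rw [zeta, series, PowerSeries.coeff_mk, if_pos rfl]
  have hL := L_mul_Linv (k := k)
  rw [pow_one, pow_one, mul_sub, mul_one, mul_left_comm, mul_comm _ PowerSeries.X, mul_assoc]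
  ext m
  rw [map_sub, PowerSeries.coeff_C_mul, PowerSeries.coeff_C_mul]
  rcases m with _ | m
  · simp only [PowerSeries.coeff_zero_X_mul, mul_zero, sub_zero, h0]
  rw [PowerSeries.coeff_succ_X_mul, PowerSeries.coeff_succ_X_mul, h2, h1, Finset.sum_range_succ]
  have h3 : Linv k * PowerSeries.coeff m (zeta (gI f)) =
      ∑ e ∈ Finset.range m, Linv k ^ (m - e + 1) * v e := by
    rcases m with _ | m
    · rw [h0, mul_zero, Finset.sum_range_zero]
    · rw [h2, Finset.mul_sum]
      refine Finset.sum_congr rfl fun e he => ?_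
      have he := Finset.mem_range.1 he
      rw [← mul_assoc, ← pow_succ', show m - e + 1 + 1 = m + 1 - e + 1 by omega]
  rw [h3, Nat.sub_self, zero_add, pow_one]
  linear_combination (-(Linv k * v m)) * hL

end

end Pool.Agent.P.MP_b91a16_ag.Id
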