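import Pool.Agent.P.MP_b91a16_ag.Id.Fin1
import Pool.Agent.P.MP_b91a16_ag.Id.PA
import Pool.Agent.P.MP_b91a16_ag.Id.PB
import Pool.Agent.P.MP_b91a16_ag.Id.PC
import Pool.Agent.P.MP_b91a16_ag.Id.PD
import Pool.Agent.P.MP_b91a16_ag.Id.PE
import Pool.Agent.P.MP_b91a16_ag.Id.PF
import Pool.Agent.P.MP_b91a16_ag.Id.PG
import Pool.Agent.P.MP_b91a16_ag.Id.PH
import Pool.Agent.P.MP_b91a16_ag.Id.PI
import Pool.Agent.P.MP_b91a16_ag.Id.PJ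
import Pool.Agent.P.MP_b91a16_ag.Id.PK
import Pool.Agent.P.MP_b91a16_ag.Id.PL
import Pool.Agent.P.MP_b91a16_ag.Id.PM
import Pool.Agent.P.MP_b91a16_ag.Id.PN
import Pool.Agent.P.MP_b91a16_ag.Id.PO
import Pool.Agent.P.MP_b91a16_ag.Id.PP
import Pool.Agent.P.MP_b91a16_ag.Id.PQ
import Pool.Agent.P.MP_b91a16_ag.Id.PR

/-! Ideals in two variables: assembly. -/

namespace Pool.Agent.P.MP_b91a16_ag.Id

theorem hyp (k ι ρ : Type) [Field k] [CharZero k] [IsAlgClosed k] [Fintype ι] [Fintype ρ]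
    [DecidableEq ρ] : Hyp k ι ρ :=
  ⟨shSt_ok, shSt_ok, shCone_ok, ordGen_ok, ordCone_ok, ordTerm_ok, fin_ok, split_ok, tsch, trunc,
    bottom_ok, next_ok, child ini_ok, two_ok, r0, chSh_ok, chCh_ok, chLin_ok,
    rootA_ok res_ok p1_ok ini_ok chTh_ok, rootC_ok, cone_ok, strip_ok,
    ray_ok ch_ok (gen ini_ok) genray_ok⟩

theorem main {k : Type} [Field k] [CharZero k] [IsAlgClosed k] {r : ℕ} (f : Fin r → P2 k)
    (hf : f ≠ 0) :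
    ∃ S : Finset (ℕ × ℕ), zeta (gI f) ∈ poleRing k S ∧ ∀ p ∈ S, 0 < p.1 ∧ 0 < p.2 ∧
      ∀ b, LocalBernsteinEq (gI f) b → b.eval (-(p.1 : k) / p.2) = 0 :=
  main_of (hyp k _ _) tw_ok lin_ok f hf

end Pool.Agent.P.MP_b91a16_ag.Id
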