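import Pool.Agent.P.MP_b91a16_ag.Id.Base

/-! Package J: the order count on the projective line. -/

open Polynomial

namespace Pool.Agent.P.MP_b91a16_ag.Id

noncomputable section

namespace PJ

variable {k Λ : Type} [Field k] [Fintype Λ]

open Classical in
def SS (φ : Λ → k[X]) (s : Λ → ℚ) : k[X] :=
  ∑ l, C (s l : k) * (φ l).derivative * ∏ l' ∈ Finset.univ.erase l, φ l'

theorem lin_der (c : k) (n : ℕ) (ψ : k[X]) :
    (X - C c) * derivative ((X - C c) ^ n * ψ) =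
      (X - C c) ^ n * (C (n : k) * ψ + (X - C c) * derivative ψ) := by
  rcases n with _ | n
  · simp
  · rw [derivative_mul, derivative_X_sub_C_pow]
    simp only [Nat.add_sub_cancel, map_natCast]
    ring

theorem loc (φ : Λ → k[X]) (s : Λ → ℚ) (c : k) [CharZero k] (h0 : ∀ l, φ l ≠ 0)
    (hs : ∀ l, s l < 0) :
    ∃ (n : ℕ) (Δ R : k[X]) (e : ℚ), Δ.eval c ≠ 0 ∧ e ≤ 0 ∧ (e = 0 → ∀ l, ¬(φ l).IsRoot c) ∧
      ∏ l, φ l = (X - C c) ^ n * Δ ∧
      (X - C c) * SS φ s = (X - C c) ^ n * (C (e : k) * Δ + (X - C c) * R) := by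
  classical
  have h1 : ∀ l, ∃ (n : ℕ) (ψ : k[X]), φ l = (X - C c) ^ n * ψ ∧ ψ.eval c ≠ 0 := fun l => by
    obtain ⟨ψ, e1, e2⟩ := exists_eq_pow_rootMultiplicity_mul_and_not_dvd (φ l) (h0 l) c
    exact ⟨_, ψ, e1, fun h => e2 (dvd_iff_isRoot.2 h)⟩
  choose n ψ h1 h2 using h1
  have hle : ∀ l ∈ Finset.univ, s l * n l ≤ 0 := fun l _ =>
    mul_nonpos_of_nonpos_of_nonneg (hs l).le (Nat.cast_nonneg _)
  refine ⟨∑ l, n l, ∏ l, ψ l,
    ∑ l, C (s l : k) * (ψ l).derivative * ∏ l' ∈ Finset.univ.erase l, ψ l', ∑ l, s l * n l, ?_,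
    Finset.sum_nonpos hle, fun he l hl => ?_, ?_, ?_⟩
  · rw [eval_prod]
    exact Finset.prod_ne_zero_iff.2 fun l _ => h2 l
  · have h3 := (Finset.sum_eq_zero_iff_of_nonpos hle).1 he l (Finset.mem_univ l)
    have h4 : n l = 0 := by exact_mod_cast (mul_eq_zero.1 h3).resolve_left (hs l).ne
    apply h2 l
    have h5 := h1 l
    rw [h4, pow_zero, one_mul] at h5
    rw [← h5]
    exact hl
  · rw [← Finset.prod_pow_eq_pow_sum, ← Finset.prod_mul_distrib]
    exact Finset.prod_congr rfl fun l _ => h1 l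
  · rw [SS, Rat.cast_sum, map_sum, Finset.sum_mul, Finset.mul_sum, Finset.mul_sum,
      ← Finset.sum_add_distrib, Finset.mul_sum]
    refine Finset.sum_congr rfl fun l _ => ?_
    have h3 : ∏ l' ∈ Finset.univ.erase l, φ l' =
        (X - C c) ^ (∑ l' ∈ Finset.univ.erase l, n l') * ∏ l' ∈ Finset.univ.erase l, ψ l' := by
      rw [← Finset.prod_pow_eq_pow_sum, ← Finset.prod_mul_distrib]
      exact Finset.prod_congr rfl fun l _ => h1 l
    have h4 := lin_der c (n l) (ψ l)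
    rw [← h1 l] at h4
    rw [← Finset.add_sum_erase _ n (Finset.mem_univ l),
      ← Finset.mul_prod_erase _ ψ (Finset.mem_univ l), pow_add, Rat.cast_mul, Rat.cast_natCast,
      map_mul]
    convert_to C (s l : k) * ((X - C c) * derivative (φ l)) * ∏ l' ∈ Finset.univ.erase l, φ l' = _
    · ring
    rw [h4, h3]
    ring

def Eqn (φ : Λ → k[X]) (s : Λ → ℚ) (P Q : k[X]) : Prop :=
  (∏ l, φ l) * (P.derivative * Q - P * Q.derivative) + SS φ s * P * Q = (∏ l, φ l) * Q ^ 2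

theorem root (φ : Λ → k[X]) (s : Λ → ℚ) [CharZero k] (h0 : ∀ l, φ l ≠ 0) (hs : ∀ l, s l < 0)
    {P Q : k[X]} (hQ : Q ≠ 0) (h : Eqn φ s P Q) (c : k) (hP : P.eval c ≠ 0) :
    Q.eval c ≠ 0 ∧ ∀ l, ¬(φ l).IsRoot c := by
  obtain ⟨n, Δ, R, e, h1, h2, h3, h4, h5⟩ := loc φ s c h0 hs
  obtain ⟨Q1, e1, e2⟩ := exists_eq_pow_rootMultiplicity_mul_and_not_dvd Q hQ c
  generalize rootMultiplicity c Q = y at e1
  have e3 : Q1.eval c ≠ 0 := fun h => e2 (dvd_iff_isRoot.2 h)
  have e4 := lin_der c y Q1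
  rw [← e1] at e4
  have key : (X - C c) ^ (n + y) * (Δ * ((X - C c) * derivative P * Q1 -
      P * (C (y : k) * Q1 + (X - C c) * derivative Q1)) + (C (e : k) * Δ + (X - C c) * R) * P * Q1) =
      (X - C c) ^ (n + y) * ((X - C c) * (X - C c) ^ y * Δ * Q1 ^ 2) := by
    have h6 : (∏ l, φ l) * ((X - C c) * P.derivative * Q - P * ((X - C c) * Q.derivative)) +
        (X - C c) * SS φ s * P * Q = (X - C c) * (∏ l, φ l) * Q ^ 2 := by
      unfold Eqn at h
      linear_combination (X - C c) * h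
    rw [e4, h5, h4] at h6
    rw [e1] at h6
    rw [pow_add]
    linear_combination h6
  have k2 := congrArg (eval c) (mul_left_cancel₀ (pow_ne_zero _ (X_sub_C_ne_zero c)) key)
  simp only [eval_add, eval_mul, eval_sub, eval_X, eval_C, sub_self, zero_mul, add_zero,
    zero_sub] at k2
  have k3 : ((e : k) - y) * (eval c Δ * eval c P * eval c Q1) = 0 := by linear_combination k2
  have k4 : (e : k) = y := sub_eq_zero.1
    ((mul_eq_zero.1 k3).resolve_right (mul_ne_zero (mul_ne_zero h1 hP) e3))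
  have k5 : e = y := by exact_mod_cast k4
  have k6 : (y : ℚ) = 0 := le_antisymm (k5 ▸ h2) (Nat.cast_nonneg _)
  have k7 : y = 0 := by exact_mod_cast k6
  refine ⟨?_, h3 (k5.trans k6)⟩
  rw [e1, k7, pow_zero, one_mul]
  exact e3

theorem poly (φ : Λ → k[X]) (s : Λ → ℚ) [CharZero k] [IsAlgClosed k] (h0 : ∀ l, φ l ≠ 0)
    (hs : ∀ l, s l < 0) (d : ℕ) : ∀ P Q : k[X], Q ≠ 0 → Q.natDegree = d → Eqn φ s P Q →
      ∃ P, Eqn φ s P 1 := by
  induction d with
  | zero =>
    intro P Q hQ hd h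
    obtain ⟨κ, rfl⟩ := natDegree_eq_zero.1 hd
    have hκ : κ ≠ 0 := fun h => hQ (by simp [h])
    have h1 : C κ * C κ⁻¹ = (1 : k[X]) := by rw [← map_mul, mul_inv_cancel₀ hκ, map_one]
    refine ⟨C κ⁻¹ * P, ?_⟩
    unfold Eqn at h ⊢
    simp only [derivative_C, derivative_one, derivative_mul, zero_mul, zero_add] at h ⊢
    linear_combination (C κ⁻¹) ^ 2 * h + ((∏ l, φ l) * (C κ * C κ⁻¹ + 1) -
      C κ⁻¹ * ((∏ l, φ l) * derivative P + SS φ s * P)) * h1
  | succ d ih =>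
    intro P Q hQ hd h
    obtain ⟨c, hc⟩ := IsAlgClosed.exists_root Q (by
      rw [degree_eq_natDegree hQ, hd]
      exact_mod_cast Nat.succ_ne_zero d)
    have hP : P.IsRoot c := by
      by_contra hP
      exact (root φ s h0 hs hQ h c hP).1 hc
    obtain ⟨P1, rfl⟩ := dvd_iff_isRoot.2 hP
    obtain ⟨Q1, rfl⟩ := dvd_iff_isRoot.2 hc
    have hQ1 : Q1 ≠ 0 := right_ne_zero_of_mul hQ
    refine ih P1 Q1 hQ1 ?_ ?_
    · rw [natDegree_mul (X_sub_C_ne_zero c) hQ1, natDegree_X_sub_C] at hd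
      omega
    · unfold Eqn at h ⊢
      apply mul_left_cancel₀ (pow_ne_zero 2 (X_sub_C_ne_zero c))
      simp only [derivative_mul, derivative_X_sub_C] at h
      linear_combination h

theorem coeff_xd (f : k[X]) (n : ℕ) : (X * derivative f).coeff n = n * f.coeff n := by
  rcases n with _ | n
  · simp
  · rw [coeff_X_mul, coeff_derivative]
    push_cast
    ring

theorem deg_xd (f : k[X]) : (X * derivative f).natDegree ≤ f.natDegree :=
  natDegree_le_iff_coeff_eq_zero.2 fun n hn => by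
    rw [coeff_xd, coeff_eq_zero_of_natDegree_lt hn, mul_zero]

theorem top (φ : Λ → k[X]) (s : Λ → ℚ) [CharZero k] (h0 : ∀ l, φ l ≠ 0) :
    (X * SS φ s).natDegree ≤ (∏ l, φ l).natDegree ∧
      (X * SS φ s).coeff (∏ l, φ l).natDegree =
        ((∑ l, s l * (φ l).natDegree : ℚ) : k) * (∏ l, φ l).leadingCoeff := by
  classical
  have h1 : ∀ l, ∏ l' ∈ Finset.univ.erase l, φ l' ≠ 0 := fun l =>
    Finset.prod_ne_zero_iff.2 fun l _ => h0 l
  have h2 : ∀ l, ∏ l, φ l = φ l * ∏ l' ∈ Finset.univ.erase l, φ l' := fun l =>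
    (Finset.mul_prod_erase _ φ (Finset.mem_univ l)).symm
  have h3 : X * SS φ s =
      ∑ l, C (s l : k) * ((X * derivative (φ l)) * ∏ l' ∈ Finset.univ.erase l, φ l') := by
    rw [SS, Finset.mul_sum]
    exact Finset.sum_congr rfl fun l _ => by ring
  rw [h3]
  constructor
  · refine natDegree_sum_le_of_forall_le _ _ fun l _ => (natDegree_C_mul_le _ _).trans ?_
    rw [h2 l, natDegree_mul (h0 l) (h1 l)]
    exact natDegree_mul_le.trans (Nat.add_le_add_right (deg_xd _) _)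
  · rw [finsetSum_coeff, Rat.cast_sum, Finset.sum_mul]
    refine Finset.sum_congr rfl fun l _ => ?_
    rw [coeff_C_mul, h2 l, natDegree_mul (h0 l) (h1 l),
      coeff_mul_add_eq_of_natDegree_le (deg_xd _) le_rfl, coeff_xd, leadingCoeff_mul]
    simp only [coeff_natDegree, Rat.cast_mul, Rat.cast_natCast]
    ring

end PJ

theorem p1_ok {k : Type} [Field k] [CharZero k] [IsAlgClosed k] : S_p1 k := by
  intro Λ _ φ s Z h0 hs hZ ⟨P0, Q, hQ, h⟩
  obtain ⟨P, hP⟩ := PJ.poly φ s h0 hs _ P0 Q hQ rfl h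
  have hΔ : ∏ l, φ l ≠ 0 := Finset.prod_ne_zero_iff.2 fun l _ => h0 l
  have hP0 : P ≠ 0 := by
    rintro rfl
    apply hΔ
    simpa [PJ.Eqn] using hP.symm
  have hc : Z.card ≤ P.natDegree := by
    classical
    refine card_le_degree_of_subset_roots fun c hc => ?_
    rw [mem_roots hP0]
    by_contra hr
    obtain ⟨l, hl⟩ := hZ c hc
    exact (PJ.root φ s h0 hs one_ne_zero hP c hr).2 l hl
  by_cases hp : P.natDegree ≤ 1
  · exact Or.inl (hc.trans hp)
  right
  obtain ⟨t1, t2⟩ := PJ.top φ s h0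
  have h1 : (∏ l, φ l) * (X * derivative P) + X * PJ.SS φ s * P = X * ∏ l, φ l := by
    unfold PJ.Eqn at hP
    simp only [derivative_one] at hP
    linear_combination X * hP
  have h2 := congrArg (fun f => coeff f ((∏ l, φ l).natDegree + P.natDegree)) h1
  simp only [coeff_add] at h2
  rw [coeff_mul_add_eq_of_natDegree_le le_rfl (PJ.deg_xd _),
    coeff_mul_add_eq_of_natDegree_le t1 le_rfl, t2, PJ.coeff_xd,
    coeff_eq_zero_of_natDegree_lt (p := X * ∏ l, φ l) (by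
      rw [natDegree_X_mul hΔ]
      omega), coeff_natDegree, coeff_natDegree] at h2
  have h3 : ((P.natDegree : k) + ((∑ l, s l * (φ l).natDegree : ℚ) : k)) *
      ((∏ l, φ l).leadingCoeff * P.leadingCoeff) = 0 := by linear_combination h2
  have h4 := (mul_eq_zero.1 h3).resolve_right
    (mul_ne_zero (leadingCoeff_ne_zero.2 hΔ) (leadingCoeff_ne_zero.2 hP0))
  have h5 : (P.natDegree : ℚ) + ∑ l, s l * (φ l).natDegree = 0 := by exact_mod_cast h4
  have h6 : -∑ l, s l * (φ l).natDegree = (P.natDegree : ℚ) := by linarith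
  rw [h6]
  exact ⟨by exact_mod_cast (by omega : 2 ≤ P.natDegree), by exact_mod_cast hc⟩

end

end Pool.Agent.P.MP_b91a16_ag.Id
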