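import Pool.Agent.P.MP_b91a16_ag.Id.Defs

/-! Ideals in two variables: the statements of the steps (interface file). -/

open MvPolynomial

namespace Pool.Agent.P.MP_b91a16_ag.Id

noncomputable section

/-- A family of members of the ideals, whose initial forms have at least `z` distinct roots. -/
def Fam {k ι ρ : Type} [Field k] [Fintype ι] (p q : ℕ) (g : ι → P2 k) (β : ι → ρ) (a m : ρ → ℕ)
    (z : ℕ) : Prop :=
  ∃ (Λ : Type) (_ : Fintype Λ) (blk : Λ → ρ) (lam : Λ → ι → k) (Z : Finset k),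
    Function.Surjective blk ∧ (∀ l i, lam l i ≠ 0 → β i = blk l) ∧
    (∀ l, ini p q (nv p q a m (blk l)) 0 1 (mem lam g l) ≠ 0 ∧
      (ini p q (nv p q a m (blk l)) 0 1 (mem lam g l)).natDegree ≤ m (blk l)) ∧
    z ≤ Z.card ∧ ∀ c ∈ Z, ∃ l, (ini p q (nv p q a m (blk l)) 0 1 (mem lam g l)).IsRoot c

variable (k ι ρ : Type) [Field k] [Fintype ι] [Fintype ρ] [DecidableEq ρ]

/-! ### Package A -/

def S_ini : Prop := ∀ (G : P2 k) (p q N u w : ℕ), (∀ v ∈ G.support, N ≤ wt p q v) →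
  Ini (aeval (tor k p q u w) G) N (ini p q N u w G)

def S_shSt : Prop := ∀ (p q : ℕ) (g : ι → P2 k) (β : ι → ρ) (a m : ρ → ℕ) (φ : Polynomial k),
  St p q g β a m → (∀ n ∈ φ.support, q < p * n) → St p q (pb (sh φ) g) β a m

def S_shCone : Prop := ∀ (p q : ℕ) (φ : Polynomial k), (∀ n ∈ φ.support, q < p * n) →
  ∀ (K : Type) [Field K] [Algebra k K] γ, Pb (sh φ) (Cone k p q 0 1) K γ ↔ Cone k p q 0 1 K γ

/-! ### Package B -/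

def S_ordGen : Prop := ∀ (g : ι → P2 k) (β : ι → ρ) (a m : ρ → ℕ) (e : ρ →₀ ℕ), Has g β a m →
  ∀ (K : Type) [Field K] [Algebra k K] (γ : Fin 2 → PowerSeries K),
    (∀ i, ∀ v ∈ (g i).support, v ≠ ex (a (β i)) (m (β i)) →
      (a (β i) : ℕ∞) * (γ 0).order + (m (β i) : ℕ∞) * (γ 1).order <
        (v 0 : ℕ∞) * (γ 0).order + (v 1 : ℕ∞) * (γ 1).order ∨
      (e (β i) : ℕ∞) < (v 0 : ℕ∞) * (γ 0).order + (v 1 : ℕ∞) * (γ 1).order) →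
    (Ord g β e K γ ↔ Mon k a m e K γ)

def S_ordCone : Prop := ∀ (p q p' q' : ℕ) (g : ι → P2 k) (β : ι → ρ) (a m : ρ → ℕ) (e : ρ →₀ ℕ),
  Has g β a m → Lo p q g β a m → Lo p' q' g β a m → 0 < p' → q * p' < p * q' → nv p q a m ≠ 0 →
  ∀ (K : Type) [Field K] [Algebra k K] γ, Cone k p q p' q' K γ → (Ord g β e K γ ↔ Mon k a m e K γ)

def S_ordTerm : Prop := ∀ (p q D : ℕ) (g : ι → P2 k) (β : ι → ρ) (a m : ρ → ℕ) (e : ρ →₀ ℕ),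
  Has g β a m → Lo p q g β a m → 0 < p → nv p q a m ≠ 0 →
  (∀ i, ∀ v ∈ (g i).support, v 1 < m (β i) → D ≤ v 0) → (∀ j, e j < D) →
  ∀ (K : Type) [Field K] [Algebra k K] γ, Cone k p q 0 1 K γ → (Ord g β e K γ ↔ Mon k a m e K γ)

def S_fin : Prop := ∀ (p q : ℕ) (g : ι → P2 k) (β : ι → ρ) (a m : ρ → ℕ) (e : ρ →₀ ℕ),
  Lo p q g β a m → nv p q a m ≠ 0 → ∀ (K : Type) [Field K] [Algebra k K] γ, Ord g β e K γ →
    (γ 0).order ≠ ⊤ ∨ (γ 1).order ≠ ⊤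

def S_split : Prop := ∀ (p q p' q' p'' q'' : ℕ), 0 < p' → 0 < q' → p'.Coprime q' →
  q * p' < p * q' → q' * p'' < p' * q'' →
  ∀ (K : Type) [Field K] [Algebra k K] (γ : Fin 2 → PowerSeries K),
    ((γ 0).order ≠ ⊤ ∨ (γ 1).order ≠ ⊤ → (Cone k p q p'' q'' K γ ↔
      Cone k p q p' q' K γ ∨ Ray k p' q' K γ ∨ Cone k p' q' p'' q'' K γ)) ∧
    ¬(Cone k p q p' q' K γ ∧ Ray k p' q' K γ) ∧
    ¬(Cone k p q p' q' K γ ∧ Cone k p' q' p'' q'' K γ) ∧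
    ¬(Ray k p' q' K γ ∧ Cone k p' q' p'' q'' K γ)

/-! ### Package C -/

def S_tsch : Prop := ∀ (p q a m : ℕ) (G : P2 k), 0 < p → 0 < m → coeff (ex a m) G ≠ 0 →
  (∀ v ∈ G.support, p * a + q * m ≤ wt p q v) →
  (∀ v ∈ G.support, v 1 < m → p * a + q * m < wt p q v) →
  ∃ φ : PowerSeries k, (∀ n, PowerSeries.coeff n φ ≠ 0 → q < p * n) ∧ (Φs φ G).coeff (m - 1) = 0

def S_trunc : Prop := ∀ (φ : PowerSeries k) (D a m : ℕ) (G : P2 k), a < D →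
  coeff (ex a m) (aeval (sh (φ.trunc D)) G) = PowerSeries.coeff a ((Φs φ G).coeff m)

/-! ### Package D -/

def S_bottom : Prop := ∀ (p q : ℕ) (g : ι → P2 k) (β : ι → ρ) (a m : ρ → ℕ), 0 < p →
  Has g β a m → Lo p q g β a m →
  ∃ a' b, St p q g β a' b ∧ nv p q a' b = nv p q a m ∧ ∀ j, b j ≤ m j ∧ a j ≤ a' j

def S_next : Prop := ∀ (p q : ℕ) (g : ι → P2 k) (β : ι → ρ) (a m : ρ → ℕ) (i : ι)
  (v : Fin 2 →₀ ℕ), 0 < p → St p q g β a m → v ∈ (g i).support → v 1 < m (β i) →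
  ∃ p' q', 0 < p' ∧ p'.Coprime q' ∧ q * p' < p * q' ∧ q' ≤ p' * v 0 ∧ Nd p' q' g β a m ∧
    ∃ i', ∃ v' ∈ (g i').support, wt p' q' v' = nv p' q' a m (β i') ∧ v' 1 < m (β i')

/-! ### Package E -/

def S_child : Prop := ∀ (p q u w : ℕ) (g : ι → P2 k) (β : ι → ρ) (a m : ρ → ℕ) (c : k),
  0 < p → p * w = q * u + 1 → (p = 1 → u = 0) → Nd p q g β a m → c ≠ 0 →
  ∃ mc, St 1 0 (pb (tr c) (pb (tor k p q u w) g)) β (nv p q a m) mc ∧ (∀ j, p * mc j ≤ m j) ∧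
    (NF p q g β a m → ∑ j, mc j < ∑ j, m j)

def S_gen : Prop := ∀ (p q u w : ℕ) (g : ι → P2 k) (β : ι → ρ) (a m : ρ → ℕ),
  p * w = q * u + 1 → Has g β a m → Lo p q g β a m → nv p q a m ≠ 0 →
  ∃ C : Finset k, ∀ (e : ρ →₀ ℕ) (K : Type) [Field K] [Algebra k K] (γ : Fin 2 → PowerSeries K),
    0 < (γ 0).order → (∀ c ∈ C, PowerSeries.constantCoeff (γ 1) ≠ algebraMap k K c) →
    (Ord (pb (tor k p q u w) g) β e K γ ↔ Mon k (nv p q a m) 0 e K γ)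

/-! ### Package F -/

def S_two : Prop := ∀ (p q : ℕ) (g : ι → P2 k) (β : ι → ρ) (a m : ρ → ℕ), 0 < p →
  p.Coprime q → Nd p q g β a m → NF p q g β a m →
  (∃ i, ∃ v ∈ (g i).support, wt p q v = nv p q a m (β i) ∧ v 1 < m (β i)) → Fam p q g β a m 2

/-! ### Package G -/

def S_r0 : Prop := ∀ (f : ι → P2 k) (β : ι → ρ), (∀ j, ∃ i, β i = j ∧ f i ≠ 0) →
  (∃ (A : Matrix (Fin 2) (Fin 2) k) (a m : ρ → ℕ), A.det ≠ 0 ∧ Has (pb (lin A) f) β a m ∧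
    ∀ i, ∀ v ∈ (pb (lin A) f i).support, v ≠ ex (a (β i)) (m (β i)) →
      a (β i) + m (β i) < v 0 + v 1) ∨
  ∃ a m, Nd 1 1 f β a m ∧ nv 1 1 a m ≠ 0 ∧ (Fam 1 1 f β a m 3 ∨ a ≠ 0 ∧ Fam 1 1 f β a m 2)

/-! ### Package H -/

def S_chSh : Prop := ∀ (π : Fin 2 → P2 k) (n : ℕ) (φ : Polynomial k), Ch π n → φ.coeff 0 = 0 →
  Ch (pb (sh φ) π) n

def S_chCh : Prop := ∀ (π : Fin 2 → P2 k) (n p q u w : ℕ) (c : k), Ch π n → 0 < p → 0 < q →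
  p * w = q * u + 1 → c ≠ 0 → Ch (pb (tr c) (pb (tor k p q u w) π)) (p * (n + 1) + q - 1)

def S_chTh : Prop := ∀ (π : Fin 2 → P2 k) (n p q : ℕ), Ch π n → 0 < p → 0 < q →
  (∀ i, X 0 ∣ pb (tor k p q 0 1) π i) ∧
    ∃ κ ≠ 0, Ini (Jac (pb (tor k p q 0 1) π)) (p * (n + 1) + q - 1) (Polynomial.C κ)

def S_chLin : Prop := (∀ A : Matrix (Fin 2) (Fin 2) k, A.det ≠ 0 → Ch (lin A) 0) ∧
  ∀ π : Fin 2 → P2 k, Ch π 0 → Ch (pb (sw k) π) 0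

/-! ### Package I -/

def S_res : Prop := ∀ (Λ : Type) [Fintype Λ] (f : ι → P2 k) (β : ι → ρ) (θ : Fin 2 → P2 k) (n : ℕ)
  (κ : k) (N : ρ → ℕ) (blk : Λ → ρ) (lam : Λ → ι → k) (φ : Λ → Polynomial k) (s : Λ → ℚ)
  (h : P2 k) (b : MvPolynomial ρ k), (∀ i, X 0 ∣ θ i) → κ ≠ 0 → Ini (Jac θ) n (Polynomial.C κ) →
  N ≠ 0 → (∀ i, X 0 ^ N (β i) ∣ aeval θ (f i)) → (∀ l i, lam l i ≠ 0 → β i = blk l) →
  (∀ l, φ l ≠ 0 ∧ Ini (aeval θ (mem lam f l)) (N (blk l)) (φ l)) →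
  ∑ l, s l * N (blk l) + (n + 1) = 0 → constantCoeff h ≠ 0 → Tw f β h b →
  eval (bs blk s) b ≠ 0 → Exact φ s

/-! ### Package J -/

def S_p1 : Prop := ∀ (Λ : Type) [Fintype Λ] (φ : Λ → Polynomial k) (s : Λ → ℚ) (Z : Finset k),
  (∀ l, φ l ≠ 0) → (∀ l, s l < 0) → (∀ c ∈ Z, ∃ l, (φ l).IsRoot c) → Exact φ s →
  Z.card ≤ 1 ∨ 2 ≤ -∑ l, s l * (φ l).natDegree ∧ (Z.card : ℚ) ≤ -∑ l, s l * (φ l).natDegree

/-! ### Package K -/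

def S_rootA : Prop := ∀ (f : ι → P2 k) (β : ι → ρ) (π : Fin 2 → P2 k) (n p q z : ℕ) (a m : ρ → ℕ),
  Ch π n → 0 < p → 0 < q → Lo p q (pb π f) β a m → nv p q a m ≠ 0 → Fam p q (pb π f) β a m z →
  (∀ w : ρ → ℚ, (∀ j, 0 < w j) → ∑ j, w j * nv p q a m j = p * (n + 1) + q →
    ∑ j, w j * m j < 2 ∧ 2 ≤ z ∨ ∑ j, w j * m j ≤ 2 ∧ 3 ≤ z) →
  (p * (n + 1) + q, nv p q a m) ∈ Alw f β

/-! ### Package L -/

def S_rootC : Prop := ∀ (f : ι → P2 k) (β : ι → ρ) (π : Fin 2 → P2 k) (n : ℕ) (m : ρ → ℕ)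
  (φ : PowerSeries k), Ch π n → PowerSeries.constantCoeff φ = 0 → m ≠ 0 →
  (∀ i, Polynomial.X ^ m (β i) ∣ Φs φ (pb π f i)) →
  (∀ j, ∃ i, β i = j ∧ (Φs φ (pb π f i)).coeff (m j) ≠ 0) → (1, m) ∈ Alw f β

/-! ### Package M -/

def S_tw : Prop := ∀ (r : ℕ) (f : Fin r → P2 k) (B : Polynomial k), LocalBernsteinEq (gI f) B →
  ∃ h, constantCoeff h ≠ 0 ∧ Tw f (fun _ => ()) h (Polynomial.aeval (X ()) B)

/-! ### Package N -/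

def S_cone : Prop := ∀ (A : Set (ℕ × (ρ → ℕ))) (n p q p' q' : ℕ) (a m : ρ → ℕ), q * p' < p * q' →
  nv p q a m ≠ 0 → nv p' q' a m ≠ 0 → (p * (n + 1) + q, nv p q a m) ∈ A →
  (p' * (n + 1) + q', nv p' q' a m) ∈ A →
  InR A (fun e => An (Cone k p q p' q') (Mon k a m e)) n

/-! ### Package O -/

def S_strip : Prop := ∀ (A : Set (ℕ × (ρ → ℕ))) (n p q : ℕ) (a : ρ → ℕ), 0 < p → a ≠ 0 →
  (p * (n + 1) + q, nv p q a 0) ∈ A → InR A (fun e => An (Cone k p q 0 1) (Mon k a 0 e)) n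

def S_genray : Prop := ∀ (A : Set (ℕ × (ρ → ℕ))) (n : ℕ) (N : ρ → ℕ) (C : Finset k), N ≠ 0 →
  (n + 1, N) ∈ A → InR A (fun e => An (fun K _ _ γ => 0 < (γ 0).order ∧
    ∀ c ∈ C, PowerSeries.constantCoeff (γ 1) ≠ algebraMap k K c) (Mon k N 0 e)) n

/-! ### Package P -/

def S_ch : Prop := ∀ (n p q u w M : ℕ) (Ψ : AP k (Fin 2)) (v : Mot k), 0 < p → 0 < q →
  p * w = q * u + 1 → Lev Ψ M →
  WV (An (fun _ _ _ γ => 0 < (γ 0).order ∧ (γ 1).order = 0) (Pb (tor k p q u w) Ψ))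
    (p * (n + 1) + q - 1) v → WV (An (Ray k p q) Ψ) n v

/-! ### Package Q -/

def S_ray : Prop := ∀ (A : Set (ℕ × (ρ → ℕ))) (n p q u w : ℕ) (g : ι → P2 k) (β : ι → ρ)
  (a m : ρ → ℕ), 0 < p → 0 < q → p * w = q * u + 1 → Has g β a m → Lo p q g β a m →
  nv p q a m ≠ 0 → (p * (n + 1) + q, nv p q a m) ∈ A →
  (∀ c ≠ 0, InR A (fun e => An (Cone k 1 0 0 1) (Ord (pb (tr c) (pb (tor k p q u w) g)) β e))
    (p * (n + 1) + q - 1)) →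
  InR A (fun e => An (Ray k p q) (Ord g β e)) n

/-! ### Package R -/

def S_lin : Prop := ∀ (r : ℕ) (f : Fin r → P2 k) (Z : PowerSeries (Mot k)),
  (∀ e : ℕ, AV (An (Cone k 1 0 0 1) (Ord f (fun _ => ()) (Finsupp.single () e)))
    (PowerSeries.coeff e Z)) →
  zeta (gI f) * (1 - PowerSeries.C (Linv k ^ 1) * PowerSeries.X ^ 1) =
    PowerSeries.C (algebraMap (K0 k) (Mot k) (cls k (Polynomial k))) * PowerSeries.X * Z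

end

end Pool.Agent.P.MP_b91a16_ag.Id
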